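import Pool.Agent.H928.BX.Stm

/-!
# `BMOA` is contained in the Bloch space
-/

set_option autoImplicit false

open MeasureTheory Set Filter Topology Complex Metric
open scoped ComplexConjugate

namespace Pool.Agent.H928.BX.BB

lemma kernel {r θ₀ θ : ℝ} (hr0 : 0 ≤ r) (hr1 : r < 1) (h : |θ - θ₀| ≤ Real.pi) :
    ((θ - θ₀) ^ 2 + (1 - r) ^ 2) / 100 ≤ ‖exp (θ * I) - r * exp (θ₀ * I)‖ ^ 2 := by
  have e1 : ‖exp (θ * I) - r * exp (θ₀ * I)‖ ^ 2 =
      (1 - r) ^ 2 + 2 * r * (1 - Real.cos (θ - θ₀)) := by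
    rw [Complex.sq_norm, Complex.normSq_apply]
    have h1 : (exp (θ * I) - r * exp (θ₀ * I)).re = Real.cos θ - r * Real.cos θ₀ := by
      rw [Complex.sub_re, Complex.re_ofReal_mul, Complex.exp_ofReal_mul_I_re,
        Complex.exp_ofReal_mul_I_re]
    have h2 : (exp (θ * I) - r * exp (θ₀ * I)).im = Real.sin θ - r * Real.sin θ₀ := by
      rw [Complex.sub_im, Complex.im_ofReal_mul, Complex.exp_ofReal_mul_I_im,
        Complex.exp_ofReal_mul_I_im]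
    rw [h1, h2, Real.cos_sub]
    have h3 := Real.cos_sq_add_sin_sq θ
    have h4 := Real.cos_sq_add_sin_sq θ₀
    linear_combination h3 + r ^ 2 * h4
  have h1 := Real.cos_le_one_sub_mul_cos_sq h
  have hpi : Real.pi ^ 2 ≤ 10 := by
    have := Real.pi_lt_d2
    have := Real.pi_pos
    nlinarith
  have hpi0 : 0 < Real.pi ^ 2 := by positivity
  have h2 : (θ - θ₀) ^ 2 / 5 ≤ 1 - Real.cos (θ - θ₀) := by
    have h3 : (1 / 5 : ℝ) ≤ 2 / Real.pi ^ 2 := by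
      rw [div_le_div_iff₀ (by norm_num) hpi0]
      linarith
    have h4 : 1 / 5 * (θ - θ₀) ^ 2 ≤ 2 / Real.pi ^ 2 * (θ - θ₀) ^ 2 :=
      mul_le_mul_of_nonneg_right h3 (sq_nonneg _)
    linarith
  have h5 : (θ - θ₀) ^ 2 ≤ 10 := by
    rw [← sq_abs]
    calc |θ - θ₀| ^ 2 ≤ Real.pi ^ 2 := pow_le_pow_left₀ (abs_nonneg _) h 2
      _ ≤ 10 := hpi
  rw [e1]
  have h6 := sq_nonneg (θ - θ₀)
  have h7 := sq_nonneg (1 - r)
  have h8 : 0 ≤ r * (1 - Real.cos (θ - θ₀)) := mul_nonneg hr0 (by linarith)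
  rcases le_or_gt (1 / 2) r with hr | hr
  · have h9 : 1 / 2 * ((θ - θ₀) ^ 2 / 5) ≤ r * (1 - Real.cos (θ - θ₀)) :=
      mul_le_mul hr h2 (by positivity) hr0
    linarith
  · have h9 : 1 / 4 ≤ (1 - r) ^ 2 := by nlinarith
    nlinarith

end Pool.Agent.H928.BX.BB

namespace Pool.Agent.H928.BX

open BB

theorem bb (h1 : S_REP) (h2 : S_DYAD) : S_BB := by
  intro F hF
  obtain ⟨hH, b, hb, hB⟩ := hF
  refine ⟨hH.1, ?_⟩
  obtain ⟨C, hC⟩ := h2 b hb.1 hb.2.1 hb.2.2.1 hB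
  refine ⟨2 * ((2 * Real.pi)⁻¹ * (100 * C)), fun z hz => ?_⟩
  set r := ‖z‖ with hr
  set θ₀ := Complex.arg z with hθ₀
  have hr0 : 0 ≤ r := norm_nonneg z
  have hr1 : r < 1 := by rwa [mem_ball_zero_iff] at hz
  have hzr : z = r * exp (θ₀ * I) := (Complex.norm_mul_exp_arg_mul_I z).symm
  have hδ : 0 < 1 - r := by linarith
  obtain ⟨c, hc⟩ := hC θ₀ (1 - r) hδ (by linarith)
  have hpi := Real.pi_pos
  have hrep := h1 F b hH hb z hz c (θ₀ - Real.pi)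
  have e0 : θ₀ - Real.pi + 2 * Real.pi = θ₀ + Real.pi := by ring
  rw [e0] at hrep
  -- integrability
  have hper : Function.Periodic (fun θ => ‖b θ‖ ^ 2) (2 * Real.pi) := by
    intro θ
    simp only
    rw [hb.2.1 θ]
  have hint0 : IntervalIntegrable (fun θ => ‖b θ‖ ^ 2) volume (θ₀ - Real.pi) (θ₀ + Real.pi) := by
    refine hper.intervalIntegrable (t := 0) (by positivity) ?_ _ _
    rw [zero_add]
    exact hb.2.2.1
  have hint : IntervalIntegrable (fun θ => 100 * (‖b θ - c‖ / ((θ - θ₀) ^ 2 + (1 - r) ^ 2))) volume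
      (θ₀ - Real.pi) (θ₀ + Real.pi) := by
    have hD : IntervalIntegrable (fun θ => 100 / (1 - r) ^ 2 * (1 + 2 * ‖c‖ ^ 2 + 2 * ‖b θ‖ ^ 2))
        volume (θ₀ - Real.pi) (θ₀ + Real.pi) :=
      (intervalIntegrable_const.add (hint0.const_mul 2)).const_mul _
    refine hD.mono_fun' ?_ ?_
    · have hm := hb.1
      have : Measurable (fun θ => 100 * (‖b θ - c‖ / ((θ - θ₀) ^ 2 + (1 - r) ^ 2))) := by fun_prop
      exact this.aestronglyMeasurable
    · refine Filter.Eventually.of_forall fun θ => ?_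
      have h3 : 0 < (1 - r) ^ 2 := by positivity
      have h4 : (1 - r) ^ 2 ≤ (θ - θ₀) ^ 2 + (1 - r) ^ 2 := by
        have := sq_nonneg (θ - θ₀)
        linarith
      have h5 : ‖b θ - c‖ ≤ 1 + 2 * ‖c‖ ^ 2 + 2 * ‖b θ‖ ^ 2 := by
        have h6 := norm_sub_le (b θ) c
        have h7 := sq_nonneg (‖b θ‖ - 1)
        have h8 := sq_nonneg (‖c‖ - 1)
        nlinarith [norm_nonneg (b θ), norm_nonneg c, sq_nonneg (‖b θ‖ - 1 / 2),
          sq_nonneg (‖c‖ - 1 / 2)]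
      show ‖100 * (‖b θ - c‖ / ((θ - θ₀) ^ 2 + (1 - r) ^ 2))‖ ≤
        100 / (1 - r) ^ 2 * (1 + 2 * ‖c‖ ^ 2 + 2 * ‖b θ‖ ^ 2)
      rw [Real.norm_eq_abs, abs_of_nonneg (by positivity)]
      calc 100 * (‖b θ - c‖ / ((θ - θ₀) ^ 2 + (1 - r) ^ 2)) ≤
          100 * ((1 + 2 * ‖c‖ ^ 2 + 2 * ‖b θ‖ ^ 2) / (1 - r) ^ 2) := by gcongr
        _ = _ := by ring
  have hnorm : ‖∫ θ in (θ₀ - Real.pi)..(θ₀ + Real.pi),
      (b θ - c) * exp (θ * I) / (exp (θ * I) - z) ^ 2‖ ≤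
      ∫ θ in (θ₀ - Real.pi)..(θ₀ + Real.pi), 100 * (‖b θ - c‖ / ((θ - θ₀) ^ 2 + (1 - r) ^ 2)) := by
    refine intervalIntegral.norm_integral_le_of_norm_le (by linarith) ?_ hint
    refine Filter.Eventually.of_forall fun θ hθ => ?_
    rw [norm_div, norm_mul, norm_pow, Complex.norm_exp_ofReal_mul_I, mul_one]
    have hab : |θ - θ₀| ≤ Real.pi := by
      rw [abs_le]
      constructor <;> linarith [hθ.1, hθ.2]
    have hk := kernel hr0 hr1 hab
    rw [← hzr] at hk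
    have h3 : 0 < (θ - θ₀) ^ 2 + (1 - r) ^ 2 := by positivity
    calc ‖b θ - c‖ / ‖exp (θ * I) - z‖ ^ 2 ≤
        ‖b θ - c‖ / (((θ - θ₀) ^ 2 + (1 - r) ^ 2) / 100) := by
          gcongr
      _ = 100 * (‖b θ - c‖ / ((θ - θ₀) ^ 2 + (1 - r) ^ 2)) := by
          field_simp
  rw [intervalIntegral.integral_const_mul] at hnorm
  have hF : ‖deriv F z‖ ≤ (2 * Real.pi)⁻¹ * (100 * (C / (1 - r))) := by
    rw [hrep, norm_mul, Complex.norm_real, Real.norm_eq_abs, abs_of_pos (by positivity)]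
    refine mul_le_mul_of_nonneg_left (hnorm.trans ?_) (by positivity)
    exact mul_le_mul_of_nonneg_left hc (by norm_num)
  have h3 : 1 - r ^ 2 ≤ 2 * (1 - r) := by nlinarith
  calc (1 - r ^ 2) * ‖deriv F z‖ ≤ 2 * (1 - r) * ‖deriv F z‖ :=
        mul_le_mul_of_nonneg_right h3 (norm_nonneg _)
    _ ≤ 2 * (1 - r) * ((2 * Real.pi)⁻¹ * (100 * (C / (1 - r)))) :=
        mul_le_mul_of_nonneg_left hF (by positivity)
    _ = 2 * ((2 * Real.pi)⁻¹ * (100 * C)) := by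
        field_simp

end Pool.Agent.H928.BX
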