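import Pool.Agent.H928.BX.Stm

/-! T6: closeness of the step. -/

set_option autoImplicit false

open MeasureTheory Set Filter Topology Complex Metric
open scoped ComplexConjugate

namespace Pool.Agent.H928.BX.Close

theorem finite_dA : IsFiniteMeasure dA := by
  refine ⟨?_⟩
  unfold dA
  rw [Measure.restrict_apply_univ]
  exact measure_ball_lt_top

/-- the key estimate on the closed disc -/
theorem key (Q B : ℂ → ℂ) (hQ : Differentiable ℂ Q) (hB : Differentiable ℂ B) :
    ∃ K : ℝ, 0 ≤ K ∧ ∀ (n : ℕ) (z : ℂ), ‖z‖ ≤ 1 →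
      ‖exp (Q z + z ^ n * B z) - exp (Q z)‖ ≤ K * ‖z‖ ^ n := by
  have hc : IsCompact (closedBall (0 : ℂ) 1) := isCompact_closedBall 0 1
  have hQc := hQ.continuous
  have hE : Continuous fun z => exp (Q z) := Complex.continuous_exp.comp hQc
  obtain ⟨K1, hK1⟩ := hc.exists_bound_of_continuousOn (f := fun z => exp (Q z)) hE.continuousOn
  obtain ⟨K2, hK2⟩ := hc.exists_bound_of_continuousOn (f := B) hB.continuous.continuousOn
  have h0 : (0 : ℂ) ∈ closedBall (0 : ℂ) 1 := mem_closedBall_self zero_le_one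
  have hK10 : 0 ≤ K1 := (norm_nonneg _).trans (hK1 0 h0)
  have hK20 : 0 ≤ K2 := (norm_nonneg _).trans (hK2 0 h0)
  refine ⟨K1 * (K2 * Real.exp K2), by positivity, fun n z hz => ?_⟩
  have hz' : z ∈ closedBall (0 : ℂ) 1 := by rwa [mem_closedBall_zero_iff]
  have e1 : exp (Q z + z ^ n * B z) - exp (Q z) = exp (Q z) * (exp (z ^ n * B z) - 1) := by
    rw [exp_add]; ring
  have e2 : ‖z ^ n * B z‖ ≤ ‖z‖ ^ n * K2 := by
    rw [norm_mul, norm_pow]
    exact mul_le_mul_of_nonneg_left (hK2 z hz') (by positivity)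
  have hzn : ‖z‖ ^ n ≤ 1 := pow_le_one₀ (norm_nonneg _) hz
  have e3 : ‖z ^ n * B z‖ ≤ K2 := e2.trans (by nlinarith)
  have e4 : ‖exp (z ^ n * B z) - 1‖ ≤ ‖z ^ n * B z‖ * Real.exp ‖z ^ n * B z‖ := by
    have h := Complex.norm_exp_sub_sum_le_norm_mul_exp (z ^ n * B z) 1
    simpa using h
  rw [e1, norm_mul]
  calc ‖exp (Q z)‖ * ‖exp (z ^ n * B z) - 1‖ ≤ K1 * ((‖z‖ ^ n * K2) * Real.exp K2) := by
        apply mul_le_mul (hK1 z hz') _ (norm_nonneg _) hK10
        exact e4.trans (mul_le_mul e2 (Real.exp_le_exp.2 e3) (Real.exp_nonneg _) (by positivity))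
    _ = K1 * (K2 * Real.exp K2) * ‖z‖ ^ n := by ring

end Pool.Agent.H928.BX.Close

namespace Pool.Agent.H928.BX

theorem close : S_CLOSE := by
  intro Q B hQ hB ρ hρ ε hε
  obtain ⟨K, hK, hkey⟩ := Close.key Q B hQ hB
  have hpart1 : ∀ᶠ n : ℕ in atTop, ∀ z, ‖z‖ ≤ ρ →
      ‖exp (Q z + z ^ n * B z) - exp (Q z)‖ ≤ ε := by
    rcases lt_or_ge ρ 0 with h | h
    · refine Eventually.of_forall fun n z hz => ?_
      exact absurd (hz.trans_lt h) (not_lt.2 (norm_nonneg z))
    · have h1 : Tendsto (fun n : ℕ => K * ρ ^ n) atTop (𝓝 (K * 0)) :=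
        (tendsto_pow_atTop_nhds_zero_of_lt_one h hρ).const_mul K
      rw [mul_zero] at h1
      filter_upwards [h1.eventually (gt_mem_nhds hε)] with n hn z hz
      refine (hkey n z (hz.trans hρ.le)).trans (le_trans ?_ hn.le)
      exact mul_le_mul_of_nonneg_left (pow_le_pow_left₀ (norm_nonneg z) hz n) hK
  have hpart2 : ∀ᶠ n : ℕ in atTop,
      ∫ z, ‖exp (Q z + z ^ n * B z) - exp (Q z)‖ ^ 2 ∂dA ≤ ε := by
    have hfin : IsFiniteMeasure dA := Close.finite_dA
    have hae : ∀ᵐ z ∂dA, z ∈ ball (0 : ℂ) 1 := ae_restrict_mem measurableSet_ball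
    have h2 : Tendsto (fun n : ℕ => ∫ z, ‖exp (Q z + z ^ n * B z) - exp (Q z)‖ ^ 2 ∂dA) atTop
        (𝓝 (∫ _z : ℂ, (0 : ℝ) ∂dA)) := by
      refine tendsto_integral_of_dominated_convergence (fun _ => K ^ 2) (fun n => ?_)
        (integrable_const _) (fun n => ?_) ?_
      · have hQc := hQ.continuous
        have hBc := hB.continuous
        have : Continuous fun z : ℂ => ‖exp (Q z + z ^ n * B z) - exp (Q z)‖ ^ 2 := by
          fun_prop
        exact this.aestronglyMeasurable
      · filter_upwards [hae] with z hz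
        rw [mem_ball_zero_iff] at hz
        rw [Real.norm_of_nonneg (by positivity)]
        have h3 := hkey n z hz.le
        have h4 : K * ‖z‖ ^ n ≤ K := by
          have := pow_le_one₀ (n := n) (norm_nonneg z) hz.le
          nlinarith
        exact pow_le_pow_left₀ (norm_nonneg _) (h3.trans h4) 2
      · filter_upwards [hae] with z hz
        rw [mem_ball_zero_iff] at hz
        have h5 : Tendsto (fun n : ℕ => (K * ‖z‖ ^ n) ^ 2) atTop (𝓝 ((K * 0) ^ 2)) :=
          ((tendsto_pow_atTop_nhds_zero_of_lt_one (norm_nonneg z) hz).const_mul K).pow 2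
        rw [mul_zero, zero_pow two_ne_zero] at h5
        exact squeeze_zero (fun n => by positivity)
          (fun n => pow_le_pow_left₀ (norm_nonneg _) (hkey n z hz.le) 2) h5
    rw [integral_zero] at h2
    filter_upwards [h2.eventually (gt_mem_nhds hε)] with n hn
    exact hn.le
  exact hpart1.and hpart2

end Pool.Agent.H928.BX
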