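import Pool.Agent.H928.BX.Stm

/-!
# T17a: functions orthogonal to the polynomials are orthogonal to `A^p`
(helper249, for helper928)
-/

set_option autoImplicit false

open MeasureTheory Set Filter Topology Complex Metric
open scoped ComplexConjugate

namespace Pool.Agent.H928.BX

namespace Dens

instance finite_dA : IsFiniteMeasure dA :=
  ⟨by rw [dA, Measure.restrict_apply_univ]; exact measure_ball_lt_top⟩

/-- Taylor coefficients -/
noncomputable def tc (f : ℂ → ℂ) (n : ℕ) : ℂ := (n.factorial : ℂ)⁻¹ * iteratedDeriv n f 0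

theorem hasSum_tc {f : ℂ → ℂ} (hf : DifferentiableOn ℂ f (ball 0 1)) {z : ℂ}
    (hz : z ∈ ball (0 : ℂ) 1) : HasSum (fun n => tc f n * z ^ n) (f z) := by
  have h := Complex.hasSum_taylorSeries_on_ball hf hz
  have e : (fun n : ℕ => ((n.factorial : ℂ))⁻¹ • (z - 0) ^ n • iteratedDeriv n f 0) =
      fun n => tc f n * z ^ n := by
    funext n
    rw [tc, sub_zero, smul_eq_mul, smul_eq_mul]
    ring
  rw [e] at h
  exact h

theorem summable_tc {f : ℂ → ℂ} (hf : DifferentiableOn ℂ f (ball 0 1)) {r : ℝ} (h0 : 0 < r)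
    (h1 : r < 1) : Summable fun n => ‖tc f n‖ * r ^ n := by
  have hr : (r : ℂ) ∈ ball (0 : ℂ) 1 := by
    rw [mem_ball_zero_iff, norm_real, Real.norm_of_nonneg h0.le]
    exact h1
  have h := summable_norm_iff.2 (hasSum_tc hf hr).summable
  have e : (fun n => ‖tc f n * (r : ℂ) ^ n‖) = fun n => ‖tc f n‖ * r ^ n := by
    funext n
    rw [norm_mul, norm_pow, norm_real, Real.norm_of_nonneg h0.le]
  rw [e] at h
  exact h

theorem ae_ball : ∀ᵐ z ∂dA, z ∈ ball (0 : ℂ) 1 := ae_restrict_mem measurableSet_ball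

theorem int_conj {v : ℂ → ℂ} (hv : Integrable v dA) : Integrable (fun z => conj (v z)) dA := by
  refine hv.mono (Complex.continuous_conj.comp_aestronglyMeasurable hv.1) ?_
  exact Eventually.of_forall fun z => le_of_eq (RCLike.norm_conj (v z))

theorem int_pow {v : ℂ → ℂ} (hv : Integrable v dA) (n : ℕ) :
    Integrable (fun z => z ^ n * conj (v z)) dA := by
  refine hv.mono ((continuous_pow n).aestronglyMeasurable.mul
    (Complex.continuous_conj.comp_aestronglyMeasurable hv.1)) ?_
  filter_upwards [ae_ball] with z hz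
  rw [mem_ball_zero_iff] at hz
  rw [norm_mul, norm_pow, RCLike.norm_conj]
  exact mul_le_of_le_one_left (norm_nonneg _) (pow_le_one₀ (norm_nonneg _) hz.le)

/-- the dilates are orthogonal to `v` -/
theorem dil_zero {f v : ℂ → ℂ} (hf : DifferentiableOn ℂ f (ball 0 1)) (hv : Integrable v dA)
    (hm : ∀ m : ℕ, ∫ z, z ^ m * conj (v z) ∂dA = 0) {r : ℝ} (h0 : 0 < r) (h1 : r < 1) :
    ∫ z, f (r * z) * conj (v z) ∂dA = 0 := by
  have hint : ∀ n : ℕ, Integrable (fun z => (tc f n * (r : ℂ) ^ n) * (z ^ n * conj (v z))) dA :=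
    fun n => (int_pow hv n).const_mul _
  have hle : ∀ n : ℕ, ∫ z, ‖(tc f n * (r : ℂ) ^ n) * (z ^ n * conj (v z))‖ ∂dA ≤
      (‖tc f n‖ * r ^ n) * ∫ z, ‖v z‖ ∂dA := by
    intro n
    rw [← integral_const_mul]
    refine integral_mono_ae (hint n).norm (hv.norm.const_mul _) ?_
    filter_upwards [ae_ball] with z hz
    rw [mem_ball_zero_iff] at hz
    rw [norm_mul, norm_mul, norm_mul, norm_pow, norm_pow, norm_real, Real.norm_of_nonneg h0.le,
      RCLike.norm_conj]
    refine mul_le_mul_of_nonneg_left ?_ (by positivity)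
    exact mul_le_of_le_one_left (norm_nonneg _) (pow_le_one₀ (norm_nonneg _) hz.le)
  have hsum : Summable fun n : ℕ =>
      ∫ z, ‖(tc f n * (r : ℂ) ^ n) * (z ^ n * conj (v z))‖ ∂dA :=
    Summable.of_nonneg_of_le (fun n => integral_nonneg fun z => norm_nonneg _) hle
      ((summable_tc hf h0 h1).mul_right _)
  have h := hasSum_integral_of_summable_integral_norm hint hsum
  have hz : ∀ n : ℕ, ∫ z, (tc f n * (r : ℂ) ^ n) * (z ^ n * conj (v z)) ∂dA = 0 := by
    intro n
    rw [integral_const_mul, hm n, mul_zero]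
  have h2 : HasSum (fun n : ℕ => ∫ z, (tc f n * (r : ℂ) ^ n) * (z ^ n * conj (v z)) ∂dA) 0 := by
    rw [funext hz]
    exact hasSum_zero
  have h3 := h.unique h2
  rw [← h3]
  refine integral_congr_ae ?_
  filter_upwards [ae_ball] with z hz
  rw [mem_ball_zero_iff] at hz
  have hrz : (r : ℂ) * z ∈ ball (0 : ℂ) 1 := by
    rw [mem_ball_zero_iff, norm_mul, norm_real, Real.norm_of_nonneg h0.le]
    calc r * ‖z‖ ≤ r * 1 := mul_le_mul_of_nonneg_left hz.le h0.le
      _ < 1 := by linarith
  have h4 := ((hasSum_tc hf hrz).mul_right (conj (v z))).tsum_eq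
  rw [← h4]
  refine tsum_congr fun n => ?_
  rw [mul_pow]
  ring

theorem dil_cont {f : ℂ → ℂ} (hf : DifferentiableOn ℂ f (ball 0 1)) {r : ℝ} (h0 : 0 < r)
    (h1 : r < 1) : ContinuousOn (fun z => f (r * z)) (closedBall 0 1) := by
  refine hf.continuousOn.comp (continuous_const.mul continuous_id).continuousOn ?_
  intro z hz
  rw [mem_closedBall_zero_iff] at hz
  rw [mem_ball_zero_iff, norm_mul, norm_real, Real.norm_of_nonneg h0.le]
  calc r * ‖z‖ ≤ r * 1 := mul_le_mul_of_nonneg_left hz h0.le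
    _ < 1 := by linarith

theorem dil_memLp {f : ℂ → ℂ} (hf : DifferentiableOn ℂ f (ball 0 1)) {r : ℝ} (h0 : 0 < r)
    (h1 : r < 1) (p : ENNReal) : MemLp (fun z => f (r * z)) p dA := by
  have hc := dil_cont hf h0 h1
  obtain ⟨B, hB⟩ := (isCompact_closedBall (0 : ℂ) 1).exists_bound_of_continuousOn hc
  refine MemLp.of_bound ((hc.mono ball_subset_closedBall).aestronglyMeasurable
    measurableSet_ball) B ?_
  filter_upwards [ae_ball] with z hz
  exact hB z (ball_subset_closedBall hz)

theorem dil_norm {p : ℝ} {f : ℂ → ℂ} (hf : InBergman p f) {r : ℝ} (h0 : 0 < r) (h1 : r < 1) :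
    ∫ z, ‖f (r * z)‖ ^ p ∂dA ≤ (r ^ 2)⁻¹ * ∫ z, ‖f z‖ ^ p ∂dA := by
  have h := Measure.setIntegral_comp_smul_of_pos (μ := (volume : Measure ℂ))
    (fun z : ℂ => ‖f z‖ ^ p) (ball (0 : ℂ) 1) h0
  rw [smul_unitBall_of_pos h0, Complex.finrank_real_complex, smul_eq_mul] at h
  have e : ∫ z, ‖f (r * z)‖ ^ p ∂dA = ∫ z in ball (0 : ℂ) 1, ‖f (r • z)‖ ^ p := by
    unfold dA
    refine integral_congr_ae (Eventually.of_forall fun z => ?_)
    change ‖f (r * z)‖ ^ p = ‖f (r • z)‖ ^ p
    rw [Complex.real_smul]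
  rw [e, h]
  refine mul_le_mul_of_nonneg_left ?_ (by positivity)
  refine setIntegral_mono_set hf.2 (Eventually.of_forall fun z => ?_)
    (Eventually.of_forall (ball_subset_ball h1.le))
  exact Real.rpow_nonneg (norm_nonneg _) p

/-- Hölder on a set -/
theorem holder {p q : ℝ} (hpq : p.HolderConjugate q) {g v : ℂ → ℂ}
    (hg : MemLp g (ENNReal.ofReal p) dA) (hv : MemLp v (ENNReal.ofReal q) dA) (E : Set ℂ) :
    ‖∫ z in E, g z * conj (v z) ∂dA‖ ≤
      (∫ z, ‖g z‖ ^ p ∂dA) ^ (1 / p) * (∫ z in E, ‖v z‖ ^ q ∂dA) ^ (1 / q) := by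
  have h1 : ‖∫ z in E, g z * conj (v z) ∂dA‖ ≤ ∫ z in E, ‖g z‖ * ‖v z‖ ∂dA := by
    refine (norm_integral_le_integral_norm _).trans (le_of_eq ?_)
    refine integral_congr_ae (Eventually.of_forall fun z => ?_)
    change ‖g z * conj (v z)‖ = ‖g z‖ * ‖v z‖
    rw [norm_mul, RCLike.norm_conj]
  have h2 := integral_mul_norm_le_Lp_mul_Lq hpq (hg.restrict E) (hv.restrict E)
  refine h1.trans (h2.trans ?_)
  have hgi : Integrable (fun z => ‖g z‖ ^ p) dA := by
    have h3 := hg.integrable_norm_rpow'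
    rw [ENNReal.toReal_ofReal hpq.nonneg] at h3
    exact h3
  refine mul_le_mul_of_nonneg_right ?_ ?_
  · refine Real.rpow_le_rpow (integral_nonneg fun z => Real.rpow_nonneg (norm_nonneg _) p) ?_
      (by have := hpq.nonneg; positivity)
    exact setIntegral_le_integral hgi
      (Eventually.of_forall fun z => Real.rpow_nonneg (norm_nonneg _) p)
  · exact Real.rpow_nonneg (integral_nonneg fun z => Real.rpow_nonneg (norm_nonneg _) q) _

/-- the radii -/
noncomputable def s (n : ℕ) : ℝ := 1 - (1 / 2) ^ (n + 1)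

theorem s_lt (n : ℕ) : s n < 1 := by
  unfold s
  have : (0 : ℝ) < (1 / 2) ^ (n + 1) := by positivity
  linarith

theorem s_ge (n : ℕ) : 1 / 2 ≤ s n := by
  unfold s
  have : ((1 : ℝ) / 2) ^ (n + 1) ≤ (1 / 2) ^ 1 :=
    pow_le_pow_of_le_one (by norm_num) (by norm_num) (by omega)
  rw [pow_one] at this
  linarith

theorem s_mono : Monotone s := by
  intro m n h
  unfold s
  have : ((1 : ℝ) / 2) ^ (n + 1) ≤ (1 / 2) ^ (m + 1) :=
    pow_le_pow_of_le_one (by norm_num) (by norm_num) (by omega)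
  linarith

theorem s_tendsto : Tendsto s atTop (𝓝 1) := by
  have h : Tendsto (fun n : ℕ => ((1 : ℝ) / 2) ^ (n + 1)) atTop (𝓝 0) :=
    (tendsto_pow_atTop_nhds_zero_of_lt_one (by norm_num) (by norm_num)).comp (tendsto_add_atTop_nat 1)
  have h2 := h.const_sub 1
  rw [sub_zero] at h2
  exact h2

theorem iUnion_ball : ⋃ n, ball (0 : ℂ) (s n) = ball (0 : ℂ) 1 := by
  ext z
  rw [mem_iUnion]
  constructor
  · rintro ⟨n, hn⟩
    exact ball_subset_ball (s_lt n).le hn
  · intro hz
    rw [mem_ball_zero_iff] at hz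
    obtain ⟨n, hn⟩ := (s_tendsto.eventually (lt_mem_nhds hz)).exists
    exact ⟨n, mem_ball_zero_iff.2 hn⟩

theorem tendsto_ball {E : Type} [NormedAddCommGroup E] [NormedSpace ℝ E] {g : ℂ → E}
    (hg : Integrable g dA) :
    Tendsto (fun k => ∫ z in ball (0 : ℂ) (s k), g z ∂dA) atTop (𝓝 (∫ z, g z ∂dA)) := by
  have h := tendsto_setIntegral_of_monotone (μ := dA) (f := g)
    (s := fun k => ball (0 : ℂ) (s k)) (fun _ => measurableSet_ball)
    (fun m n hmn => ball_subset_ball (s_mono hmn)) hg.integrableOn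
  rw [iUnion_ball] at h
  have e : dA.restrict (ball (0 : ℂ) 1) = dA := by
    unfold dA
    rw [Measure.restrict_restrict measurableSet_ball, inter_self]
  rw [e] at h
  exact h

end Dens

open Dens

theorem dens : S_DENS := by
  intro p hp f v hf hv hvq hm
  have hpq : p.HolderConjugate (p / (p - 1)) :=
    (Real.holderConjugate_iff_eq_conjExponent hp).2 rfl
  set q : ℝ := p / (p - 1) with hq
  have hp0 : 0 < p := hpq.pos
  have hq0 : 0 < q := hpq.symm.pos
  have hvL : MemLp v (ENNReal.ofReal q) dA := by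
    refine (integrable_norm_rpow_iff hv ?_ ENNReal.ofReal_ne_top).1 ?_
    · rw [Ne, ENNReal.ofReal_eq_zero, not_le]
      exact hq0
    · rw [ENNReal.toReal_ofReal hq0.le]
      exact hvq
  have hv1 : Integrable v dA := by
    rw [← memLp_one_iff_integrable]
    refine hvL.mono_exponent ?_
    rw [← ENNReal.ofReal_one]
    exact ENNReal.ofReal_le_ofReal hpq.symm.lt.le
  have hfm : AEStronglyMeasurable f dA := hf.1.continuousOn.aestronglyMeasurable measurableSet_ball
  have hfv : Integrable (fun z => f z * conj (v z)) dA := by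
    refine Integrable.mono' ((hf.2.div_const p).add (hvq.div_const q))
      (hfm.mul (Complex.continuous_conj.comp_aestronglyMeasurable hv)) ?_
    refine Eventually.of_forall fun z => ?_
    change ‖f z * conj (v z)‖ ≤ ‖f z‖ ^ p / p + ‖v z‖ ^ q / q
    rw [norm_mul, RCLike.norm_conj]
    exact Real.young_inequality_of_nonneg (norm_nonneg _) (norm_nonneg _) hpq
  set K : ℝ := (4 * ∫ z, ‖f z‖ ^ p ∂dA) ^ (1 / p) with hK
  have hI0 : 0 ≤ ∫ z, ‖f z‖ ^ p ∂dA :=
    integral_nonneg fun z => Real.rpow_nonneg (norm_nonneg _) p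
  -- the part near the boundary
  have hout : ∀ (n : ℕ) (E : Set ℂ), ‖∫ z in E, f (s n * z) * conj (v z) ∂dA‖ ≤
      K * (∫ z in E, ‖v z‖ ^ q ∂dA) ^ (1 / q) := by
    intro n E
    have hs0 : 0 < s n := by have := s_ge n; linarith
    refine (holder hpq (dil_memLp hf.1 hs0 (s_lt n) _) hvL E).trans ?_
    refine mul_le_mul_of_nonneg_right ?_
      (Real.rpow_nonneg (integral_nonneg fun z => Real.rpow_nonneg (norm_nonneg _) q) _)
    refine Real.rpow_le_rpow (integral_nonneg fun z => Real.rpow_nonneg (norm_nonneg _) p) ?_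
      (by positivity)
    refine (dil_norm hf hs0 (s_lt n)).trans (mul_le_mul_of_nonneg_right ?_ hI0)
    have h1 : (1 / 4 : ℝ) ≤ s n ^ 2 := by
      have := s_ge n
      nlinarith
    calc (s n ^ 2)⁻¹ ≤ (1 / 4 : ℝ)⁻¹ := inv_anti₀ (by norm_num) h1
      _ = 4 := by norm_num
  -- the inner part
  have hin : ∀ k : ℕ, ‖∫ z in ball (0 : ℂ) (s k), f z * conj (v z) ∂dA‖ ≤
      K * (∫ z in (ball (0 : ℂ) (s k))ᶜ, ‖v z‖ ^ q ∂dA) ^ (1 / q) := by
    intro k
    have hcc : closedBall (0 : ℂ) (s k) ⊆ ball 0 1 := closedBall_subset_ball (s_lt k)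
    obtain ⟨B, hB⟩ := (isCompact_closedBall (0 : ℂ) (s k)).exists_bound_of_continuousOn
      (hf.1.continuousOn.mono hcc)
    have hin' : ∀ z ∈ ball (0 : ℂ) (s k), ∀ n, (s n : ℂ) * z ∈ closedBall (0 : ℂ) (s k) := by
      intro z hz n
      rw [mem_ball_zero_iff] at hz
      have hs0 : 0 < s n := by have := s_ge n; linarith
      rw [mem_closedBall_zero_iff, norm_mul, norm_real, Real.norm_of_nonneg hs0.le]
      calc s n * ‖z‖ ≤ 1 * ‖z‖ := mul_le_mul_of_nonneg_right (s_lt n).le (norm_nonneg _)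
        _ ≤ s k := by rw [one_mul]; exact hz.le
    have hlim : Tendsto (fun n => ∫ z in ball (0 : ℂ) (s k), f (s n * z) * conj (v z) ∂dA) atTop
        (𝓝 (∫ z in ball (0 : ℂ) (s k), f z * conj (v z) ∂dA)) := by
      refine tendsto_integral_of_dominated_convergence (fun z => B * ‖v z‖) ?_ ?_ ?_ ?_
      · intro n
        have hs0 : 0 < s n := by have := s_ge n; linarith
        exact (((dil_memLp hf.1 hs0 (s_lt n) 1).1).mul
          (Complex.continuous_conj.comp_aestronglyMeasurable hv)).restrict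
      · exact (hv1.norm.const_mul B).integrableOn
      · intro n
        filter_upwards [ae_restrict_mem measurableSet_ball] with z hz
        rw [norm_mul, RCLike.norm_conj]
        exact mul_le_mul_of_nonneg_right (hB _ (hin' z hz n)) (norm_nonneg _)
      · filter_upwards [ae_restrict_mem measurableSet_ball] with z hz
        have hz1 : z ∈ ball (0 : ℂ) 1 := ball_subset_ball (s_lt k).le hz
        have hc : ContinuousAt f z :=
          (hf.1.continuousOn.continuousAt (isOpen_ball.mem_nhds hz1))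
        have h1 : Tendsto (fun n => (s n : ℂ) * z) atTop (𝓝 z) := by
          have h2 := ((Complex.continuous_ofReal.tendsto 1).comp s_tendsto).mul_const z
          rw [Complex.ofReal_one, one_mul] at h2
          exact h2
        exact (hc.tendsto.comp h1).mul_const _
    refine le_of_tendsto' hlim.norm fun n => ?_
    have hs0 : 0 < s n := by have := s_ge n; linarith
    have hint : Integrable (fun z => f (s n * z) * conj (v z)) dA := by
      obtain ⟨B', hB'⟩ := (isCompact_closedBall (0 : ℂ) 1).exists_bound_of_continuousOn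
        (dil_cont hf.1 hs0 (s_lt n))
      refine Integrable.mono' (hv1.norm.const_mul B') (((dil_memLp hf.1 hs0 (s_lt n) 1).1).mul
          (Complex.continuous_conj.comp_aestronglyMeasurable hv)) ?_
      filter_upwards [ae_ball] with z hz
      rw [norm_mul, RCLike.norm_conj]
      exact mul_le_mul_of_nonneg_right (hB' z (ball_subset_closedBall hz)) (norm_nonneg _)
    have h1 := integral_add_compl (measurableSet_ball (x := (0 : ℂ)) (ε := s k)) hint
    rw [dil_zero hf.1 hv1 hm hs0 (s_lt n)] at h1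
    have h2 : ∫ z in ball (0 : ℂ) (s k), f (s n * z) * conj (v z) ∂dA =
        - ∫ z in (ball (0 : ℂ) (s k))ᶜ, f (s n * z) * conj (v z) ∂dA :=
      eq_neg_of_add_eq_zero_left h1
    rw [h2, norm_neg]
    exact hout n _
  -- the limit
  have hl1 := (tendsto_ball hfv).norm
  have hl2 : Tendsto (fun k => K * (∫ z in (ball (0 : ℂ) (s k))ᶜ, ‖v z‖ ^ q ∂dA) ^ (1 / q)) atTop
      (𝓝 0) := by
    have h1 : Tendsto (fun k => ∫ z in (ball (0 : ℂ) (s k))ᶜ, ‖v z‖ ^ q ∂dA) atTop (𝓝 0) := by
      have h2 := (tendsto_ball hvq).const_sub (∫ z, ‖v z‖ ^ q ∂dA)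
      rw [sub_self] at h2
      refine h2.congr fun k => ?_
      have h3 := integral_add_compl (measurableSet_ball (x := (0 : ℂ)) (ε := s k)) hvq
      linarith
    have h2 := (h1.rpow_const (p := 1 / q) (Or.inr (by positivity))).const_mul K
    rw [Real.zero_rpow (by positivity), mul_zero] at h2
    exact h2
  have h := le_of_tendsto_of_tendsto' hl1 hl2 hin
  exact norm_le_zero_iff.1 h

end Pool.Agent.H928.BX
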