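import Pool.Agent.H928.BX.Stm

/-! T14: the derivative of `exp (Q + z ^ n B)` near a boundary point. -/

set_option autoImplicit false

open MeasureTheory Set Filter Topology Complex Metric
open scoped ComplexConjugate

namespace Pool.Agent.H928.BX

namespace Der

/-- the radii -/
noncomputable def r (n : ℕ) : ℝ := Real.exp (-(1 / (n : ℝ)))

/-- the points -/
noncomputable def zz (z0 : ℂ) (n : ℕ) : ℂ := (r n : ℂ) * z0

lemma r_pos (n : ℕ) : 0 < r n := Real.exp_pos _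

lemma r_lt {n : ℕ} (hn : 0 < n) : r n < 1 := by
  unfold r
  rw [Real.exp_lt_one_iff]
  have : (0 : ℝ) < 1 / (n : ℝ) := by positivity
  linarith

lemma r_lim : Tendsto r atTop (𝓝 1) := by
  have h1 : Tendsto (fun n : ℕ => -(1 / (n : ℝ))) atTop (𝓝 0) := by
    simpa using (tendsto_one_div_atTop_nhds_zero_nat (𝕜 := ℝ)).neg
  have h2 := (Real.continuous_exp.tendsto 0).comp h1
  rw [Real.exp_zero] at h2
  exact h2

lemma zz_lim (z0 : ℂ) : Tendsto (zz z0) atTop (𝓝 z0) := by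
  have h1 : Tendsto (fun n => (r n : ℂ)) atTop (𝓝 ((1 : ℝ) : ℂ)) :=
    (Complex.continuous_ofReal.tendsto 1).comp r_lim
  have h2 := h1.mul_const z0
  rw [Complex.ofReal_one, one_mul] at h2
  exact h2

lemma norm_zz {z0 : ℂ} (h : ‖z0‖ = 1) (n : ℕ) : ‖zz z0 n‖ = r n := by
  unfold zz
  rw [norm_mul, h, mul_one, Complex.norm_real, Real.norm_eq_abs, abs_of_pos (r_pos n)]

lemma r_pow {n : ℕ} (hn : 0 < n) : r n ^ n = Real.exp (-1) := by
  unfold r
  rw [← Real.exp_nat_mul]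
  congr 1
  have : (n : ℝ) ≠ 0 := Nat.cast_ne_zero.2 hn.ne'
  field_simp

lemma r_gap {n : ℕ} (hn : 2 ≤ n) : 1 ≤ (1 - r n ^ 2) * n := by
  have hn0 : (2 : ℝ) ≤ n := by exact_mod_cast hn
  have h1 : r n ^ 2 = Real.exp (-(2 / (n : ℝ))) := by
    unfold r
    rw [← Real.exp_nat_mul]
    congr 1
    push_cast
    ring
  have h2 : Real.exp (-(2 / (n : ℝ))) ≤ 1 / (1 + 2 / (n : ℝ)) := by
    rw [Real.exp_neg, ← one_div]
    apply one_div_le_one_div_of_le (by positivity)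
    have := Real.add_one_le_exp (2 / (n : ℝ))
    linarith
  have h3 : 1 - 1 / (1 + 2 / (n : ℝ)) = 2 / (n + 2) := by
    field_simp
    ring
  rw [h1]
  have h4 : 2 / ((n : ℝ) + 2) ≤ 1 - Real.exp (-(2 / (n : ℝ))) := by linarith
  calc (1 : ℝ) ≤ 2 / ((n : ℝ) + 2) * n := by
        rw [div_mul_eq_mul_div, le_div_iff₀ (by positivity)]
        linarith
    _ ≤ _ := by gcongr

lemma hder {Q B : ℂ → ℂ} (hQ : Differentiable ℂ Q) (hB : Differentiable ℂ B) (n : ℕ) (z : ℂ) :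
    deriv (fun z => exp (Q z + z ^ n * B z)) z = exp (Q z + z ^ n * B z) *
      (deriv Q z + ((n : ℂ) * z ^ (n - 1) * B z + z ^ n * deriv B z)) := by
  have h1 : HasDerivAt (fun z => Q z + z ^ n * B z)
      (deriv Q z + ((n : ℂ) * z ^ (n - 1) * B z + z ^ n * deriv B z)) z :=
    (hQ z).hasDerivAt.add ((hasDerivAt_pow n z).mul (hB z).hasDerivAt)
  exact h1.cexp.deriv

lemma lower {Q B : ℂ → ℂ} (hQ : Differentiable ℂ Q) (hB : Differentiable ℂ B) {z0 : ℂ}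
    (h : ‖z0‖ = 1) {n : ℕ} (hn : 2 ≤ n) :
    ‖exp (Q (zz z0 n))‖ * Real.exp (-‖B (zz z0 n)‖) * (Real.exp (-1) * ‖B (zz z0 n)‖ -
      (1 - r n ^ 2) * (‖deriv Q (zz z0 n)‖ + ‖deriv B (zz z0 n)‖)) ≤
      (1 - ‖zz z0 n‖ ^ 2) * ‖deriv (fun z => exp (Q z + z ^ n * B z)) (zz z0 n)‖ := by
  rw [hder hQ hB, norm_mul, Complex.exp_add, norm_mul, norm_zz h]
  set z := zz z0 n with hz
  have hn0 : 0 < n := by omega
  have hr0 := r_pos n
  have hr1 := r_lt hn0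
  have hzn : ‖z ^ n‖ = Real.exp (-1) := by rw [norm_pow, norm_zz h, r_pow hn0]
  have hgap := r_gap hn
  have hg0 : 0 ≤ 1 - r n ^ 2 := by nlinarith
  have he1 : Real.exp (-1) ≤ 1 := Real.exp_le_one_iff.2 (by norm_num)
  have he0 : 0 < Real.exp (-1) := Real.exp_pos _
  -- the factor
  have h1 : Real.exp (-‖B z‖) ≤ ‖exp (z ^ n * B z)‖ := by
    rw [Complex.norm_exp]
    apply Real.exp_le_exp.2
    have h2 : |(z ^ n * B z).re| ≤ ‖z ^ n * B z‖ := Complex.abs_re_le_norm _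
    rw [norm_mul, hzn] at h2
    have h3 := neg_abs_le (z ^ n * B z).re
    have h4 : Real.exp (-1) * ‖B z‖ ≤ ‖B z‖ := mul_le_of_le_one_left (norm_nonneg _) he1
    linarith
  have h2 : ‖z ^ (n - 1)‖ ≥ Real.exp (-1) := by
    rw [← hzn, norm_pow, norm_pow, norm_zz h]
    exact pow_le_pow_of_le_one hr0.le hr1.le (Nat.sub_le n 1)
  have h3 : (n : ℝ) * Real.exp (-1) * ‖B z‖ - (‖deriv Q z‖ + ‖deriv B z‖) ≤
      ‖deriv Q z + ((n : ℂ) * z ^ (n - 1) * B z + z ^ n * deriv B z)‖ := by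
    have e1 : (n : ℝ) * Real.exp (-1) * ‖B z‖ ≤ ‖(n : ℂ) * z ^ (n - 1) * B z‖ := by
      rw [norm_mul, norm_mul, Complex.norm_natCast]
      gcongr
    have e2 : ‖z ^ n * deriv B z‖ ≤ ‖deriv B z‖ := by
      rw [norm_mul, hzn]
      exact mul_le_of_le_one_left (norm_nonneg _) he1
    have e3 : ‖(n : ℂ) * z ^ (n - 1) * B z‖ ≤
        ‖deriv Q z + ((n : ℂ) * z ^ (n - 1) * B z + z ^ n * deriv B z)‖ + ‖deriv Q z‖ +
          ‖z ^ n * deriv B z‖ := by
      have e4 : (n : ℂ) * z ^ (n - 1) * B z =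
          (deriv Q z + ((n : ℂ) * z ^ (n - 1) * B z + z ^ n * deriv B z)) - deriv Q z -
            z ^ n * deriv B z := by ring
      calc ‖(n : ℂ) * z ^ (n - 1) * B z‖ = ‖(deriv Q z + ((n : ℂ) * z ^ (n - 1) * B z +
            z ^ n * deriv B z)) - deriv Q z - z ^ n * deriv B z‖ := by rw [← e4]
        _ ≤ _ := (norm_sub_le _ _).trans (add_le_add_left (norm_sub_le _ _) _)
    linarith
  set T := ‖deriv Q z + ((n : ℂ) * z ^ (n - 1) * B z + z ^ n * deriv B z)‖ with hT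
  set a := ‖exp (Q z)‖ with ha
  set b := ‖B z‖ with hb
  set D := ‖deriv Q z‖ + ‖deriv B z‖ with hD
  have ha0 : 0 ≤ a := norm_nonneg _
  have hb0 : 0 ≤ b := norm_nonneg _
  have hT0 : 0 ≤ T := norm_nonneg _
  have h5 : Real.exp (-1) * b - (1 - r n ^ 2) * D ≤ (1 - r n ^ 2) * T := by
    have h6 : (1 - r n ^ 2) * ((n : ℝ) * Real.exp (-1) * b - D) ≤ (1 - r n ^ 2) * T :=
      mul_le_mul_of_nonneg_left h3 hg0
    have h7 : 1 * (Real.exp (-1) * b) ≤ ((1 - r n ^ 2) * n) * (Real.exp (-1) * b) :=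
      mul_le_mul_of_nonneg_right hgap (by positivity)
    nlinarith
  calc a * Real.exp (-b) * (Real.exp (-1) * b - (1 - r n ^ 2) * D) ≤
        a * Real.exp (-b) * ((1 - r n ^ 2) * T) := by gcongr
    _ ≤ a * ‖exp (z ^ n * B z)‖ * ((1 - r n ^ 2) * T) := by gcongr
    _ = (1 - r n ^ 2) * (a * ‖exp (z ^ n * B z)‖ * T) := by ring

end Der

open Der in
theorem der : S_DER := by
  intro Q B hQ hB z0 h0 hB0
  have hz := zz_lim z0
  have hQ' : Continuous (deriv Q) := (hQ.contDiff (n := 1)).continuous_deriv le_rfl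
  have hB' : Continuous (deriv B) := (hB.contDiff (n := 1)).continuous_deriv le_rfl
  have l1 : Tendsto (fun n => ‖exp (Q (zz z0 n))‖) atTop (𝓝 ‖exp (Q z0)‖) :=
    ((Complex.continuous_exp.comp hQ.continuous).norm.tendsto z0).comp hz
  have l2 : Tendsto (fun n => Real.exp (-‖B (zz z0 n)‖)) atTop (𝓝 (Real.exp (-‖B z0‖))) :=
    ((Real.continuous_exp.comp hB.continuous.norm.neg).tendsto z0).comp hz
  have l3 : Tendsto (fun n => ‖B (zz z0 n)‖) atTop (𝓝 ‖B z0‖) :=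
    (hB.continuous.norm.tendsto z0).comp hz
  have l4 : Tendsto (fun n => ‖deriv Q (zz z0 n)‖ + ‖deriv B (zz z0 n)‖) atTop
      (𝓝 (‖deriv Q z0‖ + ‖deriv B z0‖)) :=
    ((hQ'.norm.add hB'.norm).tendsto z0).comp hz
  have l5 : Tendsto (fun n => 1 - r n ^ 2) atTop (𝓝 0) := by
    have := (r_lim.pow 2).const_sub 1
    simpa using this
  have l6 := (l1.mul l2).mul ((l3.const_mul (Real.exp (-1))).sub (l5.mul l4))
  rw [zero_mul, sub_zero] at l6
  have hpos : 0 < ‖exp (Q z0)‖ * Real.exp (-‖B z0‖) * (Real.exp (-1) * ‖B z0‖) := by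
    have e1 : 0 < ‖exp (Q z0)‖ := norm_pos_iff.2 (Complex.exp_ne_zero _)
    have e2 : 0 < ‖B z0‖ := norm_pos_iff.2 hB0
    have e3 := Real.exp_pos (-‖B z0‖)
    have e4 := Real.exp_pos (-1)
    positivity
  have hlt : (1 / 2) * Real.exp (-1) * Real.exp (-‖B z0‖) * ‖B z0‖ * ‖exp (Q z0)‖ <
      ‖exp (Q z0)‖ * Real.exp (-‖B z0‖) * (Real.exp (-1) * ‖B z0‖) := by
    have e : (1 / 2) * Real.exp (-1) * Real.exp (-‖B z0‖) * ‖B z0‖ * ‖exp (Q z0)‖ =
        (1 / 2) * (‖exp (Q z0)‖ * Real.exp (-‖B z0‖) * (Real.exp (-1) * ‖B z0‖)) := by ring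
    rw [e]
    linarith
  filter_upwards [l6.eventually_const_lt hlt, eventually_ge_atTop 2] with n hn hn2
  refine ⟨zz z0 n, ?_, hn.le.trans (lower hQ hB h0 hn2)⟩
  rw [mem_ball_zero_iff, norm_zz h0]
  exact r_lt (by omega)

end Pool.Agent.H928.BX
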