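import Pool.Agent.H928.BX.Stm

set_option autoImplicit false

open MeasureTheory Set Filter Topology Complex Metric
open scoped ComplexConjugate

namespace Pool.Agent.H928.BX

namespace Dyad

/-- mean over the symmetric interval -/
noncomputable def mn (b : ℝ → ℂ) (x t : ℝ) : ℂ := ((2 * t)⁻¹ : ℝ) • ∫ s in (x - t)..(x + t), b s

lemma osc {b : ℝ → ℂ} {C : ℝ} (hC : ∀ α β : ℝ, α < β → β ≤ α + 2 * Real.pi →
    (β - α)⁻¹ * ∫ θ in α..β, ‖b θ - ((β - α)⁻¹ : ℝ) • ∫ t in α..β, b t‖ ≤ C)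
    (x t : ℝ) (ht : 0 < t) (htp : t ≤ Real.pi) :
    ∫ s in (x - t)..(x + t), ‖b s - mn b x t‖ ≤ 2 * t * C := by
  have h := hC (x - t) (x + t) (by linarith) (by linarith)
  have e : x + t - (x - t) = 2 * t := by ring
  rw [e] at h
  unfold mn
  rw [inv_mul_le_iff₀ (by linarith)] at h
  exact h

lemma hint {b : ℝ → ℂ} (hb : ∀ a₁ a₂, IntervalIntegrable b volume a₁ a₂) (c : ℂ) (a₁ a₂ : ℝ) :
    IntervalIntegrable (fun s => ‖b s - c‖) volume a₁ a₂ :=
  ((hb a₁ a₂).sub intervalIntegrable_const).norm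

lemma hintw {b : ℝ → ℂ} (hb : ∀ a₁ a₂, IntervalIntegrable b volume a₁ a₂) (c : ℂ) (x δ : ℝ)
    (hδ : 0 < δ) (a₁ a₂ : ℝ) :
    IntervalIntegrable (fun s => ‖b s - c‖ / ((s - x) ^ 2 + δ ^ 2)) volume a₁ a₂ := by
  have h1 : Continuous (fun s : ℝ => ((s - x) ^ 2 + δ ^ 2)⁻¹) := by
    refine Continuous.inv₀ (by fun_prop) (fun s => ?_)
    positivity
  have h2 := (hint hb c a₁ a₂).mul_continuousOn h1.continuousOn
  simpa only [div_eq_mul_inv] using h2

lemma mn_sub {b : ℝ → ℂ} {C : ℝ} (hb : ∀ a₁ a₂, IntervalIntegrable b volume a₁ a₂) (hC0 : 0 ≤ C)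
    (hO : ∀ x t : ℝ, 0 < t → t ≤ Real.pi →
      ∫ s in (x - t)..(x + t), ‖b s - mn b x t‖ ≤ 2 * t * C)
    {x t u : ℝ} (ht : 0 < t) (htu : t ≤ u) (hu : u ≤ 2 * t) (hup : u ≤ Real.pi) :
    ‖mn b x t - mn b x u‖ ≤ 2 * C := by
  have e : mn b x t - mn b x u
      = ((2 * t)⁻¹ : ℝ) • ∫ s in (x - t)..(x + t), (b s - mn b x u) := by
    rw [intervalIntegral.integral_sub (hb _ _) intervalIntegrable_const,
      intervalIntegral.integral_const, smul_sub]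
    have : x + t - (x - t) = 2 * t := by ring
    rw [this, smul_smul, inv_mul_cancel₀ (by linarith), one_smul]
    rfl
  rw [e, norm_smul, Real.norm_of_nonneg (by positivity)]
  have h1 : ‖∫ s in (x - t)..(x + t), (b s - mn b x u)‖
      ≤ ∫ s in (x - t)..(x + t), ‖b s - mn b x u‖ :=
    intervalIntegral.norm_integral_le_integral_norm (by linarith)
  have h2 : ∫ s in (x - t)..(x + t), ‖b s - mn b x u‖
      ≤ ∫ s in (x - u)..(x + u), ‖b s - mn b x u‖ :=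
    intervalIntegral.integral_mono_interval (by linarith) (by linarith) (by linarith)
      (ae_of_all _ (fun _ => norm_nonneg _)) (hint hb _ _ _)
  have h3 := hO x u (by linarith) hup
  have h4 : ‖∫ s in (x - t)..(x + t), (b s - mn b x u)‖ ≤ 2 * (2 * t) * C := by
    have : 2 * u * C ≤ 2 * (2 * t) * C := by gcongr
    linarith
  calc (2 * t)⁻¹ * ‖∫ s in (x - t)..(x + t), (b s - mn b x u)‖
      ≤ (2 * t)⁻¹ * (2 * (2 * t) * C) := by gcongr
    _ = 2 * C := by field_simp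

/-- the dyadic radii -/
noncomputable def T (δ : ℝ) (j : ℕ) : ℝ := min (2 ^ j * δ) Real.pi

lemma T_pos {δ : ℝ} (hδ : 0 < δ) (j : ℕ) : 0 < T δ j := lt_min (by positivity) Real.pi_pos

lemma T_le_pi (δ : ℝ) (j : ℕ) : T δ j ≤ Real.pi := min_le_right _ _

lemma T_le (δ : ℝ) (j : ℕ) : T δ j ≤ 2 ^ j * δ := min_le_left _ _

lemma T_zero {δ : ℝ} (hδ1 : δ ≤ 1) : T δ 0 = δ := by
  unfold T
  rw [pow_zero, one_mul, min_eq_left]
  linarith [Real.pi_gt_three]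

lemma T_mono {δ : ℝ} (hδ : 0 < δ) (j : ℕ) : T δ j ≤ T δ (j + 1) := by
  unfold T
  refine min_le_min ?_ le_rfl
  rw [pow_succ]
  have : 0 < 2 ^ j * δ := by positivity
  linarith

lemma T_succ_le {δ : ℝ} (j : ℕ) : T δ (j + 1) ≤ 2 * T δ j := by
  unfold T
  rcases le_total (2 ^ j * δ) Real.pi with h | h
  · rw [min_eq_left h]
    refine (min_le_left _ _).trans (le_of_eq ?_)
    rw [pow_succ]; ring
  · rw [min_eq_right h]
    refine (min_le_right _ _).trans ?_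
    linarith [Real.pi_pos]

lemma chain {b : ℝ → ℂ} {C : ℝ} (hb : ∀ a₁ a₂, IntervalIntegrable b volume a₁ a₂) (hC0 : 0 ≤ C)
    (hO : ∀ x t : ℝ, 0 < t → t ≤ Real.pi →
      ∫ s in (x - t)..(x + t), ‖b s - mn b x t‖ ≤ 2 * t * C)
    {x δ : ℝ} (hδ : 0 < δ) (hδ1 : δ ≤ 1) (j : ℕ) :
    ‖mn b x (T δ j) - mn b x δ‖ ≤ 2 * j * C := by
  induction j with
  | zero => rw [T_zero hδ1]; simp
  | succ j ih =>
    have h := mn_sub hb hC0 hO (x := x) (T_pos hδ j) (T_mono hδ j) (T_succ_le j)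
      (T_le_pi δ (j + 1))
    have h2 : ‖mn b x (T δ (j + 1)) - mn b x δ‖
        ≤ ‖mn b x (T δ (j + 1)) - mn b x (T δ j)‖ + ‖mn b x (T δ j) - mn b x δ‖ :=
      norm_sub_le_norm_sub_add_norm_sub _ _ _
    rw [norm_sub_rev] at h
    push_cast
    linarith

lemma l1 {b : ℝ → ℂ} {C : ℝ} (hb : ∀ a₁ a₂, IntervalIntegrable b volume a₁ a₂) (hC0 : 0 ≤ C)
    (hO : ∀ x t : ℝ, 0 < t → t ≤ Real.pi →
      ∫ s in (x - t)..(x + t), ‖b s - mn b x t‖ ≤ 2 * t * C)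
    {x δ : ℝ} (hδ : 0 < δ) (hδ1 : δ ≤ 1) (j : ℕ) :
    ∫ s in (x - T δ j)..(x + T δ j), ‖b s - mn b x δ‖ ≤ 2 * (2 ^ j * δ) * ((1 + 2 * j) * C) := by
  have hT := T_pos hδ j
  have h1 : ∫ s in (x - T δ j)..(x + T δ j), ‖b s - mn b x δ‖
      ≤ ∫ s in (x - T δ j)..(x + T δ j), (‖b s - mn b x (T δ j)‖ + 2 * j * C) := by
    refine intervalIntegral.integral_mono_on (by linarith) (hint hb _ _ _)
      ((hint hb _ _ _).add intervalIntegrable_const) (fun s _ => ?_)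
    have := chain hb hC0 hO (x := x) hδ hδ1 j
    have h2 : ‖b s - mn b x δ‖
        ≤ ‖b s - mn b x (T δ j)‖ + ‖mn b x (T δ j) - mn b x δ‖ :=
      norm_sub_le_norm_sub_add_norm_sub _ _ _
    linarith
  rw [intervalIntegral.integral_add (hint hb _ _ _) intervalIntegrable_const,
    intervalIntegral.integral_const, smul_eq_mul] at h1
  have h3 := hO x (T δ j) hT (T_le_pi δ j)
  have h4 : T δ j * ((1 + 2 * j) * C) ≤ 2 ^ j * δ * ((1 + 2 * j) * C) := by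
    have := T_le δ j
    gcongr
  nlinarith

lemma split3 {f : ℝ → ℝ} (hf : ∀ a₁ a₂, IntervalIntegrable f volume a₁ a₂) (a b c d : ℝ) :
    ∫ s in a..d, f s = (∫ s in a..b, f s) + (∫ s in b..c, f s) + ∫ s in c..d, f s := by
  rw [intervalIntegral.integral_add_adjacent_intervals (hf _ _) (hf _ _),
    intervalIntegral.integral_add_adjacent_intervals (hf _ _) (hf _ _)]

lemma outer {f g : ℝ → ℝ} (hf : ∀ a₁ a₂, IntervalIntegrable f volume a₁ a₂)
    (hg : ∀ a₁ a₂, IntervalIntegrable g volume a₁ a₂) (hg0 : ∀ s, 0 ≤ g s) {x t u : ℝ}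
    (ht : 0 < t) (htu : t ≤ u) (h : ∀ s, t ≤ |s - x| → f s ≤ g s) :
    ∫ s in (x - u)..(x + u), f s ≤ (∫ s in (x - t)..(x + t), f s) + ∫ s in (x - u)..(x + u), g s := by
  rw [split3 hf (x - u) (x - t) (x + t) (x + u), split3 hg (x - u) (x - t) (x + t) (x + u)]
  have h1 : ∫ s in (x - u)..(x - t), f s ≤ ∫ s in (x - u)..(x - t), g s := by
    refine intervalIntegral.integral_mono_on (by linarith) (hf _ _) (hg _ _) (fun s hs => h s ?_)
    rw [abs_sub_comm]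
    refine le_trans ?_ (le_abs_self _)
    linarith [hs.2]
  have h2 : ∫ s in (x + t)..(x + u), f s ≤ ∫ s in (x + t)..(x + u), g s := by
    refine intervalIntegral.integral_mono_on (by linarith) (hf _ _) (hg _ _) (fun s hs => h s ?_)
    refine le_trans ?_ (le_abs_self _)
    linarith [hs.1]
  have h3 : 0 ≤ ∫ s in (x - t)..(x + t), g s :=
    intervalIntegral.integral_nonneg (by linarith) (fun s _ => hg0 s)
  linarith

lemma main {b : ℝ → ℂ} {C : ℝ} (hb : ∀ a₁ a₂, IntervalIntegrable b volume a₁ a₂) (hC0 : 0 ≤ C)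
    (hO : ∀ x t : ℝ, 0 < t → t ≤ Real.pi →
      ∫ s in (x - t)..(x + t), ‖b s - mn b x t‖ ≤ 2 * t * C)
    {x δ : ℝ} (hδ : 0 < δ) (hδ1 : δ ≤ 1) (j : ℕ) :
    ∫ s in (x - T δ j)..(x + T δ j), ‖b s - mn b x δ‖ / ((s - x) ^ 2 + δ ^ 2)
      ≤ C / δ * (42 - (16 * j + 40) / 2 ^ j) := by
  induction j with
  | zero =>
    have h0 := l1 hb hC0 hO (x := x) hδ hδ1 0
    have hT := T_pos hδ 0
    have h1 : ∫ s in (x - T δ 0)..(x + T δ 0), ‖b s - mn b x δ‖ / ((s - x) ^ 2 + δ ^ 2)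
        ≤ ∫ s in (x - T δ 0)..(x + T δ 0), ‖b s - mn b x δ‖ * (δ ^ 2)⁻¹ := by
      refine intervalIntegral.integral_mono_on (by linarith) (hintw hb _ _ _ hδ _ _)
        ((hint hb _ _ _).mul_const _) (fun s _ => ?_)
      rw [div_eq_mul_inv]
      gcongr
      nlinarith [sq_nonneg (s - x)]
    rw [intervalIntegral.integral_mul_const] at h1
    have h2 : (∫ s in (x - T δ 0)..(x + T δ 0), ‖b s - mn b x δ‖) * (δ ^ 2)⁻¹
        ≤ (2 * (2 ^ 0 * δ) * ((1 + 2 * (0 : ℕ)) * C)) * (δ ^ 2)⁻¹ := by gcongr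
    have h3 : (2 * (2 ^ 0 * δ) * ((1 + 2 * ((0 : ℕ) : ℝ)) * C)) * (δ ^ 2)⁻¹
        = C / δ * (42 - (16 * ((0 : ℕ) : ℝ) + 40) / 2 ^ 0) := by
      field_simp
      push_cast
      ring
    linarith
  | succ j ih =>
    rcases le_total (2 ^ j * δ) Real.pi with hle | hge
    · have hT : T δ j = 2 ^ j * δ := min_eq_left hle
      have h1 := l1 hb hC0 hO (x := x) hδ hδ1 (j + 1)
      have hpos : (0 : ℝ) < 2 ^ j * δ := by positivity
      have h2 := outer (f := fun s => ‖b s - mn b x δ‖ / ((s - x) ^ 2 + δ ^ 2))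
        (g := fun s => ‖b s - mn b x δ‖ * ((2 ^ j * δ) ^ 2)⁻¹)
        (fun a₁ a₂ => hintw hb _ x δ hδ a₁ a₂)
        (fun a₁ a₂ => (hint hb _ a₁ a₂).mul_const _) (fun s => by positivity) (x := x)
        (T_pos hδ j) (T_mono hδ j) (fun s hs => by
          rw [hT] at hs
          have h5 : (2 ^ j * δ) ^ 2 ≤ (s - x) ^ 2 := by
            rw [← sq_abs (s - x)]
            exact pow_le_pow_left₀ hpos.le hs 2
          show ‖b s - mn b x δ‖ / ((s - x) ^ 2 + δ ^ 2) ≤ ‖b s - mn b x δ‖ * ((2 ^ j * δ) ^ 2)⁻¹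
          rw [div_eq_mul_inv]
          gcongr
          nlinarith [sq_nonneg δ])
      have h3 : ∫ s in (x - T δ (j + 1))..(x + T δ (j + 1)),
          ‖b s - mn b x δ‖ * ((2 ^ j * δ) ^ 2)⁻¹
          ≤ (2 * (2 ^ (j + 1) * δ) * ((1 + 2 * ((j + 1 : ℕ) : ℝ)) * C)) * ((2 ^ j * δ) ^ 2)⁻¹ := by
        rw [intervalIntegral.integral_mul_const]
        gcongr
      have h4 : (2 * (2 ^ (j + 1) * δ) * ((1 + 2 * ((j + 1 : ℕ) : ℝ)) * C)) * ((2 ^ j * δ) ^ 2)⁻¹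
          + C / δ * (42 - (16 * (j : ℝ) + 40) / 2 ^ j)
          = C / δ * (42 - (16 * ((j + 1 : ℕ) : ℝ) + 40) / 2 ^ (j + 1)) := by
        have h2j : (2 : ℝ) ^ j ≠ 0 := by positivity
        rw [pow_succ]
        field_simp
        push_cast
        ring
      have h2' : ∫ s in (x - T δ (j + 1))..(x + T δ (j + 1)),
          ‖b s - mn b x δ‖ / ((s - x) ^ 2 + δ ^ 2)
          ≤ (∫ s in (x - T δ j)..(x + T δ j), ‖b s - mn b x δ‖ / ((s - x) ^ 2 + δ ^ 2))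
            + ∫ s in (x - T δ (j + 1))..(x + T δ (j + 1)),
              ‖b s - mn b x δ‖ * ((2 ^ j * δ) ^ 2)⁻¹ := h2
      linarith
    · have hT : T δ j = Real.pi := min_eq_right hge
      have hT' : T δ (j + 1) = Real.pi := by
        refine le_antisymm (T_le_pi _ _) ?_
        rw [← hT]
        exact T_mono hδ j
      rw [hT', ← hT]
      refine ih.trans ?_
      have h2j : (0 : ℝ) < 2 ^ j := by positivity
      have : (16 * ((j + 1 : ℕ) : ℝ) + 40) / 2 ^ (j + 1) ≤ (16 * (j : ℝ) + 40) / 2 ^ j := by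
        rw [pow_succ, div_le_div_iff₀ (by positivity) h2j]
        push_cast
        have : (0 : ℝ) ≤ j := Nat.cast_nonneg j
        nlinarith
      gcongr

end Dyad

open Dyad

theorem dyad : S_DYAD := by
  intro b hbm hbp hb2 hbmo
  obtain ⟨C', hC'⟩ := hbmo
  have hb0 : IntervalIntegrable b volume 0 (2 * Real.pi) := by
    have h1 : IntervalIntegrable (fun θ => ‖b θ‖ ^ 2 + 1) volume 0 (2 * Real.pi) :=
      hb2.add intervalIntegrable_const
    refine h1.mono_fun hbm.aestronglyMeasurable (ae_of_all _ (fun θ => ?_))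
    show ‖b θ‖ ≤ ‖‖b θ‖ ^ 2 + 1‖
    have h0 : (0 : ℝ) ≤ ‖b θ‖ ^ 2 + 1 := by positivity
    rw [Real.norm_of_nonneg h0]
    nlinarith [sq_nonneg (‖b θ‖ - 1), norm_nonneg (b θ)]
  have hb : ∀ a₁ a₂, IntervalIntegrable b volume a₁ a₂ := fun a₁ a₂ =>
    hbp.intervalIntegrable₀ (by positivity) hb0 a₁ a₂
  set C : ℝ := max C' 0 with hCdef
  have hC0 : 0 ≤ C := le_max_right _ _
  have hO : ∀ x t : ℝ, 0 < t → t ≤ Real.pi →
      ∫ s in (x - t)..(x + t), ‖b s - mn b x t‖ ≤ 2 * t * C := fun x t ht htp =>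
    (osc hC' x t ht htp).trans (by
      have : C' ≤ C := le_max_left _ _
      gcongr)
  refine ⟨42 * C, fun θ₀ δ hδ hδ1 => ⟨mn b θ₀ δ, ?_⟩⟩
  obtain ⟨N, hN⟩ : ∃ N : ℕ, Real.pi / δ < 2 ^ N := pow_unbounded_of_one_lt _ (by norm_num)
  have hT : T δ N = Real.pi := by
    refine min_eq_right ?_
    rw [div_lt_iff₀ hδ] at hN
    exact hN.le
  have h := main hb hC0 hO (x := θ₀) hδ hδ1 N
  rw [hT] at h
  refine h.trans ?_
  have h2 : (0 : ℝ) ≤ (16 * N + 40) / 2 ^ N := by positivity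
  have h3 : 0 ≤ C / δ := by positivity
  calc C / δ * (42 - (16 * N + 40) / 2 ^ N) ≤ C / δ * 42 := by
        gcongr
        linarith
    _ = 42 * C / δ := by ring

end Pool.Agent.H928.BX
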