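import Pool.Agent.H928.BX.Stm

set_option autoImplicit false

open MeasureTheory Set Filter Topology Complex Metric
open scoped ComplexConjugate

namespace Pool.Agent.H928.BX

namespace EmptyAux

lemma U_add_real (s : ℝ) (q : ℂ) (y : ℝ) :
    U s (q + y) = exp (((2 * s - 1) * y : ℝ)) * U s q := by
  unfold U
  rw [← Complex.exp_add]
  congr 1
  push_cast
  rw [map_add, Complex.conj_ofReal]
  ring

lemma U_add_I (s : ℝ) (q : ℂ) (β : ℝ) : U s (q + β * I) = exp (β * I) * U s q := by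
  unfold U
  rw [← Complex.exp_add]
  congr 1
  rw [map_add, map_mul, Complex.conj_ofReal, Complex.conj_I]
  ring

lemma U_ne (s : ℝ) (q : ℂ) : U s q ≠ 0 := Complex.exp_ne_zero _

lemma norm_e1 (x : ℝ) : ‖exp ((x : ℂ) * I) - 1‖ ≤ |x| := by
  have := Real.norm_exp_I_mul_ofReal_sub_one_le (x := x)
  rwa [mul_comm, Real.norm_eq_abs] at this

lemma norm_e (x : ℝ) : ‖exp ((x : ℂ) * I)‖ = 1 := Complex.norm_exp_ofReal_mul_I x

/-- the flow hypotheses -/
structure Inv (s : ℝ) (L : Set (ℂ × ℂ)) : Prop where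
  lt : ∀ x ∈ L, ‖x.1‖ < 1
  R : ∀ x ∈ L, ∀ y : ℝ, (∀ t ∈ Icc (0 : ℝ) 1,
      ‖x.1 + U s x.2 * ((s / (2 * s - 1) : ℝ) * (exp (((2 * s - 1) * y * t : ℝ)) - 1))‖ < 1) →
    (x.1 + U s x.2 * ((s / (2 * s - 1) : ℝ) * (exp (((2 * s - 1) * y : ℝ)) - 1)), x.2 + y) ∈ L
  T : ∀ x ∈ L, ∀ β : ℝ, (∀ t ∈ Icc (0 : ℝ) 1,
      ‖x.1 + U s x.2 * (s * (exp ((β * t : ℝ) * I) - 1))‖ < 1) →
    (x.1 + U s x.2 * (s * (exp ((β : ℝ) * I) - 1)), x.2 + β * I) ∈ L

variable {s : ℝ} {L : Set (ℂ × ℂ)}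

/-- radial move -/
lemma moveR (hs : 1 / 2 < s) (h : Inv s L) {κ q : ℂ} (hx : (κ, q) ∈ L) {y : ℝ} {l : ℝ}
    (hl : l = Real.exp ((2 * s - 1) * y))
    (he : ‖κ + U s q * ((s / (2 * s - 1) : ℝ) * ((l : ℂ) - 1))‖ < 1) :
    (κ + U s q * ((s / (2 * s - 1) : ℝ) * ((l : ℂ) - 1)), q + y) ∈ L := by
  have ha : 0 < 2 * s - 1 := by linarith
  have hκ : ‖κ‖ < 1 := h.lt _ hx
  have hcast : exp (((2 * s - 1) * y : ℝ)) = (l : ℂ) := by rw [hl, Complex.ofReal_exp]
  have key := h.R (κ, q) hx y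
  simp only at key
  rw [hcast] at key
  apply key
  intro t ht
  have e1 : exp (((2 * s - 1) * y * t : ℝ)) = ((Real.exp ((2 * s - 1) * y * t) : ℝ) : ℂ) := by
    rw [Complex.ofReal_exp]
  rw [e1]
  set m : ℝ := Real.exp ((2 * s - 1) * y * t) with hm
  -- m - 1 = θ (l - 1) with θ ∈ [0,1]
  have hθ : ∃ θ : ℝ, 0 ≤ θ ∧ θ ≤ 1 ∧ m - 1 = θ * (l - 1) := by
    rcases eq_or_ne l 1 with h1 | h1
    · refine ⟨0, le_rfl, zero_le_one, ?_⟩
      have : (2 * s - 1) * y = 0 := Real.exp_injective (by rw [← hl, h1, Real.exp_zero])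
      rw [hm, this, zero_mul, Real.exp_zero]
      ring
    · refine ⟨(m - 1) / (l - 1), ?_, ?_, ?_⟩
      · rcases le_or_gt 0 ((2 * s - 1) * y) with h2 | h2
        · have : 1 ≤ m := Real.one_le_exp (mul_nonneg h2 ht.1)
          have h3 : 1 ≤ l := by rw [hl]; exact Real.one_le_exp h2
          exact div_nonneg (by linarith) (by linarith)
        · have : m ≤ 1 := by
            rw [hm, Real.exp_le_one_iff]
            exact mul_nonpos_of_nonpos_of_nonneg h2.le ht.1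
          have h3 : l ≤ 1 := by rw [hl, Real.exp_le_one_iff]; exact h2.le
          exact div_nonneg_of_nonpos (by linarith) (by linarith)
      · rcases le_or_gt 0 ((2 * s - 1) * y) with h2 | h2
        · have h3 : 1 ≤ l := by rw [hl]; exact Real.one_le_exp h2
          have h4 : 0 < l - 1 := lt_of_le_of_ne (by linarith) (fun h => h1 (by linarith))
          rw [div_le_one h4]
          have : m ≤ l := by
            rw [hm, hl]
            apply Real.exp_le_exp.mpr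
            nlinarith [ht.2]
          linarith
        · have h3 : l < 1 := by rw [hl, Real.exp_lt_one_iff]; exact h2
          rw [div_le_one_of_neg (by linarith)]
          have : l ≤ m := by
            rw [hm, hl]
            apply Real.exp_le_exp.mpr
            nlinarith [ht.2]
          linarith
      · have : l - 1 ≠ 0 := sub_ne_zero.mpr h1
        field_simp
  obtain ⟨θ, h0, h1, h2⟩ := hθ
  have h3 : (m : ℂ) - 1 = θ * ((l : ℂ) - 1) := by exact_mod_cast h2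
  rw [h3]
  have h4 : κ + U s q * ((s / (2 * s - 1) : ℝ) * (θ * ((l : ℂ) - 1))) =
      (1 - θ : ℝ) • κ + (θ : ℝ) • (κ + U s q * ((s / (2 * s - 1) : ℝ) * ((l : ℂ) - 1))) := by
    simp only [Complex.real_smul]
    push_cast
    ring
  rw [h4]
  have hconv := convex_ball (0 : ℂ) 1
  have := hconv (mem_ball_zero_iff.mpr hκ) (mem_ball_zero_iff.mpr he) (by linarith : 0 ≤ 1 - θ) h0
    (by ring)
  exact mem_ball_zero_iff.mp this

/-- tangential move -/
lemma moveT (hs : 0 < s) (h : Inv s L) {κ q : ℂ} (hx : (κ, q) ∈ L) {β : ℝ}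
    (he : ‖κ‖ + s * ‖U s q‖ * |β| < 1) :
    (κ + U s q * (s * (exp ((β : ℂ) * I) - 1)), q + β * I) ∈ L := by
  apply h.T (κ, q) hx β
  intro t ht
  have h1 : ‖U s q * (s * (exp ((β * t : ℝ) * I) - 1))‖ ≤ s * ‖U s q‖ * |β| := by
    rw [norm_mul, norm_mul, Complex.norm_real, Real.norm_of_nonneg hs.le]
    have h2 := norm_e1 (β * t)
    have h3 : |β * t| ≤ |β| := by
      rw [abs_mul, abs_of_nonneg ht.1]
      exact mul_le_of_le_one_right (abs_nonneg _) ht.2
    calc ‖U s q‖ * (s * ‖exp ((β * t : ℝ) * I) - 1‖) ≤ ‖U s q‖ * (s * |β|) := by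
          gcongr
          exact h2.trans h3
      _ = s * ‖U s q‖ * |β| := by ring
  calc ‖κ + U s q * (s * (exp ((β * t : ℝ) * I) - 1))‖
      ≤ ‖κ‖ + ‖U s q * (s * (exp ((β * t : ℝ) * I) - 1))‖ := norm_add_le _ _
    _ < 1 := by linarith

/-- one loop -/
lemma loop (hs : 1 / 2 < s) (h : Inv s L) {κ q : ℂ} (hx : (κ, q) ∈ L) {y β l : ℝ}
    (hl : l = Real.exp ((2 * s - 1) * y)) (hy : 0 ≤ y)
    (he : ‖κ‖ + s / (2 * s - 1) * (l - 1) * ‖U s q‖ +
      (s / (2 * s - 1) * (l - 1) + s * l + s) * ‖U s q‖ * |β| < 1) :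
    (κ - ((s / (2 * s - 1) - s : ℝ) * ((l : ℂ) - 1)) * (exp ((β : ℂ) * I) - 1) * U s q, q) ∈ L := by
  have ha : 0 < 2 * s - 1 := by linarith
  have hs0 : 0 < s := by linarith
  set b : ℝ := s / (2 * s - 1) with hb
  have hb0 : 0 < b := div_pos hs0 ha
  set V : ℝ := ‖U s q‖ with hV
  have hV0 : 0 ≤ V := norm_nonneg _
  have hl1 : 1 ≤ l := by rw [hl]; exact Real.one_le_exp (mul_nonneg ha.le hy)
  have hl0 : 0 < l := by linarith
  have hcast : exp (((2 * s - 1) * y : ℝ)) = (l : ℂ) := by rw [hl, Complex.ofReal_exp]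
  have hβ0 := abs_nonneg β
  have p1 : 0 ≤ b * (l - 1) * V := by
    have : 0 ≤ l - 1 := by linarith
    positivity
  have p2 : 0 ≤ b * (l - 1) * V * |β| := mul_nonneg p1 hβ0
  have p3 : 0 ≤ s * l * V * |β| := by positivity
  have p4 : 0 ≤ s * V * |β| := by positivity
  have he' : ‖κ‖ + b * (l - 1) * V + b * (l - 1) * V * |β| + s * l * V * |β| + s * V * |β| < 1 := by
    linarith [he]
  -- R
  have n1 : ‖U s q * ((b : ℂ) * ((l : ℂ) - 1))‖ = b * (l - 1) * V := by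
    rw [norm_mul, norm_mul, Complex.norm_real, Real.norm_of_nonneg hb0.le]
    have : ((l : ℂ) - 1) = ((l - 1 : ℝ) : ℂ) := by push_cast; ring
    rw [this, Complex.norm_real, Real.norm_of_nonneg (by linarith)]
    ring
  have m1 := moveR hs h hx (y := y) hl (by
    calc ‖κ + U s q * ((b : ℂ) * ((l : ℂ) - 1))‖ ≤ ‖κ‖ + ‖U s q * ((b : ℂ) * ((l : ℂ) - 1))‖ :=
          norm_add_le _ _
      _ < 1 := by rw [n1]; linarith)
  rw [← hb] at m1
  have k1 : ‖κ + U s q * ((b : ℂ) * ((l : ℂ) - 1))‖ ≤ ‖κ‖ + b * (l - 1) * V :=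
    (norm_add_le _ _).trans (by rw [n1])
  -- T
  have u1 : U s (q + y) = l * U s q := by rw [U_add_real, hcast]
  have v1 : ‖U s (q + y)‖ = l * V := by
    rw [u1, norm_mul, Complex.norm_real, Real.norm_of_nonneg hl0.le]
  have m2 := moveT hs0 h m1 (β := β) (by rw [v1]; nlinarith [k1])
  -- R back
  have u2 : U s (q + y + β * I) = exp (β * I) * (l * U s q) := by rw [U_add_I, u1]
  have hl' : l⁻¹ = Real.exp ((2 * s - 1) * (-y)) := by
    rw [hl, ← Real.exp_neg]; congr 1; ring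
  have hlc : (l : ℂ) ≠ 0 := by exact_mod_cast hl0.ne'
  set E : ℂ := exp ((β : ℂ) * I) with hE
  have nE : ‖E‖ = 1 := norm_e β
  have nE1 : ‖E - 1‖ ≤ |β| := norm_e1 β
  have e3 : κ + U s q * ((b : ℂ) * ((l : ℂ) - 1)) + U s (q + y) * (s * (E - 1)) +
      U s (q + y + β * I) * ((b : ℂ) * (((l⁻¹ : ℝ) : ℂ) - 1)) =
      κ + (b * ((l : ℂ) - 1) * (1 - E) + s * l * (E - 1)) * U s q := by
    rw [u2, u1]
    push_cast
    field_simp
    ring
  have n3 : ‖κ + (b * ((l : ℂ) - 1) * (1 - E) + s * l * (E - 1)) * U s q‖ ≤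
      ‖κ‖ + (b * (l - 1) * |β| + s * l * |β|) * V := by
    refine (norm_add_le _ _).trans ?_
    rw [norm_mul]
    have : ‖b * ((l : ℂ) - 1) * (1 - E) + s * l * (E - 1)‖ ≤ b * (l - 1) * |β| + s * l * |β| := by
      refine (norm_add_le _ _).trans ?_
      have c1 : ((l : ℂ) - 1) = ((l - 1 : ℝ) : ℂ) := by push_cast; ring
      rw [norm_mul, norm_mul, norm_mul, norm_mul, c1, Complex.norm_real, Complex.norm_real,
        Complex.norm_real, Complex.norm_real, Real.norm_of_nonneg hb0.le,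
        Real.norm_of_nonneg hs0.le, Real.norm_of_nonneg hl0.le,
        Real.norm_of_nonneg (by linarith : 0 ≤ l - 1), norm_sub_rev]
      have : 0 ≤ l - 1 := by linarith
      gcongr
    gcongr
  have m3 := moveR hs h m2 (y := -y) hl' (by
    rw [← hb, e3]
    refine lt_of_le_of_lt n3 ?_
    nlinarith)
  rw [← hb, e3] at m3
  -- T back
  have q3 : q + y + β * I + ((-y : ℝ) : ℂ) = q + β * I := by push_cast; ring
  rw [q3] at m3
  have u3 : U s (q + β * I) = E * U s q := by rw [U_add_I]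
  have v3 : ‖U s (q + β * I)‖ = V := by rw [u3, norm_mul, nE, one_mul]
  have m4 := moveT hs0 h m3 (β := -β) (by
    rw [v3, abs_neg]
    nlinarith [n3])
  have q4 : q + β * I + ((-β : ℝ) : ℂ) * I = q := by push_cast; ring
  rw [q4] at m4
  have hE' : exp (((-β : ℝ) : ℂ) * I) * E = 1 := by
    rw [hE, ← Complex.exp_add]
    have : ((-β : ℝ) : ℂ) * I + β * I = 0 := by push_cast; ring
    rw [this, Complex.exp_zero]
  have e4 : κ + (b * ((l : ℂ) - 1) * (1 - E) + s * l * (E - 1)) * U s q +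
      U s (q + β * I) * (s * (exp (((-β : ℝ) : ℂ) * I) - 1)) =
      κ - ((b - s : ℝ) * ((l : ℂ) - 1)) * (E - 1) * U s q := by
    rw [u3]
    have : E * U s q * (s * (exp (((-β : ℝ) : ℂ) * I) - 1)) =
        s * U s q * (exp (((-β : ℝ) : ℂ) * I) * E - E) := by ring
    rw [this, hE']
    push_cast
    ring
  rw [e4] at m4
  exact m4

/-- small rotation at fixed `κ` -/
lemma rot (hs : 1 / 2 < s) (hs1 : s < 1) (h : Inv s L) {κ q : ℂ} (hx : (κ, q) ∈ L) {β : ℝ}
    (hβ : |β| ≤ 1) (hβ2 : 16 * s * ‖U s q‖ * |β| ≤ 1 - ‖κ‖) : (κ, q + β * I) ∈ L := by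
  have ha : 0 < 2 * s - 1 := by linarith
  have hs0 : 0 < s := by linarith
  have hκ : ‖κ‖ < 1 := h.lt _ hx
  set b : ℝ := s / (2 * s - 1) with hb
  have hb0 : 0 < b := div_pos hs0 ha
  set V : ℝ := ‖U s q‖ with hV
  have hV0 : 0 < V := norm_pos_iff.mpr (U_ne s q)
  have hbs : 0 < b - s := by
    rw [hb, sub_pos, lt_div_iff₀ ha]
    nlinarith
  -- choose N
  obtain ⟨N, hN⟩ := exists_nat_gt (s / (b - s) * (1 + 4 * b * V / (1 - ‖κ‖)))
  have hg : 0 < 1 - ‖κ‖ := by linarith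
  have hNpos : (0 : ℝ) < N := lt_of_le_of_lt (by positivity) hN
  have hN0 : (N : ℝ) ≠ 0 := hNpos.ne'
  set r : ℝ := s / (b - s) / N with hr
  have hr0 : 0 < r := by positivity
  have hr1 : r ≤ 1 := by
    rw [hr, div_le_one hNpos]
    have : s / (b - s) * 1 ≤ s / (b - s) * (1 + 4 * b * V / (1 - ‖κ‖)) := by
      apply mul_le_mul_of_nonneg_left _ (by positivity)
      have : 0 ≤ 4 * b * V / (1 - ‖κ‖) := by positivity
      linarith
    linarith
  have hr2 : b * r * V ≤ (1 - ‖κ‖) / 4 := by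
    have h1 : s / (b - s) * (4 * b * V / (1 - ‖κ‖)) ≤ N := by
      have : s / (b - s) * (4 * b * V / (1 - ‖κ‖)) ≤ s / (b - s) * (1 + 4 * b * V / (1 - ‖κ‖)) := by
        apply mul_le_mul_of_nonneg_left _ (by positivity)
        linarith
      linarith
    have h2 : b * r * V = (s / (b - s) * (4 * b * V / (1 - ‖κ‖))) / N * ((1 - ‖κ‖) / 4) := by
      rw [hr]
      field_simp
    rw [h2]
    have h3 : (s / (b - s) * (4 * b * V / (1 - ‖κ‖))) / N ≤ 1 := by
      rw [div_le_one hNpos]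
      exact h1
    nlinarith
  have hNr : N * ((b - s) * r) = s := by
    rw [hr]
    field_simp
  set y : ℝ := Real.log (1 + r) / (2 * s - 1) with hy
  have hy0 : 0 ≤ y := div_nonneg (Real.log_nonneg (by linarith)) ha.le
  have hl : 1 + r = Real.exp ((2 * s - 1) * y) := by
    rw [hy, mul_div_cancel₀ _ ha.ne', Real.exp_log (by linarith)]
  set E : ℂ := exp ((β : ℂ) * I) with hE
  have nE1 : ‖E - 1‖ ≤ |β| := norm_e1 β
  have hβ0 := abs_nonneg β
  have hsV : 0 ≤ s * V * |β| := by positivity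
  have key : ∀ j : ℕ, j ≤ N → (κ - (j : ℂ) * (((b - s) * r : ℝ) : ℂ) * (E - 1) * U s q, q) ∈ L := by
    intro j
    induction j with
    | zero => intro _; simpa using hx
    | succ j ih =>
      intro hj
      have hjN : (j : ℝ) ≤ N := by exact_mod_cast (Nat.le_of_succ_le hj)
      have hx' := ih (Nat.le_of_succ_le hj)
      have hn : ‖κ - (j : ℂ) * (((b - s) * r : ℝ) : ℂ) * (E - 1) * U s q‖ ≤ ‖κ‖ + s * V * |β| := by
        refine (norm_sub_le _ _).trans ?_
        rw [norm_mul, norm_mul, norm_mul, Complex.norm_natCast, Complex.norm_real,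
          Real.norm_of_nonneg (by positivity)]
        have h1 : (j : ℝ) * ((b - s) * r) ≤ s :=
          (mul_le_mul_of_nonneg_right hjN (by positivity)).trans hNr.le
        have h2 : (j : ℝ) * ((b - s) * r) * ‖E - 1‖ * ‖U s q‖ ≤ s * |β| * V := by
          gcongr
        linarith
      have hloop := loop hs h hx' (y := y) (β := β) hl hy0 (by
        rw [← hb, ← hV, add_sub_cancel_left]
        have q1 : b * r * V * |β| ≤ (1 - ‖κ‖) / 4 := by
          have : b * r * V * |β| ≤ b * r * V * 1 := by gcongr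
          linarith
        have q2 : s * (1 + r) * V * |β| ≤ 2 * (s * V * |β|) := by nlinarith
        nlinarith)
      rw [← hb] at hloop
      have e : κ - (j : ℂ) * (((b - s) * r : ℝ) : ℂ) * (E - 1) * U s q -
          ((b - s : ℝ) * ((((1 + r : ℝ)) : ℂ) - 1)) * (E - 1) * U s q =
          κ - ((j + 1 : ℕ) : ℂ) * (((b - s) * r : ℝ) : ℂ) * (E - 1) * U s q := by
        push_cast
        ring
      rw [e] at hloop
      exact hloop
  have hfin := key N le_rfl
  have e1 : (N : ℂ) * (((b - s) * r : ℝ) : ℂ) = s := by exact_mod_cast hNr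
  rw [e1] at hfin
  have hn : ‖κ - s * (E - 1) * U s q‖ ≤ ‖κ‖ + s * V * |β| := by
    refine (norm_sub_le _ _).trans ?_
    rw [norm_mul, norm_mul, Complex.norm_real, Real.norm_of_nonneg hs0.le]
    have : s * ‖E - 1‖ * ‖U s q‖ ≤ s * |β| * V := by gcongr
    linarith
  have hT := moveT hs0 h hfin (β := β) (by
    rw [← hV]
    nlinarith)
  have e2 : κ - s * (E - 1) * U s q + U s q * (s * (E - 1)) = κ := by ring
  rw [e2] at hT
  exact hT

/-- rotation by any angle at fixed `κ` -/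
lemma rotAny (hs : 1 / 2 < s) (hs1 : s < 1) (h : Inv s L) {κ q : ℂ} (hx : (κ, q) ∈ L) (φ : ℝ) :
    (κ, q + φ * I) ∈ L := by
  have hκ : ‖κ‖ < 1 := h.lt _ hx
  have hs0 : 0 < s := by linarith
  set V : ℝ := ‖U s q‖ with hV
  have hV0 : 0 < V := norm_pos_iff.mpr (U_ne s q)
  have hg : 0 < 1 - ‖κ‖ := by linarith
  obtain ⟨m, hm⟩ := exists_nat_gt (|φ| + 16 * s * V * |φ| / (1 - ‖κ‖))
  have hp1 : 0 ≤ |φ| := abs_nonneg φ
  have hp2 : 0 ≤ 16 * s * V * |φ| / (1 - ‖κ‖) := by positivity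
  have hmpos : (0 : ℝ) < m := by linarith
  set β : ℝ := φ / m with hβ
  have hb1 : |β| ≤ 1 := by
    rw [hβ, abs_div, abs_of_pos hmpos, div_le_one hmpos]
    linarith
  have hb2 : 16 * s * V * |β| ≤ 1 - ‖κ‖ := by
    rw [hβ, abs_div, abs_of_pos hmpos]
    have h1 : 16 * s * V * |φ| / (1 - ‖κ‖) ≤ m := by linarith
    rw [div_le_iff₀ hg] at h1
    rw [← mul_div_assoc, div_le_iff₀ hmpos]
    linarith
  have key : ∀ j : ℕ, (κ, q + ((j * β : ℝ) : ℂ) * I) ∈ L := by
    intro j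
    induction j with
    | zero => simpa using hx
    | succ j ih =>
      have hn : ‖U s (q + ((j * β : ℝ) : ℂ) * I)‖ = V := by
        rw [U_add_I, norm_mul, norm_e, one_mul]
      have := rot hs hs1 h ih hb1 (by rw [hn]; exact hb2)
      have e : q + ((j * β : ℝ) : ℂ) * I + β * I = q + (((j + 1 : ℕ) * β : ℝ) : ℂ) * I := by
        push_cast
        ring
      rw [e] at this
      exact this
  have := key m
  have e : (m : ℝ) * β = φ := by rw [hβ]; field_simp
  rw [e] at this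
  exact this

/-- rotate to a prescribed direction -/
lemma dir (hs : 1 / 2 < s) (hs1 : s < 1) (h : Inv s L) {κ q : ℂ} (hx : (κ, q) ∈ L) {u : ℂ}
    (hu : ‖u‖ = 1) : ∃ q' : ℂ, (κ, q') ∈ L ∧ U s q' = ‖U s q‖ * u := by
  have hU := U_ne s q
  set v : ℂ := u / (U s q / ‖U s q‖) with hv
  have hV0 : (‖U s q‖ : ℂ) ≠ 0 := by exact_mod_cast (norm_ne_zero_iff.mpr hU)
  have hv1 : ‖v‖ = 1 := by
    rw [hv, norm_div, norm_div, hu, Complex.norm_real, norm_norm,
      div_self (norm_ne_zero_iff.mpr hU), div_one]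
  refine ⟨q + (arg v : ℝ) * I, rotAny hs hs1 h hx _, ?_⟩
  rw [U_add_I]
  have h1 : exp ((arg v : ℂ) * I) = v := by
    have := Complex.norm_mul_exp_arg_mul_I v
    rw [hv1] at this
    simpa using this
  rw [h1, hv]
  field_simp

/-- move `κ` by `t u`, the weight grows by `t / b` -/
lemma shift (hs : 1 / 2 < s) (hs1 : s < 1) (h : Inv s L) {κ q : ℂ} (hx : (κ, q) ∈ L) {u : ℂ}
    (hu : ‖u‖ = 1) {t : ℝ} (ht : 0 ≤ t) (he : ‖κ + t * u‖ < 1) :
    ∃ q' : ℂ, (κ + t * u, q') ∈ L ∧ ‖U s q'‖ = ‖U s q‖ + t * ((2 * s - 1) / s) := by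
  have ha : 0 < 2 * s - 1 := by linarith
  have hs0 : 0 < s := by linarith
  obtain ⟨q', hq', hU'⟩ := dir hs hs1 h hx hu
  set V : ℝ := ‖U s q‖ with hV
  have hV0 : 0 < V := norm_pos_iff.mpr (U_ne s q)
  have hnn : 0 ≤ t * ((2 * s - 1) / s) / V := by positivity
  set l : ℝ := 1 + t * ((2 * s - 1) / s) / V with hl
  set y : ℝ := Real.log l / (2 * s - 1) with hy
  have hly : l = Real.exp ((2 * s - 1) * y) := by
    rw [hy, mul_div_cancel₀ _ ha.ne', Real.exp_log (by linarith)]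
  have hVc : (V : ℂ) ≠ 0 := by exact_mod_cast hV0.ne'
  have hsc : (s : ℂ) ≠ 0 := by exact_mod_cast hs0.ne'
  have hac : (2 * (s : ℂ) - 1) ≠ 0 := by exact_mod_cast ha.ne'
  have e1 : U s q' * ((s / (2 * s - 1) : ℝ) * ((l : ℂ) - 1)) = t * u := by
    have e0 : (s / (2 * s - 1)) * (l - 1) = t / V := by
      rw [hl]
      have h1 : s ≠ 0 := hs0.ne'
      have h2 : 2 * s - 1 ≠ 0 := ha.ne'
      have h3 : V ≠ 0 := hV0.ne'
      have h4 : (2 * s - 1) / s * (s / (2 * s - 1)) = 1 := by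
        rw [div_mul_div_comm, mul_comm, div_self (mul_ne_zero h1 h2)]
      have h5 : (s / (2 * s - 1)) * (1 + t * ((2 * s - 1) / s) / V - 1) =
          t / V * ((2 * s - 1) / s * (s / (2 * s - 1))) := by ring
      rw [h5, h4, mul_one]
    have e0' : ((s / (2 * s - 1) : ℝ) : ℂ) * ((l : ℂ) - 1) = (t : ℂ) / V := by
      exact_mod_cast e0
    rw [hU', e0']
    field_simp
  have hm := moveR hs h hq' (y := y) hly (by rw [e1]; exact he)
  rw [e1] at hm
  refine ⟨q' + y, hm, ?_⟩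
  rw [U_add_real, ← Complex.ofReal_exp, ← hly, hU', norm_mul, norm_mul, Complex.norm_real,
    Complex.norm_real, hu, Real.norm_of_nonneg hV0.le, Real.norm_of_nonneg (by linarith), hl]
  field_simp

end EmptyAux

open EmptyAux in
theorem empty : S_EMPTY := by
  intro s hs hs1 M L h1 h2 hR hT
  have h : Inv s L := ⟨h1, hR, hT⟩
  have ha : 0 < 2 * s - 1 := by linarith
  have hs0 : 0 < s := by linarith
  -- unit vector pointing from κ to the origin
  have hun : ∀ κ : ℂ, ∃ u : ℂ, ‖u‖ = 1 ∧ κ = -(‖κ‖ : ℂ) * u := by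
    intro κ
    rcases eq_or_ne κ 0 with h0 | h0
    · exact ⟨1, by simp, by simp [h0]⟩
    · have hn : (‖κ‖ : ℂ) ≠ 0 := by exact_mod_cast norm_ne_zero_iff.mpr h0
      refine ⟨-(κ / ‖κ‖), ?_, ?_⟩
      · rw [norm_neg, norm_div, Complex.norm_real, norm_norm, div_self (norm_ne_zero_iff.mpr h0)]
      · field_simp
  -- bounded
  have hbd : ∀ x ∈ L, ‖U s x.2‖ ≤ M := by
    rintro ⟨κ, q⟩ hx
    obtain ⟨u, hu, hκ⟩ := hun κ
    have e : κ + (‖κ‖ : ℝ) * u = 0 := by
      nth_rewrite 1 [hκ]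
      ring
    obtain ⟨q', hq', hV⟩ := shift hs hs1 h hx hu (norm_nonneg κ) (by rw [e]; simp)
    rw [e] at hq'
    have := h2 _ hq' (by simp)
    simp only at this ⊢
    rw [hV] at this
    have : 0 ≤ ‖κ‖ * ((2 * s - 1) / s) := by positivity
    linarith
  -- growing
  by_contra hne
  obtain ⟨x0, hx0⟩ := Set.nonempty_iff_ne_empty.mpr hne
  have hgrow : ∀ n : ℕ, ∃ x ∈ L, (n : ℝ) * (1 / 2 * ((2 * s - 1) / s)) ≤ ‖U s x.2‖ := by
    intro n
    induction n with
    | zero => exact ⟨x0, hx0, by simp⟩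
    | succ n ih =>
      obtain ⟨⟨κ, q⟩, hx, hn⟩ := ih
      obtain ⟨u, hu, hκ⟩ := hun κ
      have hκ1 : ‖κ‖ < 1 := h1 _ hx
      have e : κ + ((1 / 2 : ℝ) : ℂ) * u = ((1 / 2 - ‖κ‖ : ℝ) : ℂ) * u := by
        nth_rewrite 1 [hκ]
        push_cast
        ring
      obtain ⟨q', hq', hV⟩ := shift hs hs1 h hx hu (t := 1 / 2) (by norm_num) (by
        rw [e, norm_mul, hu, Complex.norm_real, mul_one, Real.norm_eq_abs, abs_lt]
        constructor <;> linarith [norm_nonneg κ])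
      refine ⟨_, hq', ?_⟩
      simp only at hn ⊢
      rw [hV]
      push_cast
      linarith
  have hpos : 0 < 1 / 2 * ((2 * s - 1) / s) := by positivity
  obtain ⟨n, hn⟩ := exists_nat_gt (M / (1 / 2 * ((2 * s - 1) / s)))
  obtain ⟨x, hx, hxn⟩ := hgrow n
  have h3 := hbd x hx
  rw [div_lt_iff₀ hpos] at hn
  linarith

end Pool.Agent.H928.BX
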