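import Pool.Agent.H928.BX.Stm

/-!
# T4 (by helper357): the expansion of `exp (s (Q + ζ B))`
-/

set_option autoImplicit false

open MeasureTheory Set Filter Topology Complex Metric
open scoped ComplexConjugate

namespace Pool.Agent.H928.BX

namespace Exp

/-- the coefficient functions -/
noncomputable def fa (s : ℝ) (Q B : ℂ → ℂ) (a : ℕ) (z : ℂ) : ℂ :=
  exp (s * Q z) * ((s * B z) ^ a / (a.factorial : ℂ))

theorem fa_diff (s : ℝ) {Q B : ℂ → ℂ} (hQ : Differentiable ℂ Q) (hB : Differentiable ℂ B) (a : ℕ) :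
    Differentiable ℂ (fa s Q B a) := by
  unfold fa
  refine Differentiable.mul ?_ (Differentiable.div_const ?_ _)
  · exact (hQ.const_mul _).cexp
  · exact (hB.const_mul _).pow a

/-- the coefficients -/
noncomputable def cA (s : ℝ) (Q B : ℂ → ℂ) (i : ℕ × ℕ) : ℂ :=
  (i.1.factorial : ℂ)⁻¹ * iteratedDeriv i.1 (fa s Q B i.2) 0

theorem taylor {s : ℝ} {Q B : ℂ → ℂ} (hQ : Differentiable ℂ Q) (hB : Differentiable ℂ B) (a : ℕ)
    (z : ℂ) : HasSum (fun N : ℕ => cA s Q B (N, a) * z ^ N) (fa s Q B a z) := by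
  have h := Complex.hasSum_taylorSeries_of_entire (fa_diff s hQ hB a) 0 z
  have e : (fun N : ℕ => cA s Q B (N, a) * z ^ N) =
      fun n : ℕ => ((n.factorial : ℂ))⁻¹ • (z - 0) ^ n • iteratedDeriv n (fa s Q B a) 0 := by
    funext n
    rw [smul_eq_mul, smul_eq_mul, sub_zero, cA]
    ring
  rw [e]
  exact h

theorem exists_bound {f : ℂ → ℂ} (hf : Differentiable ℂ f) :
    ∃ C : ℝ, 0 ≤ C ∧ ∀ z ∈ sphere (0 : ℂ) 2, ‖f z‖ ≤ C := by
  obtain ⟨C, hC⟩ := (isCompact_sphere (0 : ℂ) 2).exists_bound_of_continuousOn hf.continuous.continuousOn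
  exact ⟨max C 0, le_max_right _ _, fun z hz => (hC z hz).trans (le_max_left _ _)⟩

theorem cA_bound {s : ℝ} {Q B : ℂ → ℂ} (hQ : Differentiable ℂ Q) (hB : Differentiable ℂ B) :
    ∃ E K : ℝ, 0 ≤ E ∧ 0 ≤ K ∧ ∀ i : ℕ × ℕ,
      ‖cA s Q B i‖ ≤ (1 / 2 : ℝ) ^ i.1 * (E * (K ^ i.2 / (i.2.factorial : ℝ))) := by
  obtain ⟨E, hE0, hE⟩ := exists_bound (f := fun z => exp (s * Q z)) (hQ.const_mul _).cexp
  obtain ⟨K, hK0, hK⟩ := exists_bound (f := fun z => s * B z) (hB.const_mul _)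
  refine ⟨E, K, hE0, hK0, fun i => ?_⟩
  have h1 : ∀ z ∈ sphere (0 : ℂ) 2, ‖fa s Q B i.2 z‖ ≤ E * (K ^ i.2 / (i.2.factorial : ℝ)) := by
    intro z hz
    unfold fa
    rw [norm_mul, norm_div, norm_pow, Complex.norm_natCast]
    refine mul_le_mul (hE z hz) ?_ (by positivity) hE0
    exact div_le_div_of_nonneg_right (pow_le_pow_left₀ (norm_nonneg _) (hK z hz) _)
      (Nat.cast_nonneg _)
  have h2 := Complex.norm_iteratedDeriv_le_of_forall_mem_sphere_norm_le i.1 (c := 0) (R := 2)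
    (by norm_num) (fa_diff s hQ hB i.2).diffContOnCl h1
  rw [cA, norm_mul, norm_inv, Complex.norm_natCast]
  have h3 : (0 : ℝ) < (i.1.factorial : ℝ) := by exact_mod_cast Nat.factorial_pos _
  calc (i.1.factorial : ℝ)⁻¹ * ‖iteratedDeriv i.1 (fa s Q B i.2) 0‖
      ≤ (i.1.factorial : ℝ)⁻¹ *
          ((i.1.factorial : ℝ) * (E * (K ^ i.2 / (i.2.factorial : ℝ))) / 2 ^ i.1) :=
        mul_le_mul_of_nonneg_left h2 (inv_nonneg.2 h3.le)
    _ = (1 / 2 : ℝ) ^ i.1 * (E * (K ^ i.2 / (i.2.factorial : ℝ))) := by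
        rw [one_div, inv_pow]
        field_simp

theorem cA_summable {s : ℝ} {Q B : ℂ → ℂ} (hQ : Differentiable ℂ Q) (hB : Differentiable ℂ B) :
    Summable (fun i => ‖cA s Q B i‖) := by
  obtain ⟨E, K, hE0, hK0, h⟩ := cA_bound (s := s) hQ hB
  have h1 : Summable (fun n : ℕ => (1 / 2 : ℝ) ^ n) :=
    summable_geometric_of_lt_one (by norm_num) (by norm_num)
  have h2 : Summable (fun n : ℕ => E * (K ^ n / (n.factorial : ℝ))) :=
    (Real.summable_pow_div_factorial K).mul_left E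
  exact Summable.of_nonneg_of_le (fun i => norm_nonneg _) h
    (h1.mul_of_nonneg h2 (fun n => by positivity) (fun n => by positivity))

end Exp

open Exp in
theorem expand : S_EXP := by
  intro s Q B hQ hB
  refine ⟨cA s Q B, cA_summable hQ hB, ?_, fun a z _ => taylor hQ hB a z⟩
  intro z ζ hz hζ
  have hsum : Summable (fun i : ℕ × ℕ => cA s Q B i * (z ^ i.1 * ζ ^ i.2)) := by
    refine Summable.of_norm_bounded (cA_summable (s := s) hQ hB) fun i => ?_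
    rw [norm_mul, norm_mul, norm_pow, norm_pow]
    have h1 : ‖z‖ ^ i.1 * ‖ζ‖ ^ i.2 ≤ 1 :=
      mul_le_one₀ (pow_le_one₀ (norm_nonneg _) hz) (by positivity)
        (pow_le_one₀ (norm_nonneg _) hζ)
    calc ‖cA s Q B i‖ * (‖z‖ ^ i.1 * ‖ζ‖ ^ i.2) ≤ ‖cA s Q B i‖ * 1 :=
          mul_le_mul_of_nonneg_left h1 (norm_nonneg _)
      _ = ‖cA s Q B i‖ := mul_one _
  have h1 := hsum.hasSum
  have h2 := ((Equiv.prodComm ℕ ℕ).hasSum_iff (f := fun i : ℕ × ℕ =>
    cA s Q B i * (z ^ i.1 * ζ ^ i.2))).2 h1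
  have h3 : ∀ a : ℕ, HasSum (fun N : ℕ => ((fun i : ℕ × ℕ => cA s Q B i * (z ^ i.1 * ζ ^ i.2)) ∘
      ⇑(Equiv.prodComm ℕ ℕ)) (a, N)) (fa s Q B a z * ζ ^ a) := by
    intro a
    have h4 := (taylor (s := s) hQ hB a z).mul_right (ζ ^ a)
    have e : (fun N : ℕ => cA s Q B (N, a) * z ^ N * ζ ^ a) =
        fun N : ℕ => ((fun i : ℕ × ℕ => cA s Q B i * (z ^ i.1 * ζ ^ i.2)) ∘
          ⇑(Equiv.prodComm ℕ ℕ)) (a, N) := by
      funext N
      change _ = cA s Q B (N, a) * (z ^ N * ζ ^ a)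
      ring
    rw [← e]
    exact h4
  have h5 := h2.prod_fiberwise h3
  have h6 : HasSum (fun a : ℕ => fa s Q B a z * ζ ^ a) (exp (s * (Q z + ζ * B z))) := by
    have h7 := (NormedSpace.expSeries_div_hasSum_exp ((s : ℂ) * B z * ζ)).mul_left (exp (s * Q z))
    rw [← Complex.exp_eq_exp_ℂ, ← Complex.exp_add] at h7
    have e1 : (s : ℂ) * Q z + s * B z * ζ = s * (Q z + ζ * B z) := by ring
    rw [e1] at h7
    have e2 : (fun a : ℕ => fa s Q B a z * ζ ^ a) =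
        fun a : ℕ => exp (s * Q z) * (((s : ℂ) * B z * ζ) ^ a / (a.factorial : ℂ)) := by
      funext a
      rw [fa, mul_pow _ ζ]
      ring
    rw [e2]
    exact h7
  rw [h6.unique h5]
  exact h1

end Pool.Agent.H928.BX
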