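import Pool.Agent.H928.BX.Stm

set_option autoImplicit false

open MeasureTheory Set Filter Topology Complex Metric
open scoped ComplexConjugate

namespace Pool.Agent.H928.BX

namespace Ext

instance : IsFiniteMeasure dA :=
  ⟨by unfold dA; rw [Measure.restrict_apply_univ]; exact measure_ball_lt_top⟩

theorem ae_ball : ∀ᵐ z ∂dA, z ∈ ball (0 : ℂ) 1 := ae_restrict_mem measurableSet_ball

theorem aesm {f : ℂ → ℂ} (hf : DifferentiableOn ℂ f (ball 0 1)) : AEStronglyMeasurable f dA :=
  hf.continuousOn.aestronglyMeasurable measurableSet_ball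

/-- membership in `L^p` -/
theorem memLp_iff {p : ℝ} (hp : 0 < p) {f : ℂ → ℂ} (hf : AEStronglyMeasurable f dA) :
    MemLp f (ENNReal.ofReal p) dA ↔ Integrable (fun z => ‖f z‖ ^ p) dA := by
  have h := integrable_norm_rpow_iff (p := ENNReal.ofReal p) hf
    (by simpa using hp) ENNReal.ofReal_ne_top
  rw [ENNReal.toReal_ofReal hp.le] at h
  exact h.symm

/-- the dual function -/
noncomputable def Ph (p : ℝ) (F : ℂ → ℂ) (z : ℂ) : ℂ := ((‖F z‖ ^ (p - 2) : ℝ) : ℂ) * F z

theorem norm_Ph {p : ℝ} (hp : 1 < p) (F : ℂ → ℂ) (z : ℂ) : ‖Ph p F z‖ = ‖F z‖ ^ (p - 1) := by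
  unfold Ph
  rw [norm_mul, Complex.norm_real, Real.norm_of_nonneg (Real.rpow_nonneg (norm_nonneg _) _)]
  rcases eq_or_lt_of_le (norm_nonneg (F z)) with h | h
  · rw [← h, mul_zero, Real.zero_rpow (by linarith)]
  · conv_lhs => rw [← Real.rpow_one ‖F z‖, ← Real.rpow_mul h.le, one_mul]
    rw [← Real.rpow_add h]
    congr 1
    ring

theorem norm_Ph_rpow {p : ℝ} (hp : 1 < p) (F : ℂ → ℂ) (z : ℂ) :
    ‖Ph p F z‖ ^ (p / (p - 1)) = ‖F z‖ ^ p := by
  rw [norm_Ph hp, ← Real.rpow_mul (norm_nonneg _), mul_div_cancel₀]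
  intro h
  linarith

theorem mul_conj_Ph {p : ℝ} (hp : 1 < p) (F : ℂ → ℂ) (z : ℂ) :
    F z * conj (Ph p F z) = ((‖F z‖ ^ p : ℝ) : ℂ) := by
  unfold Ph
  rw [map_mul, Complex.conj_ofReal]
  have h1 : F z * (((‖F z‖ ^ (p - 2) : ℝ) : ℂ) * conj (F z)) =
      ((‖F z‖ ^ (p - 2) : ℝ) : ℂ) * (F z * conj (F z)) := by ring
  rw [h1, Complex.mul_conj, Complex.normSq_eq_norm_sq, ← Complex.ofReal_mul]
  congr 1
  rcases eq_or_lt_of_le (norm_nonneg (F z)) with h | h
  · have hp0 : p ≠ 0 := by linarith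
    rw [← h, Real.zero_rpow hp0]
    ring
  · rw [← Real.rpow_natCast ‖F z‖ 2, ← Real.rpow_add h]
    congr 1
    push_cast
    ring

theorem aesm_Ph {p : ℝ} {F : ℂ → ℂ} (hF : AEStronglyMeasurable F dA) :
    AEStronglyMeasurable (Ph p F) dA := by
  unfold Ph
  refine AEStronglyMeasurable.mul ?_ hF
  have h1 : AEMeasurable (fun z => ‖F z‖ ^ (p - 2)) dA := hF.norm.aemeasurable.pow_const _
  exact (Complex.measurable_ofReal.comp_aemeasurable h1).aestronglyMeasurable

end Ext

open Ext in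
theorem ext (h : S_DENS) : S_EXT := by
  intro p hp F k hF hFp hne hk hkb hmom
  obtain ⟨M, hM⟩ := hkb
  have hp0 : 0 < p := by linarith
  have hpc : p.HolderConjugate (p / (p - 1)) := Real.HolderConjugate.conjExponent hp
  set q : ℝ := p / (p - 1) with hq
  have hq0 : 0 < q := hpc.symm.pos
  have hq1 : 1 < q := hpc.symm.lt
  have hFm := aesm hF
  have hkm := aesm hk
  have hPm : AEStronglyMeasurable (Ph p F) dA := aesm_Ph hFm
  have hFL : MemLp F (ENNReal.ofReal p) dA := (memLp_iff hp0 hFm).2 hFp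
  have hPL : MemLp (Ph p F) (ENNReal.ofReal q) dA := by
    rw [memLp_iff hq0 hPm]
    have : (fun z => ‖Ph p F z‖ ^ q) = fun z => ‖F z‖ ^ p := by
      funext z
      exact norm_Ph_rpow hp F z
    rw [this]
    exact hFp
  have hkL : MemLp k (ENNReal.ofReal q) dA :=
    MemLp.of_bound hkm M (ae_ball.mono fun z hz => hM z hz)
  have hvL : MemLp (fun z => Ph p F z - k z) (ENNReal.ofReal q) dA := hPL.sub hkL
  have hone : (1 : ENNReal) ≤ ENNReal.ofReal q := by
    rw [← ENNReal.ofReal_one]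
    exact ENNReal.ofReal_le_ofReal hq1.le
  have hPI : Integrable (Ph p F) dA := hPL.integrable hone
  have hkI : Integrable k dA := hkL.integrable hone
  -- conjugation
  have hconj : ∀ {g : ℂ → ℂ} {r : ENNReal}, MemLp g r dA → MemLp (fun z => conj (g z)) r dA := by
    intro g r hg
    exact (memLp_congr_norm hg.1 (continuous_conj.comp_aestronglyMeasurable hg.1)
      (ae_of_all _ fun z => (RCLike.norm_conj (g z)).symm)).1 hg
  have hconjI : ∀ {g : ℂ → ℂ}, Integrable g dA → Integrable (fun z => conj (g z)) dA := by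
    intro g hg
    rw [← memLp_one_iff_integrable] at hg ⊢
    exact hconj hg
  -- the moments
  have hzm : ∀ (m : ℕ) {g : ℂ → ℂ}, Integrable g dA → Integrable (fun z => z ^ m * conj (g z)) dA := by
    intro m g hg
    refine (hconjI hg).bdd_mul (c := 1) (by fun_prop) ?_
    refine ae_ball.mono fun z hz => ?_
    rw [norm_pow]
    exact pow_le_one₀ (norm_nonneg _) (mem_ball_zero_iff.1 hz).le
  have hv0 : ∀ m : ℕ, ∫ z, z ^ m * conj (Ph p F z - k z) ∂dA = 0 := by
    intro m
    have h1 : (fun z => z ^ m * conj (Ph p F z - k z)) =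
        fun z => z ^ m * conj (Ph p F z) - z ^ m * conj (k z) := by
      funext z
      rw [map_sub, mul_sub]
    rw [h1, integral_sub (hzm m hPI) (hzm m hkI), sub_eq_zero]
    exact hmom m
  -- the functional
  have : ENNReal.HolderTriple (ENNReal.ofReal p) (ENNReal.ofReal q) 1 := by
    have := hpc.ennrealOfReal
    exact this
  have hprod : ∀ {f g : ℂ → ℂ}, MemLp f (ENNReal.ofReal p) dA → MemLp g (ENNReal.ofReal q) dA →
      Integrable (fun z => f z * conj (g z)) dA := by
    intro f g hf hg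
    rw [← memLp_one_iff_integrable]
    exact (hconj hg).mul' hf
  have hfun : ∀ f : ℂ → ℂ, InBergman p f → functional k f = ∫ z, f z * conj (Ph p F z) ∂dA := by
    intro f hf
    have hfL : MemLp f (ENNReal.ofReal p) dA := (memLp_iff hp0 (aesm hf.1)).2 hf.2
    have h1 := h p hp f (fun z => Ph p F z - k z) hf hvL.1 ((memLp_iff hq0 hvL.1).1 hvL) hv0
    have h2 : (fun z => f z * conj (Ph p F z - k z)) =
        fun z => f z * conj (Ph p F z) - f z * conj (k z) := by
      funext z
      rw [map_sub, mul_sub]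
    rw [h2, integral_sub (hprod hfL hPL) (hprod hfL hkL), sub_eq_zero] at h1
    exact h1.symm
  -- the norm of `F`
  set J : ℝ := ∫ z, ‖F z‖ ^ p ∂dA with hJ
  have hJpos : 0 < J := by
    obtain ⟨z₀, hz₀, hFz₀⟩ := hne
    rw [hJ, integral_pos_iff_support_of_nonneg (fun z => Real.rpow_nonneg (norm_nonneg _) _) hFp]
    have hopen : IsOpen (ball (0 : ℂ) 1 ∩ F ⁻¹' {0}ᶜ) :=
      hF.continuousOn.isOpen_inter_preimage isOpen_ball isOpen_compl_singleton
    have h1 : 0 < volume (ball (0 : ℂ) 1 ∩ F ⁻¹' {0}ᶜ) :=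
      hopen.measure_pos volume ⟨z₀, hz₀, hFz₀⟩
    refine h1.trans_le ((measure_mono ?_).trans
      (Measure.le_restrict_apply (ball (0 : ℂ) 1) (Function.support fun z => ‖F z‖ ^ p)))
    rintro z ⟨hz, hFz⟩
    refine ⟨?_, hz⟩
    rw [Function.mem_support]
    have h2 : 0 < ‖F z‖ := norm_pos_iff.2 hFz
    exact (Real.rpow_pos_of_pos h2 _).ne'
  have hFB : InBergman p F := ⟨hF, hFp⟩
  have hfF : functional k F = (J : ℂ) := by
    rw [hfun F hFB, hJ, ← integral_complex_ofReal]
    refine integral_congr_ae (ae_of_all _ fun z => ?_)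
    exact mul_conj_Ph hp F z
  constructor
  · by_contra hcon
    push Not at hcon
    have h1 : functional k F = 0 := by
      unfold functional
      rw [integral_eq_zero_of_ae]
      refine ae_ball.mono fun z hz => ?_
      show F z * conj (k z) = 0
      rw [hcon z hz, map_zero, mul_zero]
    rw [hfF, Complex.ofReal_eq_zero] at h1
    exact hJpos.ne' h1
  set c : ℝ := J ^ (-(1 / p)) with hc
  have hc0 : 0 < c := Real.rpow_pos_of_pos hJpos _
  have hcp : c ^ p * J = 1 := by
    rw [hc, ← Real.rpow_mul hJpos.le, neg_mul, one_div, inv_mul_cancel₀ hp0.ne', Real.rpow_neg_one,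
      inv_mul_cancel₀ hJpos.ne']
  have hnorm : ∀ z, ‖(c : ℂ) * F z‖ ^ p = c ^ p * ‖F z‖ ^ p := by
    intro z
    rw [norm_mul, Complex.norm_real, Real.norm_of_nonneg hc0.le,
      Real.mul_rpow hc0.le (norm_nonneg _)]
  have hcB : InBergman p (fun z => (c : ℂ) * F z) := by
    refine ⟨hF.const_mul _, ?_⟩
    simp only [hnorm]
    exact hFp.const_mul _
  refine ⟨c, hc0, hcB, ?_, ?_⟩
  · unfold bergmanNorm
    simp only [hnorm]
    rw [integral_const_mul, hcp, Real.one_rpow]
  · intro f hf hf1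
    have hfL : MemLp f (ENNReal.ofReal p) dA := (memLp_iff hp0 (aesm hf.1)).2 hf.2
    have h1 : (functional k fun z => (c : ℂ) * F z).re = c * J := by
      have h2 : functional k (fun z => (c : ℂ) * F z) = (c : ℂ) * functional k F := by
        unfold functional
        rw [← integral_const_mul]
        simp only [mul_assoc]
      rw [h2, hfF, ← Complex.ofReal_mul, Complex.ofReal_re]
    have h3 : c * J = J ^ (1 / q) := by
      rw [hc]
      conv_lhs => rw [← Real.rpow_one J, ← Real.rpow_mul hJpos.le, one_mul]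
      rw [← Real.rpow_add hJpos]
      congr 1
      have := hpc.inv_add_inv_eq_one
      rw [one_div, one_div]
      linarith
    rw [h1, h3, hfun f hf]
    have h4 : (∫ z, f z * conj (Ph p F z) ∂dA).re ≤ ∫ z, ‖f z‖ * ‖Ph p F z‖ ∂dA := by
      refine (Complex.re_le_norm _).trans ((norm_integral_le_integral_norm _).trans (le_of_eq ?_))
      refine integral_congr_ae (ae_of_all _ fun z => ?_)
      show ‖f z * conj (Ph p F z)‖ = ‖f z‖ * ‖Ph p F z‖
      rw [norm_mul, RCLike.norm_conj]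
    refine h4.trans ((integral_mul_norm_le_Lp_mul_Lq hpc hfL hPL).trans (le_of_eq ?_))
    have h5 : (∫ z, ‖f z‖ ^ p ∂dA) ^ (1 / p) = 1 := hf1
    rw [h5, one_mul]
    congr 1
    rw [hJ]
    refine integral_congr_ae (ae_of_all _ fun z => ?_)
    exact norm_Ph_rpow hp F z

end Pool.Agent.H928.BX
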