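import Pool.Agent.H928.BX.Stm

set_option autoImplicit false

open MeasureTheory Set Filter Topology Complex Metric
open scoped ComplexConjugate

namespace Pool.Agent.H928.BX

namespace Fam

lemma w_nonneg (d e : ℕ) : 0 ≤ w d e := by
  unfold w
  split_ifs with h
  · have h' : (e : ℝ) ≤ d := by exact_mod_cast h
    have : (0 : ℝ) ≤ (d : ℝ) - e + 1 := by linarith
    positivity
  · exact le_refl _

lemma w_le (d e : ℕ) : w d e ≤ 1 := by
  unfold w
  split_ifs with h
  · have h' : (0 : ℝ) ≤ e := by positivity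
    rw [div_le_one (by positivity)]
    linarith
  · exact zero_le_one

lemma bd1 (c z : ℂ) (hz : ‖z‖ ≤ 1) (d e : ℕ) : ‖c * (z ^ d * conj z ^ e)‖ ≤ ‖c‖ := by
  have h1 : ‖z ^ d * conj z ^ e‖ ≤ 1 := by
    rw [norm_mul, norm_pow, norm_pow, RCLike.norm_conj]
    exact mul_le_one₀ (pow_le_one₀ (norm_nonneg _) hz) (by positivity)
      (pow_le_one₀ (norm_nonneg _) hz)
  rw [norm_mul]
  exact mul_le_of_le_one_right (norm_nonneg _) h1

lemma bd2 (c z : ℂ) (hz : ‖z‖ ≤ 1) (d e k : ℕ) : ‖c * ((w d e : ℂ) * z ^ k)‖ ≤ ‖c‖ := by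
  have h1 : ‖(w d e : ℂ) * z ^ k‖ ≤ 1 := by
    rw [norm_mul, norm_pow, Complex.norm_real, Real.norm_eq_abs, abs_of_nonneg (w_nonneg d e)]
    exact mul_le_one₀ (w_le d e) (by positivity) (pow_le_one₀ (norm_nonneg _) hz)
  rw [norm_mul]
  exact mul_le_of_le_one_right (norm_nonneg _) h1

lemma key {ι : Type} [Countable ι] (c : ι → ℂ) (hc : Summable fun i => ‖c i‖)
    (g : ι → ℂ → ℂ) (hg : ∀ i, Continuous (g i))
    (hb : ∀ i z, ‖z‖ ≤ 1 → ‖g i z‖ ≤ ‖c i‖) (m : ℕ) :
    ∫ z, z ^ m * conj (∑' i, g i z) ∂dA = ∑' i, ∫ z, z ^ m * conj (g i z) ∂dA := by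
  have hcont : ∀ i, Continuous fun z : ℂ => z ^ m * conj (g i z) := fun i =>
    (continuous_pow m).mul (Complex.continuous_conj.comp (hg i))
  have hint : ∀ i, Integrable (fun z : ℂ => z ^ m * conj (g i z)) dA := fun i =>
    ((hcont i).continuousOn.integrableOn_compact (isCompact_closedBall 0 1)).mono_set
      ball_subset_closedBall
  have hfin : volume (ball (0 : ℂ) 1) < ⊤ := measure_ball_lt_top
  have hsum : Summable fun i => ∫ z, ‖z ^ m * conj (g i z)‖ ∂dA := by
    refine Summable.of_nonneg_of_le (fun i => integral_nonneg fun z => norm_nonneg _) (fun i => ?_)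
      (hc.mul_right (volume.real (ball (0 : ℂ) 1)))
    have h1 : ‖∫ z in ball (0 : ℂ) 1, ‖z ^ m * conj (g i z)‖‖ ≤
        ‖c i‖ * volume.real (ball (0 : ℂ) 1) := by
      refine norm_setIntegral_le_of_norm_le_const hfin fun z hz => ?_
      have hz1 : ‖z‖ ≤ 1 := by
        have := mem_ball_zero_iff.1 hz
        exact this.le
      rw [norm_norm, norm_mul, norm_pow, RCLike.norm_conj]
      calc ‖z‖ ^ m * ‖g i z‖ ≤ 1 * ‖c i‖ :=
            mul_le_mul (pow_le_one₀ (norm_nonneg _) hz1) (hb i z hz1) (norm_nonneg _) zero_le_one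
        _ = ‖c i‖ := one_mul _
    exact (Real.le_norm_self _).trans h1
  have h2 := (hasSum_integral_of_summable_integral_norm hint hsum).tsum_eq
  rw [h2]
  refine integral_congr_ae (Filter.Eventually.of_forall fun z => ?_)
  show z ^ m * conj (∑' i, g i z) = ∑' i, z ^ m * conj (g i z)
  rw [tsum_mul_left, Complex.conj_tsum]

lemma term (h : S_MOM) (c : ℂ) (d e m : ℕ) :
    ∫ z, z ^ m * conj (c * (z ^ d * conj z ^ e)) ∂dA =
      ∫ z, z ^ m * conj (c * ((w d e : ℂ) * z ^ (d - e))) ∂dA := by
  have e1 : (fun z : ℂ => z ^ m * conj (c * (z ^ d * conj z ^ e))) =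
      fun z => conj c * (z ^ (m + e) * conj z ^ d) := by
    funext z
    simp only [map_mul, map_pow, Complex.conj_conj, pow_add]
    ring
  have e2 : (fun z : ℂ => z ^ m * conj (c * ((w d e : ℂ) * z ^ (d - e)))) =
      fun z => (conj c * (w d e : ℂ)) * (z ^ m * conj z ^ (d - e)) := by
    funext z
    simp only [map_mul, map_pow, Complex.conj_ofReal]
    ring
  rw [e1, e2, integral_const_mul, integral_const_mul, h, h]
  by_cases hle : e ≤ d
  · by_cases hm : m + e = d
    · have hm' : m = d - e := by omega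
      rw [if_pos hm, if_pos hm']
      have hw : w d e = ((d : ℝ) - e + 1) / ((d : ℝ) + 1) := by
        unfold w
        rw [if_pos hle]
      rw [hw]
      have hd : (d : ℝ) = m + e := by
        rw [← hm]
        push_cast
        ring
      rw [hd]
      have h1 : ((m : ℂ) + 1) ≠ 0 := by exact_mod_cast Nat.succ_ne_zero m
      have h2 : ((m : ℂ) + e + 1) ≠ 0 := by exact_mod_cast Nat.succ_ne_zero (m + e)
      push_cast
      have h3 : (m : ℂ) + e - e + 1 = m + 1 := by ring
      rw [h3]
      field_simp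
    · have hm' : ¬ m = d - e := by omega
      rw [if_neg hm, if_neg hm']
      simp
  · have hm : ¬ m + e = d := by omega
    have hw : w d e = 0 := by
      unfold w
      rw [if_neg hle]
    rw [if_neg hm, hw]
    simp

end Fam

theorem fam (h : S_MOM) : S_FAM := by
  intro ι hι c d e hc
  refine ⟨?_, ?_, ?_⟩
  · refine continuousOn_tsum (fun i => ?_) hc (fun i z hz => ?_)
    · exact (continuous_const.mul (continuous_const.mul (continuous_pow _))).continuousOn
    · exact Fam.bd2 _ _ (mem_closedBall_zero_iff.1 hz) _ _ _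
  · refine differentiableOn_tsum_of_summable_norm hc (fun i => ?_) isOpen_ball (fun i z hz => ?_)
    · exact (((differentiable_id.pow _).const_mul _).const_mul _).differentiableOn
    · exact Fam.bd2 _ _ (mem_ball_zero_iff.1 hz).le _ _ _
  · intro m
    have h1 := Fam.key c hc (fun i z => c i * (z ^ d i * conj z ^ e i))
      (fun i => continuous_const.mul
        ((continuous_pow _).mul (Complex.continuous_conj.pow _)))
      (fun i z hz => Fam.bd1 _ _ hz _ _) m
    have h2 := Fam.key c hc (fun i z => c i * ((w (d i) (e i) : ℂ) * z ^ (d i - e i)))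
      (fun i => continuous_const.mul (continuous_const.mul (continuous_pow _)))
      (fun i z hz => Fam.bd2 _ _ hz _ _ _) m
    refine h1.trans (Eq.trans ?_ h2.symm)
    exact tsum_congr fun i => Fam.term h (c i) (d i) (e i) m

end Pool.Agent.H928.BX
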