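import Pool.Agent.H928.BX.Stm

/-!
# Final assembly (MP_7d928b_an, Q1)
-/

set_option autoImplicit false

open MeasureTheory Set Filter Topology Complex Metric
open scoped ComplexConjugate

namespace Pool.Agent.H928.BX

lemma dA_univ : dA univ ≠ ⊤ := by
  unfold dA
  rw [Measure.restrict_apply_univ]
  exact measure_ball_lt_top.ne

instance : IsFiniteMeasure dA := ⟨lt_top_iff_ne_top.mpr dA_univ⟩

lemma bdd_bergman {k : ℂ → ℂ} (hk : DifferentiableOn ℂ k (ball 0 1)) {M : ℝ}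
    (hM : ∀ z ∈ ball (0 : ℂ) 1, ‖k z‖ ≤ M) {q : ℝ} (hq : 0 ≤ q) : InBergman q k := by
  refine ⟨hk, ?_⟩
  have hm : AEStronglyMeasurable (fun z => ‖k z‖ ^ q) dA := by
    apply ContinuousOn.aestronglyMeasurable _ measurableSet_ball
    exact hk.continuousOn.norm.rpow_const (fun _ _ => Or.inr hq)
  refine Integrable.mono' (g := fun _ => M ^ q) (integrable_const _) hm ?_
  unfold dA
  rw [ae_restrict_iff' measurableSet_ball]
  refine Eventually.of_forall fun z hz => ?_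
  rw [Real.norm_of_nonneg (by positivity)]
  exact Real.rpow_le_rpow (norm_nonneg _) (hM z hz) hq

lemma not_bloch_smul {F : ℂ → ℂ} (hF : ¬ InBloch F) {c : ℝ} (hc : 0 < c) :
    ¬ InBloch (fun z => (c : ℂ) * F z) := by
  intro h
  apply hF
  obtain ⟨h1, C, hC⟩ := h
  have hc' : (c : ℂ) ≠ 0 := by exact_mod_cast hc.ne'
  have hd : DifferentiableOn ℂ F (ball 0 1) := by
    have := h1.const_mul ((c : ℂ)⁻¹)
    refine this.congr fun z _ => ?_
    field_simp
  refine ⟨hd, C / c, fun z hz => ?_⟩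
  have h2 := hC z hz
  have h3 : deriv (fun z => (c : ℂ) * F z) z = c * deriv F z :=
    deriv_const_mul _ ((hd z hz).differentiableAt (isOpen_ball.mem_nhds hz))
  rw [h3, norm_mul, Complex.norm_real, Real.norm_of_nonneg hc.le] at h2
  rw [le_div_iff₀ hc]
  linarith

theorem final (hL : S_LIMIT) (hE : S_EXT) (hB : S_BB) : ∀ p : ℝ, 1 < p → p < 2 →
    ∃ k F : ℂ → ℂ, InHInfinity k ∧ InBergman (p / (p - 1)) k ∧ (∃ z ∈ ball (0 : ℂ) 1, k z ≠ 0) ∧
      IsExtremal p k F ∧ ¬ InBloch F ∧ ¬ InBMOA F := by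
  intro p hp1 hp2
  obtain ⟨F, k, hF, hi, hnb, hk, hk1, hm⟩ := hL (p / 2) (by linarith) (by linarith)
  have e1 : 2 * (p / 2) = p := by ring
  rw [e1] at hi hm
  have hF0 : ∃ z ∈ ball (0 : ℂ) 1, F z ≠ 0 := by
    by_contra hc
    push Not at hc
    apply hnb
    refine ⟨hF, 0, fun z hz => ?_⟩
    have : deriv F z = 0 := by
      have h1 : F =ᶠ[𝓝 z] fun _ => 0 := by
        filter_upwards [isOpen_ball.mem_nhds hz] with x hx using hc x hx
      rw [h1.deriv_eq]
      simp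
    rw [this]
    simp
  obtain ⟨hk0, c, hc, hext⟩ := hE p hp1 F k hF hi hF0 hk ⟨1, hk1⟩ hm
  refine ⟨k, fun z => (c : ℂ) * F z, ⟨hk, 1, hk1⟩, bdd_bergman hk hk1 ?_, hk0, hext,
    not_bloch_smul hnb hc, fun h => not_bloch_smul hnb hc (hB _ h)⟩
  have : 0 < p - 1 := by linarith
  positivity

end Pool.Agent.H928.BX
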