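import Pool.Agent.H928.BX.Stm

/-!
# Flow: closed step-invariant sets are invariant under the two flows
-/

set_option autoImplicit false

open MeasureTheory Set Filter Topology Complex Metric
open scoped ComplexConjugate

namespace Pool.Agent.H928.BX

namespace Flow

theorem U_add (s : ℝ) (q ω : ℂ) :
    U s (q + ω) = U s q * exp (s * ω - (1 - s) * conj ω) := by
  unfold U
  rw [← Complex.exp_add]
  congr 1
  rw [map_add]
  ring

/-- the derivative at `0` along `z / n` -/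
theorem lim (φ : ℂ → ℂ) (a : ℂ) (C : ℝ) (h : ∀ ω : ℂ, ‖ω‖ ≤ 1 → ‖φ ω - a * ω‖ ≤ C * ‖ω‖ ^ 2)
    (z : ℂ) : Tendsto (fun n : ℕ => (n : ℂ) * φ (z / n)) atTop (𝓝 (a * z)) := by
  rw [tendsto_iff_norm_sub_tendsto_zero]
  have h0 : Tendsto (fun n : ℕ => C * ‖z‖ ^ 2 / (n : ℝ)) atTop (𝓝 0) :=
    tendsto_const_div_atTop_nhds_zero_nat _
  refine squeeze_zero' (Eventually.of_forall fun n => norm_nonneg _) ?_ h0
  filter_upwards [eventually_ge_atTop 1, eventually_ge_atTop ⌈‖z‖⌉₊] with n hn1 hnz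
  have hn0 : (0 : ℝ) < n := by exact_mod_cast hn1
  have hnc : (n : ℂ) ≠ 0 := by exact_mod_cast hn0.ne'
  have hnorm : ‖z / (n : ℂ)‖ = ‖z‖ / n := by rw [norm_div, Complex.norm_natCast]
  have h1 : ‖z / (n : ℂ)‖ ≤ 1 := by
    rw [hnorm, div_le_one hn0]
    exact (Nat.le_ceil _).trans (by exact_mod_cast hnz)
  have h2 := h (z / n) h1
  have h3 : (n : ℂ) * φ (z / n) - a * z = (n : ℂ) * (φ (z / n) - a * (z / n)) := by
    field_simp
  rw [h3, norm_mul, Complex.norm_natCast]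
  calc (n : ℝ) * ‖φ (z / n) - a * (z / n)‖ ≤ (n : ℝ) * (C * ‖z / (n : ℂ)‖ ^ 2) :=
        mul_le_mul_of_nonneg_left h2 hn0.le
    _ = C * ‖z‖ ^ 2 / n := by
        rw [hnorm]
        field_simp

theorem exp_bd (lam : ℂ) (t : ℝ) (h0 : 0 ≤ t) (h1 : t ≤ 1) :
    ‖exp (lam * t)‖ ≤ Real.exp ‖lam‖ := by
  refine (Complex.norm_exp_le_exp_norm _).trans (Real.exp_le_exp.2 ?_)
  rw [norm_mul, Complex.norm_real, Real.norm_of_nonneg h0]
  exact mul_le_of_le_one_right (norm_nonneg _) h1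

theorem core (hG : S_G) {s : ℝ} (hs : 0 < s) (hs1 : s < 1) {A : ℝ} (hA : 0 < A)
    {L : Set (ℂ × ℂ)} (h1 : ∀ x : ℂ × ℂ, ‖x.1‖ < 1 → x ∈ closure L → x ∈ L)
    (h2 : ∀ x ∈ L, ∀ ω : ℂ, ω ≠ 0 → ‖ω‖ < 1 → A * ‖U s x.2‖ * ‖ω‖ < 1 - ‖x.1‖ →
      (x.1 + U s x.2 * G s ω, x.2 + ω) ∈ L)
    {κ q : ℂ} (hx : (κ, q) ∈ L) {τ lam c : ℂ} (hτ : τ ≠ 0) (hlam0 : lam ≠ 0)
    (hlam : lam = s * τ - (1 - s) * conj τ) (hc : c * lam = s * τ)
    (hγ : ∀ t ∈ Icc (0 : ℝ) 1, ‖κ + U s q * (c * (exp (lam * t) - 1))‖ < 1) :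
    (κ + U s q * (c * (exp lam - 1)), q + τ) ∈ L := by
  obtain ⟨-, C, hC⟩ := hG s hs hs1
  obtain ⟨V, hV⟩ : ∃ V, V = U s q := ⟨_, rfl⟩
  rw [← hV] at hγ ⊢
  -- the maximum of the path
  obtain ⟨δ, hδ0, hδ⟩ : ∃ δ : ℝ, 0 < δ ∧
      ∀ t ∈ Icc (0 : ℝ) 1, ‖κ + V * (c * (exp (lam * t) - 1))‖ ≤ 1 - 2 * δ := by
    have hcont : ContinuousOn (fun t : ℝ => ‖κ + V * (c * (exp (lam * t) - 1))‖)
        (Icc (0 : ℝ) 1) := Continuous.continuousOn (by fun_prop)
    obtain ⟨t0, ht0, hmax⟩ := isCompact_Icc.exists_isMaxOn ⟨0, by simp⟩ hcont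
    have h3 := hγ t0 ht0
    refine ⟨(1 - ‖κ + V * (c * (exp (lam * t0) - 1))‖) / 2, by linarith, fun t ht => ?_⟩
    have h4 : ‖κ + V * (c * (exp (lam * t) - 1))‖ ≤ ‖κ + V * (c * (exp (lam * t0) - 1))‖ :=
      hmax ht
    linarith
  -- the quotients
  obtain ⟨g, hg⟩ : ∃ g : ℕ → ℂ, g = fun n : ℕ => G s (τ / n) / (exp (lam / n) - 1) := ⟨_, rfl⟩
  have hlim1 := lim (G s) s C hC τ
  have hlim2 := lim (fun z => exp z - 1) 1 1 (fun ω hω => by
    rw [one_mul, one_mul]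
    exact Complex.norm_exp_sub_one_sub_id_le hω) lam
  have hglim : Tendsto g atTop (𝓝 c) := by
    have h3 := hlim1.div hlim2 (by rw [one_mul]; exact hlam0)
    have h4 : (s : ℂ) * τ / (1 * lam) = c := by
      rw [one_mul, ← hc, mul_div_assoc, div_self hlam0, mul_one]
    rw [h4] at h3
    refine h3.congr' ?_
    filter_upwards [eventually_ge_atTop 1] with n hn
    have hnc : (n : ℂ) ≠ 0 := by
      have : (0 : ℝ) < n := by exact_mod_cast hn
      exact_mod_cast this.ne'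
    rw [hg]
    exact mul_div_mul_left _ _ hnc
  have hne : ∀ᶠ n : ℕ in atTop, exp (lam / n) - 1 ≠ 0 := by
    have h3 := hlim2.eventually_ne (by rw [one_mul]; exact hlam0 : (1 : ℂ) * lam ≠ 0)
    filter_upwards [h3] with n hn h0
    apply hn
    rw [h0, mul_zero]
  -- the end points
  have hend : ∀ᶠ n : ℕ in atTop, (κ + V * (g n * (exp lam - 1)), q + τ) ∈ L := by
    have e1 : ∀ᶠ n : ℕ in atTop, ‖V‖ * ((Real.exp ‖lam‖ + 1) * ‖g n - c‖) < δ := by
      have h3 : Tendsto (fun n => ‖V‖ * ((Real.exp ‖lam‖ + 1) * ‖g n - c‖)) atTop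
          (𝓝 (‖V‖ * ((Real.exp ‖lam‖ + 1) * 0))) :=
        ((tendsto_iff_norm_sub_tendsto_zero.1 hglim).const_mul _).const_mul _
      rw [mul_zero, mul_zero] at h3
      exact h3.eventually_lt_const hδ0
    have e2 : ∀ᶠ n : ℕ in atTop, ‖τ‖ / (n : ℝ) < 1 :=
      (tendsto_const_div_atTop_nhds_zero_nat ‖τ‖).eventually_lt_const one_pos
    have e3 : ∀ᶠ n : ℕ in atTop, A * (‖V‖ * Real.exp ‖lam‖) * ‖τ‖ / (n : ℝ) < δ :=
      (tendsto_const_div_atTop_nhds_zero_nat _).eventually_lt_const hδ0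
    filter_upwards [hne, e1, e2, e3, eventually_ge_atTop 1] with n hn0 hn1 hn2 hn3 hn4
    have hnr : (0 : ℝ) < n := by exact_mod_cast hn4
    have hnc : (n : ℂ) ≠ 0 := by exact_mod_cast hnr.ne'
    have hω0 : τ / (n : ℂ) ≠ 0 := div_ne_zero hτ hnc
    have hωn : ‖τ / (n : ℂ)‖ = ‖τ‖ / n := by rw [norm_div, Complex.norm_natCast]
    have hU : ∀ j : ℕ, U s (q + j * (τ / n)) = V * exp (lam / n) ^ j := by
      intro j
      rw [U_add, ← hV, ← Complex.exp_nat_mul]
      congr 2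
      rw [map_mul, Complex.conj_natCast, map_div₀, Complex.conj_natCast, hlam]
      field_simp
    have hpow : ∀ j : ℕ, exp (lam / n) ^ j = exp (lam * ((j : ℝ) / n : ℝ)) := by
      intro j
      rw [← Complex.exp_nat_mul]
      congr 1
      push_cast
      field_simp
    have hjn : ∀ j : ℕ, j ≤ n → 0 ≤ (j : ℝ) / n ∧ (j : ℝ) / n ≤ 1 := by
      intro j hj
      refine ⟨by positivity, ?_⟩
      rw [div_le_one hnr]
      exact_mod_cast hj
    -- the bound of the points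
    have hκ : ∀ j : ℕ, j ≤ n → ‖κ + V * (g n * (exp (lam / n) ^ j - 1))‖ ≤ 1 - δ := by
      intro j hj
      obtain ⟨hj0, hj1⟩ := hjn j hj
      have h3 := hδ ((j : ℝ) / n) ⟨hj0, hj1⟩
      have h4 : κ + V * (g n * (exp (lam / n) ^ j - 1)) =
          (κ + V * (c * (exp (lam * ((j : ℝ) / n : ℝ)) - 1))) +
          V * ((exp (lam * ((j : ℝ) / n : ℝ)) - 1) * (g n - c)) := by
        rw [hpow]
        ring
      have h5 : ‖exp (lam * ((j : ℝ) / n : ℝ)) - 1‖ ≤ Real.exp ‖lam‖ + 1 := by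
        refine (norm_sub_le _ _).trans ?_
        rw [norm_one]
        exact add_le_add (exp_bd lam _ hj0 hj1) le_rfl
      have h6 : ‖V * ((exp (lam * ((j : ℝ) / n : ℝ)) - 1) * (g n - c))‖ ≤
          ‖V‖ * ((Real.exp ‖lam‖ + 1) * ‖g n - c‖) := by
        rw [norm_mul, norm_mul]
        gcongr
      rw [h4]
      refine (norm_add_le _ _).trans ?_
      linarith
    have hind : ∀ j : ℕ, j ≤ n →
        (κ + V * (g n * (exp (lam / n) ^ j - 1)), q + j * (τ / n)) ∈ L := by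
      intro j
      induction j with
      | zero =>
        intro _
        rw [pow_zero, sub_self, mul_zero, mul_zero, add_zero, Nat.cast_zero, zero_mul, add_zero]
        exact hx
      | succ j ih =>
        intro hj
        have hj' : j ≤ n := by omega
        have h3 := h2 _ (ih hj') (τ / n) hω0 (by rw [hωn]; exact hn2) (by
          show A * ‖U s (q + j * (τ / n))‖ * ‖τ / (n : ℂ)‖ <
            1 - ‖κ + V * (g n * (exp (lam / n) ^ j - 1))‖
          have h4 := hκ j hj'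
          obtain ⟨hj0, hj1⟩ := hjn j hj'
          have h5 : ‖U s (q + j * (τ / n))‖ ≤ ‖V‖ * Real.exp ‖lam‖ := by
            rw [hU j, hpow j, norm_mul]
            exact mul_le_mul_of_nonneg_left (exp_bd lam _ hj0 hj1) (norm_nonneg _)
          calc A * ‖U s (q + j * (τ / n))‖ * ‖τ / (n : ℂ)‖ ≤
              A * (‖V‖ * Real.exp ‖lam‖) * ‖τ / (n : ℂ)‖ := by gcongr
            _ = A * (‖V‖ * Real.exp ‖lam‖) * ‖τ‖ / n := by rw [hωn, mul_div_assoc]
            _ < δ := hn3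
            _ ≤ _ := by linarith)
        have h6 : κ + V * (g n * (exp (lam / n) ^ j - 1)) + U s (q + j * (τ / n)) * G s (τ / n) =
            κ + V * (g n * (exp (lam / n) ^ (j + 1) - 1)) := by
          have h7 : G s (τ / n) = g n * (exp (lam / n) - 1) := by
            rw [hg]
            exact (div_mul_cancel₀ _ hn0).symm
          rw [hU j, h7]
          ring
        have h8 : q + (j : ℂ) * (τ / n) + τ / n = q + ((j + 1 : ℕ) : ℂ) * (τ / n) := by
          push_cast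
          ring
        have h9 : (κ + V * (g n * (exp (lam / n) ^ j - 1)) +
            U s (q + j * (τ / n)) * G s (τ / n), q + (j : ℂ) * (τ / n) + τ / n) ∈ L := h3
        rw [h6, h8] at h9
        exact h9
    have h10 := hind n le_rfl
    have h11 : exp (lam / n) ^ n = exp lam := by
      rw [← Complex.exp_nat_mul]
      congr 1
      field_simp
    have h12 : q + (n : ℂ) * (τ / n) = q + τ := by
      congr 1
      field_simp
    rw [h11, h12] at h10
    exact h10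
  have hcl : (κ + V * (c * (exp lam - 1)), q + τ) ∈ closure L := by
    have h3 : Tendsto (fun n => (κ + V * (g n * (exp lam - 1)), q + τ)) atTop
        (𝓝 (κ + V * (c * (exp lam - 1)), q + τ)) :=
      (((hglim.mul_const _).const_mul V).const_add κ).prodMk_nhds tendsto_const_nhds
    exact mem_closure_of_tendsto h3 hend
  refine h1 _ ?_ hcl
  have h3 := hγ 1 (by simp)
  rw [Complex.ofReal_one, mul_one] at h3
  exact h3

end Flow

theorem flow (hG : S_G) : S_FLOW := by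
  intro s hs hs1 A hGB L hL1 hL2 hL3
  have hs0 : 0 < s := by linarith
  have h2s : (2 * s - 1 : ℝ) ≠ 0 := by
    have : 0 < 2 * s - 1 := by linarith
    exact this.ne'
  have h2sc : (2 * (s : ℂ) - 1) ≠ 0 := by exact_mod_cast h2s
  constructor
  · rintro ⟨κ, q⟩ hx y hγ
    rcases eq_or_ne y 0 with h0 | h0
    · subst h0
      have e : (κ + U s q * ((s / (2 * s - 1) : ℝ) * (exp (((2 * s - 1) * (0 : ℝ) : ℝ)) - 1)),
          q + ((0 : ℝ) : ℂ)) = (κ, q) := by
        simp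
      show (κ + U s q * ((s / (2 * s - 1) : ℝ) * (exp (((2 * s - 1) * (0 : ℝ) : ℝ)) - 1)),
          q + ((0 : ℝ) : ℂ)) ∈ L
      rw [e]
      exact hx
    · have hyc : (y : ℂ) ≠ 0 := by exact_mod_cast h0
      refine Flow.core hG hs0 hs1 hGB.1 hL2 hL3 hx (τ := (y : ℂ))
        (lam := (((2 * s - 1) * y : ℝ) : ℂ)) (c := ((s / (2 * s - 1) : ℝ) : ℂ)) hyc ?_ ?_ ?_ ?_
      · push_cast
        exact mul_ne_zero h2sc hyc
      · rw [Complex.conj_ofReal]
        push_cast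
        ring
      · push_cast
        rw [← mul_assoc, div_mul_cancel₀ _ h2sc]
      · intro t ht
        have h3 := hγ t ht
        have h4 : (((2 * s - 1) * y : ℝ) : ℂ) * (t : ℂ) = (((2 * s - 1) * y * t : ℝ) : ℂ) := by
          push_cast
          ring
        rw [h4]
        exact h3
  · rintro ⟨κ, q⟩ hx β hγ
    rcases eq_or_ne β 0 with h0 | h0
    · subst h0
      have e : (κ + U s q * (s * (exp (((0 : ℝ) : ℂ) * I) - 1)), q + ((0 : ℝ) : ℂ) * I) =
          (κ, q) := by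
        simp
      show (κ + U s q * (s * (exp (((0 : ℝ) : ℂ) * I) - 1)), q + ((0 : ℝ) : ℂ) * I) ∈ L
      rw [e]
      exact hx
    · have hβc : (β : ℂ) ≠ 0 := by exact_mod_cast h0
      refine Flow.core hG hs0 hs1 hGB.1 hL2 hL3 hx (τ := (β : ℂ) * I)
        (lam := (β : ℂ) * I) (c := (s : ℂ)) (mul_ne_zero hβc I_ne_zero)
        (mul_ne_zero hβc I_ne_zero) ?_ rfl ?_
      · rw [map_mul, Complex.conj_ofReal, Complex.conj_I]
        ring
      · intro t ht
        have h3 := hγ t ht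
        have h4 : (β : ℂ) * I * (t : ℂ) = ((β * t : ℝ) : ℂ) * I := by
          push_cast
          ring
        rw [h4]
        exact h3

end Pool.Agent.H928.BX
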