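import Pool.Agent.H928.BX.Stm

/-!
# Following a winning path (helper746)
-/

set_option autoImplicit false

open MeasureTheory Set Filter Topology Complex Metric
open scoped ComplexConjugate

namespace Pool.Agent.H928.BX

namespace Follow

theorem U_cont (s : ℝ) : Continuous (U s) := by
  unfold U
  refine Complex.continuous_exp.comp ?_
  exact (continuous_const.mul continuous_id).sub (continuous_const.mul Complex.continuous_conj)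

theorem U_pos (s : ℝ) (q : ℂ) : 0 < ‖U s q‖ := norm_pos_iff.2 (Complex.exp_ne_zero _)

theorem cont_state {s A : ℝ} (hG : Continuous (G s)) {κ q ω : ℂ}
    (h4 : A * ‖U s q‖ * ‖ω‖ < 1 - ‖κ‖) {δ' : ℝ} (hδ' : 0 < δ') :
    ∃ δ₁ > (0 : ℝ), ∀ κ' q' ω' : ℂ, ‖κ' - κ‖ < δ₁ → ‖q' - q‖ < δ₁ → ‖ω' - ω‖ < δ₁ →
      ‖(κ' + U s q' * G s ω') - (κ + U s q * G s ω)‖ < δ' / 2 ∧
      ‖(q' + ω') - (q + ω)‖ < δ' / 2 ∧ A * ‖U s q'‖ * ‖ω‖ < 1 - ‖κ'‖ := by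
  have hU := U_cont s
  have c1 : Continuous fun x : ℂ × ℂ × ℂ => x.1 + U s x.2.1 * G s x.2.2 := by fun_prop
  have c2 : Continuous fun x : ℂ × ℂ × ℂ => x.2.1 + x.2.2 := by fun_prop
  have c3 : Continuous fun x : ℂ × ℂ × ℂ => A * ‖U s x.2.1‖ * ‖ω‖ := by fun_prop
  have c4 : Continuous fun x : ℂ × ℂ × ℂ => 1 - ‖x.1‖ := by fun_prop
  have h2 : 0 < δ' / 2 := by linarith
  have e1 : ∀ᶠ x : ℂ × ℂ × ℂ in 𝓝 (κ, q, ω),
      ‖(x.1 + U s x.2.1 * G s x.2.2) - (κ + U s q * G s ω)‖ < δ' / 2 := by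
    have := c1.continuousAt (x := ((κ, q, ω) : ℂ × ℂ × ℂ))
    have h3 := Metric.tendsto_nhds.1 this (δ' / 2) h2
    filter_upwards [h3] with x hx
    rw [dist_eq_norm] at hx
    exact hx
  have e2 : ∀ᶠ x : ℂ × ℂ × ℂ in 𝓝 (κ, q, ω), ‖(x.2.1 + x.2.2) - (q + ω)‖ < δ' / 2 := by
    have := c2.continuousAt (x := ((κ, q, ω) : ℂ × ℂ × ℂ))
    have h3 := Metric.tendsto_nhds.1 this (δ' / 2) h2
    filter_upwards [h3] with x hx
    rw [dist_eq_norm] at hx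
    exact hx
  have e3 : ∀ᶠ x : ℂ × ℂ × ℂ in 𝓝 (κ, q, ω), A * ‖U s x.2.1‖ * ‖ω‖ < 1 - ‖x.1‖ :=
    c3.continuousAt.eventually_lt c4.continuousAt h4
  obtain ⟨δ₁, hδ₁, h⟩ := Metric.eventually_nhds_iff.1 (e1.and (e2.and e3))
  refine ⟨δ₁, hδ₁, fun κ' q' ω' a b c => ?_⟩
  refine h (y := ((κ', q', ω') : ℂ × ℂ × ℂ)) ?_
  rw [Prod.dist_eq, Prod.dist_eq, dist_eq_norm, dist_eq_norm, dist_eq_norm]
  exact max_lt a (max_lt b c)

theorem int_sq {f g : ℂ → ℂ} (hf : Continuous f) (hg : Continuous g) :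
    Integrable (fun z => ‖f z - g z‖ ^ 2) dA := by
  have hc : Continuous fun z => ‖f z - g z‖ ^ 2 := by fun_prop
  unfold dA
  exact (hc.continuousOn.integrableOn_compact (isCompact_closedBall (0 : ℂ) 1)).mono_set
    ball_subset_closedBall

theorem close_trans {ρ ε : ℝ} {Q k Q' k' Q'' k'' : ℂ → ℂ} (hQ : Continuous Q)
    (hQ' : Continuous Q') (hQ'' : Continuous Q'') (hε : 0 < ε) (h1 : Close ρ (ε / 4) Q k Q' k')
    (h2 : Close ρ (ε / 4) Q' k' Q'' k'') : Close ρ ε Q k Q'' k'' := by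
  refine ⟨fun z hz => ?_, fun z hz => ?_, ?_⟩
  · have a1 := h1.q z hz
    have a2 := h2.q z hz
    have a3 : exp (Q'' z) - exp (Q z) = (exp (Q'' z) - exp (Q' z)) + (exp (Q' z) - exp (Q z)) := by
      ring
    rw [a3]
    refine (norm_add_le _ _).trans ?_
    linarith
  · have a1 := h1.k z hz
    have a2 := h2.k z hz
    have a3 : k'' z - k z = (k'' z - k' z) + (k' z - k z) := by ring
    rw [a3]
    refine (norm_add_le _ _).trans ?_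
    linarith
  · have c0 : Continuous fun z => exp (Q z) := Complex.continuous_exp.comp hQ
    have c1 : Continuous fun z => exp (Q' z) := Complex.continuous_exp.comp hQ'
    have c2 : Continuous fun z => exp (Q'' z) := Complex.continuous_exp.comp hQ''
    have i1 := int_sq c2 c1
    have i2 := int_sq c1 c0
    have i3 := int_sq c2 c0
    have hle : ∀ z, ‖exp (Q'' z) - exp (Q z)‖ ^ 2 ≤
        2 * ‖exp (Q'' z) - exp (Q' z)‖ ^ 2 + 2 * ‖exp (Q' z) - exp (Q z)‖ ^ 2 := by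
      intro z
      have a3 : exp (Q'' z) - exp (Q z) = (exp (Q'' z) - exp (Q' z)) +
        (exp (Q' z) - exp (Q z)) := by ring
      have a4 := norm_add_le (exp (Q'' z) - exp (Q' z)) (exp (Q' z) - exp (Q z))
      rw [← a3] at a4
      have a5 := norm_nonneg (exp (Q'' z) - exp (Q z))
      nlinarith [sq_nonneg (‖exp (Q'' z) - exp (Q' z)‖ - ‖exp (Q' z) - exp (Q z)‖)]
    have hI := integral_mono i3 ((i1.const_mul 2).add (i2.const_mul 2)) hle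
    refine hI.trans ?_
    have e : ∫ z, (2 * ‖exp (Q'' z) - exp (Q' z)‖ ^ 2 + 2 * ‖exp (Q' z) - exp (Q z)‖ ^ 2) ∂dA =
        2 * (∫ z, ‖exp (Q'' z) - exp (Q' z)‖ ^ 2 ∂dA) +
        2 * ∫ z, ‖exp (Q' z) - exp (Q z)‖ ^ 2 ∂dA := by
      rw [integral_add (i1.const_mul 2) (i2.const_mul 2), integral_const_mul, integral_const_mul]
    show ∫ z, (2 * ‖exp (Q'' z) - exp (Q' z)‖ ^ 2 + 2 * ‖exp (Q' z) - exp (Q z)‖ ^ 2) ∂dA ≤ ε
    rw [e]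
    have b1 := h1.l2
    have b2 := h2.l2
    linarith

theorem close_refl {ρ ε : ℝ} {Q k : ℂ → ℂ} (hε : 0 < ε) : Close ρ ε Q k Q k := by
  refine ⟨fun z _ => ?_, fun z _ => ?_, ?_⟩
  · rw [sub_self, norm_zero]; exact hε.le
  · rw [sub_self, norm_zero]; exact hε.le
  · simp only [sub_self, norm_zero]
    rw [zero_pow two_ne_zero, integral_zero]
    exact hε.le

theorem base {s M : ℝ} {κ q : ℂ} (h1 : ‖κ‖ < 1 / 2) (h2 : M < ‖U s q‖) :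
    ∃ δ > (0 : ℝ), ∀ (Q k : ℂ → ℂ) (z0 : ℂ), Good s Q k → ‖z0‖ = 1 →
    ‖k z0 - κ‖ < δ → ‖Q z0 - q‖ < δ → ∀ ρ < (1 : ℝ), ∀ ε > (0 : ℝ),
    ∃ (Q' k' : ℂ → ℂ) (z1 : ℂ), Good s Q' k' ∧ ‖z1‖ = 1 ∧ ‖k' z1‖ < 1 / 2 ∧
      M < ‖U s (Q' z1)‖ ∧ Close ρ ε Q k Q' k' := by
  have e1 : ∀ᶠ x : ℂ in 𝓝 κ, ‖x‖ < 1 / 2 :=
    continuous_norm.continuousAt.eventually_lt continuousAt_const h1
  have e2 : ∀ᶠ x : ℂ in 𝓝 q, M < ‖U s x‖ :=
    continuousAt_const.eventually_lt (U_cont s).norm.continuousAt h2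
  obtain ⟨δ₁, hδ₁, h3⟩ := Metric.eventually_nhds_iff.1 e1
  obtain ⟨δ₂, hδ₂, h4⟩ := Metric.eventually_nhds_iff.1 e2
  refine ⟨min δ₁ δ₂, lt_min hδ₁ hδ₂, fun Q k z0 hg hz hk hq ρ _ ε hε => ?_⟩
  refine ⟨Q, k, z0, hg, hz, h3 ?_, h4 ?_, close_refl hε⟩
  · rw [dist_eq_norm]
    exact hk.trans_le (min_le_left _ _)
  · rw [dist_eq_norm]
    exact hq.trans_le (min_le_right _ _)

theorem stp (hS : S_STEP) (hC : S_CLOSE) (hG : S_G) (hO : S_OUTER) (hP : S_PHASE) {s A M : ℝ}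
    (hs0 : 0 < s) (hs1 : s < 1) (hA : GB s A) {κ q ω : ℂ} (hω0 : ω ≠ 0) (hω1 : ‖ω‖ < 1)
    (h4 : A * ‖U s q‖ * ‖ω‖ < 1 - ‖κ‖)
    (ih : ∃ δ > (0 : ℝ), ∀ (Q k : ℂ → ℂ) (z0 : ℂ), Good s Q k → ‖z0‖ = 1 →
      ‖k z0 - (κ + U s q * G s ω)‖ < δ → ‖Q z0 - (q + ω)‖ < δ → ∀ ρ < (1 : ℝ), ∀ ε > (0 : ℝ),
      ∃ (Q' k' : ℂ → ℂ) (z1 : ℂ), Good s Q' k' ∧ ‖z1‖ = 1 ∧ ‖k' z1‖ < 1 / 2 ∧
        M < ‖U s (Q' z1)‖ ∧ Close ρ ε Q k Q' k') :
    ∃ δ > (0 : ℝ), ∀ (Q k : ℂ → ℂ) (z0 : ℂ), Good s Q k → ‖z0‖ = 1 →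
    ‖k z0 - κ‖ < δ → ‖Q z0 - q‖ < δ → ∀ ρ < (1 : ℝ), ∀ ε > (0 : ℝ),
    ∃ (Q' k' : ℂ → ℂ) (z1 : ℂ), Good s Q' k' ∧ ‖z1‖ = 1 ∧ ‖k' z1‖ < 1 / 2 ∧
      M < ‖U s (Q' z1)‖ ∧ Close ρ ε Q k Q' k' := by
  obtain ⟨hGc, _⟩ := hG s hs0 hs1
  obtain ⟨δ', hδ', ih⟩ := ih
  obtain ⟨hA0, hGB⟩ := hA
  obtain ⟨δ₁, hδ₁, hst⟩ := cont_state hGc h4 hδ'
  have hω : 0 < ‖ω‖ := norm_pos_iff.2 hω0
  refine ⟨δ₁ / 2, by linarith, fun Q k z0 hg hz0 hk hq ρ hρ ε hε => ?_⟩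
  have hkc := hg.proj.cont
  have hQc : Continuous Q := hg.diff.continuous
  have hUQ : Continuous fun z => ‖U s (Q z)‖ := ((U_cont s).comp hQc).norm
  have hss : sphere (0 : ℂ) 1 ⊆ closedBall 0 1 := sphere_subset_closedBall
  have hksph : ContinuousOn (fun z => 1 - ‖k z‖) (sphere (0 : ℂ) 1) :=
    continuousOn_const.sub (hkc.mono hss).norm
  -- the modulus
  let r : ℂ → ℝ := fun z => min ‖ω‖ ((1 - ‖k z‖) / (A * ‖U s (Q z)‖))
  have hAU : ∀ z, 0 < A * ‖U s (Q z)‖ := fun z => mul_pos hA0 (U_pos s (Q z))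
  have hrc : ContinuousOn r (sphere 0 1) := by
    refine ContinuousOn.inf continuousOn_const ?_
    refine ContinuousOn.div hksph (continuousOn_const.mul hUQ.continuousOn) ?_
    intro z _
    exact (hAU z).ne'
  have hrp : ∀ z ∈ sphere (0 : ℂ) 1, 0 < r z := by
    intro z hz
    refine lt_min hω ?_
    refine div_pos ?_ (hAU z)
    have := hg.lt z (mem_sphere_zero_iff_norm.1 hz)
    linarith
  have hr0 : r z0 = ‖ω‖ := by
    refine min_eq_left ?_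
    rw [le_div_iff₀ (hAU z0)]
    have h5 := (hst (k z0) (Q z0) ω (by linarith) (by linarith) (by rw [sub_self, norm_zero]; exact hδ₁)).2.2
    linarith
  have hη : 0 < δ₁ / 4 := by linarith
  obtain ⟨H, hH, hHr⟩ := hO r hrc hrp (δ₁ / 4) hη
  let B : ℂ → ℂ := fun z => exp (H z)
  have hB : Differentiable ℂ B := hH.cexp
  have hz0s : z0 ∈ sphere (0 : ℂ) 1 := mem_sphere_zero_iff_norm.2 hz0
  have hB0 : ‖ω‖ * Real.exp (-(δ₁ / 4)) ≤ ‖B z0‖ ∧ ‖B z0‖ ≤ ‖ω‖ := by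
    have := hHr z0 hz0s
    rw [hr0] at this
    exact this
  -- the target
  let ω0 : ℂ := ((‖B z0‖ / ‖ω‖ : ℝ) : ℂ) * ω
  have hω0n : ‖ω0‖ = ‖B z0‖ := by
    show ‖((‖B z0‖ / ‖ω‖ : ℝ) : ℂ) * ω‖ = _
    rw [norm_mul, Complex.norm_real, Real.norm_eq_abs, abs_of_nonneg (by positivity),
      div_mul_cancel₀ _ hω.ne']
  have hω0d : ‖ω0 - ω‖ ≤ δ₁ / 4 := by
    have e : ω0 - ω = ((‖B z0‖ / ‖ω‖ - 1 : ℝ) : ℂ) * ω := by
      show ((‖B z0‖ / ‖ω‖ : ℝ) : ℂ) * ω - ω = _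
      push_cast
      ring
    rw [e, norm_mul, Complex.norm_real, Real.norm_eq_abs]
    have h5 : ‖B z0‖ / ‖ω‖ - 1 ≤ 0 := by
      have := (div_le_one hω).2 hB0.2
      linarith
    rw [abs_of_nonpos h5]
    have h6 : 1 - δ₁ / 4 ≤ Real.exp (-(δ₁ / 4)) := by
      have := Real.add_one_le_exp (-(δ₁ / 4))
      linarith
    have h7 : Real.exp (-(δ₁ / 4)) ≤ ‖B z0‖ / ‖ω‖ := by
      rw [le_div_iff₀ hω]
      linarith [hB0.1]
    have h8 : -(‖B z0‖ / ‖ω‖ - 1) ≤ δ₁ / 4 := by linarith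
    have h9 : 0 ≤ -(‖B z0‖ / ‖ω‖ - 1) := by linarith
    calc -(‖B z0‖ / ‖ω‖ - 1) * ‖ω‖ ≤ -(‖B z0‖ / ‖ω‖ - 1) * 1 :=
          mul_le_mul_of_nonneg_left hω1.le h9
      _ ≤ δ₁ / 4 := by linarith
  -- lower bound of `1 - ‖k‖`
  obtain ⟨c0, hc0, hc0k⟩ : ∃ c0 > (0 : ℝ), ∀ z ∈ sphere (0 : ℂ) 1, c0 ≤ 1 - ‖k z‖ := by
    obtain ⟨zm, hzm, hmin⟩ := (isCompact_sphere (0 : ℂ) 1).exists_isMinOn ⟨z0, hz0s⟩ hksph
    refine ⟨1 - ‖k zm‖, ?_, fun z hz => hmin hz⟩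
    have := hg.lt zm (mem_sphere_zero_iff_norm.1 hzm)
    linarith
  -- continuity of `k`, `Q` at `z0`
  obtain ⟨ε₃, hε₃, hε₃k⟩ : ∃ ε₃ > (0 : ℝ), ∀ z, ‖z‖ = 1 → ‖z - z0‖ < ε₃ →
      ‖k z - k z0‖ < δ₁ / 2 ∧ ‖Q z - Q z0‖ < δ₁ / 2 := by
    have h5 : 0 < δ₁ / 2 := by linarith
    obtain ⟨a, ha, hak⟩ := Metric.continuousWithinAt_iff.1 (hkc z0 (hss hz0s)) (δ₁ / 2) h5
    obtain ⟨b, hb, hbQ⟩ := Metric.continuousAt_iff.1 (hQc.continuousAt (x := z0)) (δ₁ / 2) h5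
    refine ⟨min a b, lt_min ha hb, fun z hz hzz => ⟨?_, ?_⟩⟩
    · have := hak (hss (mem_sphere_zero_iff_norm.2 hz)) (by
        rw [dist_eq_norm]; exact hzz.trans_le (min_le_left _ _))
      rwa [dist_eq_norm] at this
    · have := hbQ (by
        rw [dist_eq_norm]; exact hzz.trans_le (min_le_right _ _) : dist z z0 < b)
      rwa [dist_eq_norm] at this
  -- the small numbers
  let ε' : ℝ := min (min (c0 / 4) (δ' / 4)) (ε / 4)
  have hε' : 0 < ε' := lt_min (lt_min (by linarith) (by linarith)) (by linarith)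
  have hε'1 : ε' ≤ c0 / 4 := (min_le_left _ _).trans (min_le_left _ _)
  have hε'2 : ε' ≤ δ' / 4 := (min_le_left _ _).trans (min_le_right _ _)
  have hε'3 : ε' ≤ ε / 4 := min_le_right _ _
  let ε₄ : ℝ := min (ε₃ / 2) (δ₁ / 4)
  have hε₄ : 0 < ε₄ := lt_min (by linarith) (by linarith)
  have hε₄1 : ε₄ < ε₃ := (min_le_left _ _).trans_lt (by linarith)
  have hε₄2 : ε₄ ≤ δ₁ / 4 := min_le_right _ _
  have E1 := hS s hs0 hs1 Q B k hg.diff hB hg.proj ρ hρ ε' hε'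
  have E2 := hC Q B hg.diff hB ρ hρ (ε / 4) (by linarith)
  have E3 := hP B hB.continuous z0 hz0 ω0 hω0n ε₄ hε₄
  obtain ⟨n, ⟨k', hk'P, hk's, hk'ρ⟩, hQq, z1, hz1, hz1z, hz1ω⟩ := (E1.and (E2.and E3)).exists
  · -- the new stage
    have hQ'd : Differentiable ℂ fun z => Q z + z ^ n * B z :=
      hg.diff.add ((differentiable_id.pow n).mul hB)
    have hg' : Good s (fun z => Q z + z ^ n * B z) k' := by
      refine ⟨hQ'd, hk'P, fun z hz => ?_⟩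
      have hzs : z ∈ sphere (0 : ℂ) 1 := mem_sphere_zero_iff_norm.2 hz
      have hBr : ‖B z‖ ≤ r z := (hHr z hzs).2
      have hn : ‖z ^ n * B z‖ = ‖B z‖ := by rw [norm_mul, norm_pow, hz, one_pow, one_mul]
      have hBω : ‖z ^ n * B z‖ ≤ 1 := by
        rw [hn]
        exact (hBr.trans (min_le_left _ _)).trans hω1.le
      have hGz := hGB (z ^ n * B z) hBω
      rw [hn] at hGz
      have hBr2 : ‖B z‖ ≤ (1 - ‖k z‖) / (A * ‖U s (Q z)‖) := hBr.trans (min_le_right _ _)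
      rw [le_div_iff₀ (hAU z)] at hBr2
      have h5 : ‖U s (Q z) * G s (z ^ n * B z)‖ ≤ (1 - ‖k z‖) / 2 := by
        rw [norm_mul]
        calc ‖U s (Q z)‖ * ‖G s (z ^ n * B z)‖ ≤ ‖U s (Q z)‖ * (A / 2 * ‖B z‖) :=
              mul_le_mul_of_nonneg_left hGz (norm_nonneg _)
          _ = ‖B z‖ * (A * ‖U s (Q z)‖) / 2 := by ring
          _ ≤ (1 - ‖k z‖) / 2 := by linarith
      have h6 := hk's z hz
      have h7 : k' z = (k' z - (k z + U s (Q z) * G s (z ^ n * B z))) +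
        (k z + U s (Q z) * G s (z ^ n * B z)) := by ring
      have h8 := norm_add_le (k' z - (k z + U s (Q z) * G s (z ^ n * B z)))
        (k z + U s (Q z) * G s (z ^ n * B z))
      rw [← h7] at h8
      have h9 := norm_add_le (k z) (U s (Q z) * G s (z ^ n * B z))
      have h10 := hc0k z hzs
      linarith
    have hcl : Close ρ (ε / 4) Q k (fun z => Q z + z ^ n * B z) k' :=
      ⟨hQq.1, fun z hz => (hk'ρ z hz).trans hε'3, hQq.2⟩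
    obtain ⟨hz1k, hz1Q⟩ := hε₃k z1 hz1 (hz1z.trans_lt hε₄1)
    have a1 : ‖k z1 - κ‖ < δ₁ := by
      have e : k z1 - κ = (k z1 - k z0) + (k z0 - κ) := by ring
      rw [e]
      refine (norm_add_le _ _).trans_lt ?_
      linarith
    have a2 : ‖Q z1 - q‖ < δ₁ := by
      have e : Q z1 - q = (Q z1 - Q z0) + (Q z0 - q) := by ring
      rw [e]
      refine (norm_add_le _ _).trans_lt ?_
      linarith
    have a3 : ‖z1 ^ n * B z1 - ω‖ < δ₁ := by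
      have e : z1 ^ n * B z1 - ω = (z1 ^ n * B z1 - ω0) + (ω0 - ω) := by ring
      rw [e]
      refine (norm_add_le _ _).trans_lt ?_
      linarith
    obtain ⟨b1, b2, _⟩ := hst (k z1) (Q z1) (z1 ^ n * B z1) a1 a2 a3
    have b3 : ‖k' z1 - (κ + U s q * G s ω)‖ < δ' := by
      have e : k' z1 - (κ + U s q * G s ω) =
        (k' z1 - (k z1 + U s (Q z1) * G s (z1 ^ n * B z1))) +
        ((k z1 + U s (Q z1) * G s (z1 ^ n * B z1)) - (κ + U s q * G s ω)) := by ring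
      rw [e]
      refine (norm_add_le _ _).trans_lt ?_
      have := hk's z1 hz1
      linarith
    have b4 : ‖Q z1 + z1 ^ n * B z1 - (q + ω)‖ < δ' := by linarith
    obtain ⟨Q'', k'', z2, hg'', hz2, hk2, hU2, hcl2⟩ :=
      ih (fun z => Q z + z ^ n * B z) k' z1 hg' hz1 b3 b4 ρ hρ (ε / 4) (by linarith)
    exact ⟨Q'', k'', z2, hg'', hz2, hk2, hU2, close_trans hQc hQ'd.continuous
      hg''.diff.continuous hε hcl hcl2⟩

end Follow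

/-- T13: following a winning path -/
theorem follow (hS : S_STEP) (hC : S_CLOSE) (hG : S_G) (hO : S_OUTER) (hP : S_PHASE) :
    S_FOLLOW := by
  intro s hs0 hs1 A hA M κ q hW
  induction hW with
  | base κ q h1 h2 => exact Follow.base h1 h2
  | step κ q ω h1 h2 h3 h4 _ ih => exact Follow.stp hS hC hG hO hP hs0 hs1 hA h2 h3 h4 ih

end Pool.Agent.H928.BX
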