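import Pool.Agent.H928.BX.Stm

/-!
# Continuity and first order expansion of the double series `G`
-/

set_option autoImplicit false

open MeasureTheory Set Filter Topology Complex Metric
open scoped ComplexConjugate

namespace Pool.Agent.H928.BX.G

/-- the term of `G` -/
noncomputable def tm (s : ℝ) (ω : ℂ) (i : ℕ × ℕ) : ℂ := (wi i.1 i.2 : ℂ) *
  (((s * ω) ^ i.1 / (i.1.factorial : ℂ)) * conj ((-(1 - s) * ω) ^ i.2 / (i.2.factorial : ℂ)))

lemma wi_nonneg (a b : ℕ) : 0 ≤ wi a b := by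
  unfold wi
  split_ifs with h
  · have h1 : (b : ℝ) ≤ a := by exact_mod_cast h.le
    have h2 : (0 : ℝ) ≤ (a : ℝ) - b := by linarith
    positivity
  · exact le_rfl

lemma wi_le (a b : ℕ) : wi a b ≤ 1 := by
  unfold wi
  split_ifs with h
  · have h1 : (0 : ℝ) < a := by exact_mod_cast (Nat.zero_le b).trans_lt h
    rw [div_le_one h1]
    have : (0 : ℝ) ≤ b := Nat.cast_nonneg _
    linarith
  · exact zero_le_one

lemma norm_tm {s : ℝ} (hs0 : 0 < s) (hs1 : s < 1) (ω : ℂ) (i : ℕ × ℕ) :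
    ‖tm s ω i‖ ≤ (‖ω‖ ^ i.1 / (i.1.factorial : ℝ)) * (‖ω‖ ^ i.2 / (i.2.factorial : ℝ)) := by
  have h1 : ‖(s : ℂ) * ω‖ ≤ ‖ω‖ := by
    rw [norm_mul, Complex.norm_real, Real.norm_eq_abs, abs_of_pos hs0]
    have := norm_nonneg ω
    nlinarith
  have h2 : ‖-(1 - (s : ℂ)) * ω‖ ≤ ‖ω‖ := by
    have e : (1 - (s : ℂ)) = ((1 - s : ℝ) : ℂ) := by push_cast; ring
    rw [norm_mul, norm_neg, e, Complex.norm_real, Real.norm_eq_abs, abs_of_pos (by linarith)]
    have := norm_nonneg ω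
    nlinarith
  unfold tm
  rw [norm_mul, norm_mul, Complex.norm_conj, norm_div, norm_div, norm_pow, norm_pow,
    Complex.norm_natCast, Complex.norm_natCast, Complex.norm_real, Real.norm_eq_abs,
    abs_of_nonneg (wi_nonneg _ _)]
  have h3 : ‖(s : ℂ) * ω‖ ^ i.1 / (i.1.factorial : ℝ) ≤ ‖ω‖ ^ i.1 / (i.1.factorial : ℝ) := by
    gcongr
  have h4 : ‖-(1 - (s : ℂ)) * ω‖ ^ i.2 / (i.2.factorial : ℝ) ≤ ‖ω‖ ^ i.2 / (i.2.factorial : ℝ) := by
    gcongr
  calc wi i.1 i.2 * (‖(s : ℂ) * ω‖ ^ i.1 / (i.1.factorial : ℝ) *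
        (‖-(1 - (s : ℂ)) * ω‖ ^ i.2 / (i.2.factorial : ℝ))) ≤
      1 * ((‖ω‖ ^ i.1 / (i.1.factorial : ℝ)) * (‖ω‖ ^ i.2 / (i.2.factorial : ℝ))) := by
        refine mul_le_mul (wi_le _ _) (mul_le_mul h3 h4 (by positivity) (by positivity))
          (by positivity) zero_le_one
    _ = _ := one_mul _

lemma summ (R : ℝ) (hR : 0 ≤ R) : Summable (fun i : ℕ × ℕ =>
    (R ^ i.1 / (i.1.factorial : ℝ)) * (R ^ i.2 / (i.2.factorial : ℝ))) :=
  (Real.summable_pow_div_factorial R).mul_of_nonneg (Real.summable_pow_div_factorial R)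
    (fun _ => by positivity) (fun _ => by positivity)

lemma cont_tm (s : ℝ) (i : ℕ × ℕ) : Continuous (fun ω => tm s ω i) := by
  unfold tm
  fun_prop

end Pool.Agent.H928.BX.G

namespace Pool.Agent.H928.BX

open G

theorem g_props : S_G := by
  intro s hs0 hs1
  constructor
  · rw [continuous_iff_continuousAt]
    intro ω0
    have h1 : ContinuousOn (fun ω => ∑' i : ℕ × ℕ, tm s ω i) (ball (0 : ℂ) (‖ω0‖ + 1)) := by
      refine continuousOn_tsum (fun i => (cont_tm s i).continuousOn)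
        (summ (‖ω0‖ + 1) (by positivity)) ?_
      intro i ω hω
      rw [mem_ball_zero_iff] at hω
      refine (norm_tm hs0 hs1 ω i).trans ?_
      gcongr
    exact h1.continuousAt (isOpen_ball.mem_nhds (by rw [mem_ball_zero_iff]; linarith))
  · refine ⟨∑' i : ℕ × ℕ, (1 ^ i.1 / (i.1.factorial : ℝ)) * (1 ^ i.2 / (i.2.factorial : ℝ)),
      fun ω hω => ?_⟩
    have hsum : Summable (fun i => tm s ω i) :=
      Summable.of_norm_bounded (summ ‖ω‖ (norm_nonneg _)) (norm_tm hs0 hs1 ω)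
    have e1 : G s ω = tm s ω (1, 0) + ∑' i, (if i = (1, 0) then 0 else tm s ω i) :=
      hsum.tsum_eq_add_tsum_ite (1, 0)
    have e2 : tm s ω (1, 0) = s * ω := by
      unfold tm wi
      simp
    rw [e1, e2, add_sub_cancel_left, mul_comm]
    have h3 := (summ 1 zero_le_one).hasSum.mul_left (‖ω‖ ^ 2)
    refine tsum_of_norm_bounded h3 ?_
    rintro ⟨a, b⟩
    split_ifs with h
    · rw [norm_zero]
      positivity
    · by_cases h2 : 2 ≤ a + b
      · refine (norm_tm hs0 hs1 ω (a, b)).trans ?_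
        have h5 : ‖ω‖ ^ (a + b) ≤ ‖ω‖ ^ 2 := pow_le_pow_of_le_one (norm_nonneg _) hω h2
        have e3 : ‖ω‖ ^ a / (a.factorial : ℝ) * (‖ω‖ ^ b / (b.factorial : ℝ)) =
            ‖ω‖ ^ (a + b) * ((1 / (a.factorial : ℝ)) * (1 / (b.factorial : ℝ))) := by
          rw [pow_add]
          ring
        simp only [one_pow]
        rw [e3]
        gcongr
      · have h6 : ¬ b < a := by
          intro h7
          apply h
          rw [Prod.mk.injEq]
          omega
        have e4 : tm s ω (a, b) = 0 := by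
          unfold tm wi
          simp only
          rw [if_neg h6]
          simp
        rw [e4, norm_zero]
        positivity

end Pool.Agent.H928.BX
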