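import Pool.Agent.H928.BX.Stm

/-!
Task Limit (helper261): the limit of the stages.
-/

set_option autoImplicit false

open MeasureTheory Set Filter Topology Complex Metric
open scoped ComplexConjugate

namespace Pool.Agent.H928.BX

namespace Limit

theorem finite_dA : IsFiniteMeasure dA := by
  unfold dA
  exact ⟨by simp [measure_ball_lt_top]⟩

theorem integrable_of_cont {E : Type*} [NormedAddCommGroup E] {f : ℂ → E} (hf : Continuous f) :
    Integrable f dA :=
  (hf.continuousOn.integrableOn_compact (isCompact_closedBall (0 : ℂ) 1)).mono_set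
    ball_subset_closedBall

theorem ae_ball : ∀ᵐ z ∂dA, z ∈ ball (0 : ℂ) 1 := ae_restrict_mem measurableSet_ball

/-- pointwise limits with rates -/
theorem pw (ρ : ℕ → ℝ) (hρ : ∀ j, 0 < ρ j ∧ ρ j < 1) (hm : Monotone ρ) (ht : Tendsto ρ atTop (𝓝 1))
    (f : ℕ → ℂ → ℂ)
    (hf : ∀ j z, ‖z‖ ≤ ρ j → ‖f (j + 1) z - f j z‖ ≤ (1 - ρ j) * (1 / 4) ^ j) :
    ∃ g : ℂ → ℂ, (∀ j z, ‖z‖ ≤ ρ j → ‖f j z - g z‖ ≤ 2 * ((1 - ρ j) * (1 / 4) ^ j)) ∧
      (∀ z ∈ ball (0 : ℂ) 1, Tendsto (fun j => f j z) atTop (𝓝 (g z))) := by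
  have hd : ∀ (j : ℕ) (z : ℂ), ‖z‖ ≤ ρ j → ∀ n : ℕ,
      dist (f (n + j) z) (f (n + 1 + j) z) ≤ ((1 - ρ j) * (1 / 4) ^ j) * (1 / 4) ^ n := by
    intro j z hz n
    have h1 := hf (n + j) z (hz.trans (hm (Nat.le_add_left j n)))
    have e : n + 1 + j = n + j + 1 := by ring
    rw [dist_comm, dist_eq_norm, e]
    refine h1.trans ?_
    have h2 : 1 - ρ (n + j) ≤ 1 - ρ j := by
      have := hm (Nat.le_add_left j n)
      linarith
    have h3 : ((1 : ℝ) / 4) ^ (n + j) = (1 / 4) ^ j * (1 / 4) ^ n := by rw [pow_add]; ring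
    rw [h3]
    calc (1 - ρ (n + j)) * ((1 / 4) ^ j * (1 / 4) ^ n)
        ≤ (1 - ρ j) * ((1 / 4) ^ j * (1 / 4) ^ n) := by gcongr
      _ = _ := by ring
  have hex : ∀ z : ℂ, ∃ a : ℂ, z ∈ ball (0 : ℂ) 1 → Tendsto (fun j => f j z) atTop (𝓝 a) := by
    intro z
    by_cases hz : z ∈ ball (0 : ℂ) 1
    · rw [mem_ball_zero_iff] at hz
      obtain ⟨j, hj⟩ := (ht.eventually (lt_mem_nhds hz)).exists
      have hc : CauchySeq (fun n => f (n + j) z) :=
        cauchySeq_of_le_geometric (1 / 4) _ (by norm_num) (hd j z hj.le)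
      obtain ⟨a, ha⟩ := cauchySeq_tendsto_of_complete hc
      exact ⟨a, fun _ => (tendsto_add_atTop_iff_nat (f := fun j => f j z) j).1 ha⟩
    · exact ⟨0, fun h => absurd h hz⟩
  choose g hg using hex
  refine ⟨g, fun j z hz => ?_, fun z hz => hg z hz⟩
  have hzb : z ∈ ball (0 : ℂ) 1 := by
    rw [mem_ball_zero_iff]
    exact hz.trans_lt (hρ j).2
  have ha : Tendsto (fun n => f (n + j) z) atTop (𝓝 (g z)) :=
    (tendsto_add_atTop_iff_nat (f := fun j => f j z) j).2 (hg z hzb)
  have h := dist_le_of_le_geometric_of_tendsto₀ (1 / 4) _ (by norm_num) (hd j z hz) ha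
  rw [zero_add, dist_eq_norm] at h
  refine h.trans ?_
  have h0 : 0 ≤ (1 - ρ j) * (1 / 4) ^ j :=
    mul_nonneg (by linarith [(hρ j).2]) (by positivity)
  rw [div_le_iff₀ (by norm_num)]
  linarith

theorem lu (ρ : ℕ → ℝ) (hρ : ∀ j, 0 < ρ j ∧ ρ j < 1) (hm : Monotone ρ) (ht : Tendsto ρ atTop (𝓝 1))
    (f : ℕ → ℂ → ℂ) (g : ℂ → ℂ)
    (hg : ∀ j z, ‖z‖ ≤ ρ j → ‖f j z - g z‖ ≤ 2 * ((1 - ρ j) * (1 / 4) ^ j))
    (hd : ∀ j, DifferentiableOn ℂ (f j) (ball 0 1)) : DifferentiableOn ℂ g (ball 0 1) := by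
  refine TendstoLocallyUniformlyOn.differentiableOn (F := f) (φ := atTop) ?_
    (Eventually.of_forall hd) isOpen_ball
  rw [Metric.tendstoLocallyUniformlyOn_iff]
  intro ε hε x hx
  rw [mem_ball_zero_iff] at hx
  obtain ⟨j, hj⟩ := (ht.eventually (lt_mem_nhds hx)).exists
  refine ⟨ball 0 (ρ j), mem_nhdsWithin_of_mem_nhds (isOpen_ball.mem_nhds (by
    rwa [mem_ball_zero_iff])), ?_⟩
  have hp : Tendsto (fun n : ℕ => 2 * ((1 : ℝ) / 4) ^ n) atTop (𝓝 0) := by
    have := (tendsto_pow_atTop_nhds_zero_of_lt_one (r := (1 : ℝ) / 4) (by norm_num)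
      (by norm_num)).const_mul 2
    simpa using this
  filter_upwards [eventually_ge_atTop j, hp.eventually (gt_mem_nhds hε)] with n hn hn2 y hy
  rw [mem_ball_zero_iff] at hy
  have h1 := hg n y (hy.le.trans (hm hn))
  rw [dist_comm, dist_eq_norm]
  refine h1.trans_lt (lt_of_le_of_lt ?_ hn2)
  have h2 : 1 - ρ n ≤ 1 := by linarith [(hρ n).1]
  have h3 : (0 : ℝ) ≤ (1 / 4) ^ n := by positivity
  nlinarith

theorem U_eq (s : ℝ) (q : ℂ) : ((‖exp q‖ ^ (2 * s - 2) : ℝ) : ℂ) * exp q = U s q := by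
  unfold U
  rw [Complex.norm_exp, ← Real.exp_mul, ofReal_exp, ← Complex.exp_add]
  congr 1
  have h : (2 : ℂ) * (q.re : ℂ) = q + conj q := by
    rw [Complex.add_conj]; push_cast; ring
  push_cast
  have : (q.re : ℂ) = (q + conj q) / 2 := by rw [← h]; ring
  rw [this]
  ring

/-- the map `x ↦ ‖x‖^(2s-2) x` -/
noncomputable def φ (s : ℝ) (x : ℂ) : ℂ := ((‖x‖ ^ (2 * s - 2) : ℝ) : ℂ) * x

theorem norm_φ_le (s : ℝ) (hs : 1 / 2 < s) (x : ℂ) : ‖φ s x‖ ≤ ‖x‖ ^ (2 * s - 1) := by
  unfold φ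
  by_cases hx : x = 0
  · rw [hx]; simp [Real.zero_rpow (show 2 * s - 1 ≠ 0 by linarith)]
  · have h0 : 0 < ‖x‖ := norm_pos_iff.2 hx
    rw [norm_mul, Complex.norm_real, Real.norm_of_nonneg (by positivity)]
    have : ‖x‖ ^ (2 * s - 1) = ‖x‖ ^ (2 * s - 2) * ‖x‖ := by
      rw [show 2 * s - 1 = (2 * s - 2) + 1 by ring, Real.rpow_add_one h0.ne']
    rw [this]

theorem rpow_le (x a : ℝ) (hx : 0 ≤ x) (ha : 0 ≤ a) (ha2 : a ≤ 2) : x ^ a ≤ 1 + x ^ 2 := by
  rcases le_total x 1 with h | h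
  · have := Real.rpow_le_one hx h ha
    nlinarith [sq_nonneg x]
  · have := Real.rpow_le_rpow_of_exponent_le h ha2
    rw [Real.rpow_two] at this
    linarith

theorem norm_φ_le' (s : ℝ) (hs : 1 / 2 < s) (hs1 : s < 1) (x : ℂ) : ‖φ s x‖ ≤ 1 + ‖x‖ ^ 2 :=
  (norm_φ_le s hs x).trans (rpow_le _ _ (norm_nonneg _) (by linarith) (by linarith))

theorem continuous_φ (s : ℝ) (hs : 1 / 2 < s) : Continuous (φ s) := by
  rw [continuous_iff_continuousAt]
  intro x
  by_cases hx : x = 0
  · subst hx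
    have h0 : φ s 0 = 0 := by simp [φ]
    rw [ContinuousAt, h0]
    apply squeeze_zero_norm (norm_φ_le s hs)
    have hc : Continuous (fun x : ℂ => ‖x‖ ^ (2 * s - 1)) :=
      continuous_norm.rpow_const (fun _ => Or.inr (by linarith))
    have := hc.tendsto 0
    rwa [norm_zero, Real.zero_rpow (show 2 * s - 1 ≠ 0 by linarith)] at this
  · unfold φ
    refine ContinuousAt.mul ?_ continuousAt_id
    refine Complex.continuous_ofReal.continuousAt.comp ?_
    exact continuous_norm.continuousAt.rpow_const (Or.inl (norm_ne_zero_iff.2 hx))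

/-- an integrable bound for all `‖F_n‖^2` -/
theorem dom (f : ℕ → ℂ → ℂ) (hf : ∀ j, Continuous (f j))
    (hl : ∀ j, ∫ z, ‖f (j + 1) z - f j z‖ ^ 2 ∂dA ≤ (1 / 4) ^ j) :
    ∃ G : ℂ → ℝ, Integrable G dA ∧ ∀ᵐ z ∂dA, ∀ n, ‖f n z‖ ^ 2 ≤ G z := by
  set d : ℕ → ℂ → ℝ := fun j z => (2 : ℝ) ^ j * ‖f (j + 1) z - f j z‖ ^ 2 with hd
  have hdc : ∀ j, Continuous (d j) := fun j =>
    continuous_const.mul (((hf (j + 1)).sub (hf j)).norm.pow 2)
  have hd0 : ∀ j z, 0 ≤ d j z := fun j z => by positivity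
  set g : ℂ → ENNReal := fun z => ∑' j, ENNReal.ofReal (d j z) with hg
  have hgm : Measurable g := Measurable.ennreal_tsum fun j => (hdc j).measurable.ennreal_ofReal
  have hint : ∫⁻ z, g z ∂dA ≠ ⊤ := by
    rw [hg, lintegral_tsum fun j => (hdc j).measurable.ennreal_ofReal.aemeasurable]
    have hle : ∀ j, ∫⁻ z, ENNReal.ofReal (d j z) ∂dA ≤ ENNReal.ofReal ((1 / 2) ^ j) := by
      intro j
      rw [← ofReal_integral_eq_lintegral_ofReal (integrable_of_cont (hdc j))
        (Eventually.of_forall (hd0 j))]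
      apply ENNReal.ofReal_le_ofReal
      rw [hd]
      simp only
      rw [integral_const_mul]
      calc (2 : ℝ) ^ j * ∫ z, ‖f (j + 1) z - f j z‖ ^ 2 ∂dA ≤ 2 ^ j * (1 / 4) ^ j := by
            gcongr
            exact hl j
        _ = (1 / 2) ^ j := by rw [← mul_pow]; norm_num
    refine ne_top_of_le_ne_top ?_ (ENNReal.tsum_le_tsum hle)
    exact (summable_geometric_of_lt_one (by norm_num) (by norm_num)).tsum_ofReal_ne_top
  have hgi : Integrable (fun z => (g z).toReal) dA :=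
    integrable_toReal_of_lintegral_ne_top hgm.aemeasurable hint
  refine ⟨fun z => 2 * ‖f 0 z‖ ^ 2 + 4 * (g z).toReal,
    ((integrable_of_cont (((hf 0).norm.pow 2))).const_mul 2).add (hgi.const_mul 4), ?_⟩
  filter_upwards [ae_lt_top hgm hint] with z hz n
  have h1 : ‖f n z‖ ≤ ‖f 0 z‖ + ∑ j ∈ Finset.range n, ‖f (j + 1) z - f j z‖ := by
    induction n with
    | zero => simp
    | succ n ih =>
      rw [Finset.sum_range_succ]
      have : ‖f (n + 1) z‖ ≤ ‖f n z‖ + ‖f (n + 1) z - f n z‖ := by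
        have := norm_add_le (f n z) (f (n + 1) z - f n z)
        rwa [add_sub_cancel] at this
      linarith
  have h2 : (∑ j ∈ Finset.range n, ‖f (j + 1) z - f j z‖) ^ 2 ≤
      (∑ j ∈ Finset.range n, ((1 : ℝ) / 2) ^ j) * ∑ j ∈ Finset.range n, d j z := by
    apply Finset.sum_sq_le_sum_mul_sum_of_sq_le_mul
    · intro j _; positivity
    · intro j _; exact hd0 j z
    · intro j _
      rw [hd]
      simp only
      rw [← mul_assoc, ← mul_pow]
      norm_num
  have h3 : ∑ j ∈ Finset.range n, ((1 : ℝ) / 2) ^ j ≤ 2 := by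
    have := (summable_geometric_of_lt_one (r := (1 : ℝ) / 2) (by norm_num)
      (by norm_num)).sum_le_tsum (Finset.range n) (fun i _ => by positivity)
    rw [tsum_geometric_of_lt_one (by norm_num) (by norm_num)] at this
    norm_num at this ⊢
    linarith
  have h4 : ∑ j ∈ Finset.range n, d j z ≤ (g z).toReal := by
    have h5 : ENNReal.ofReal (∑ j ∈ Finset.range n, d j z) ≤ g z := by
      rw [ENNReal.ofReal_sum_of_nonneg fun j _ => hd0 j z]
      exact ENNReal.sum_le_tsum _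
    rw [← ENNReal.ofReal_le_iff_le_toReal hz.ne]
    exact h5
  have h5 : 0 ≤ ∑ j ∈ Finset.range n, d j z := Finset.sum_nonneg fun j _ => hd0 j z
  have h6 : 0 ≤ ∑ j ∈ Finset.range n, ‖f (j + 1) z - f j z‖ :=
    Finset.sum_nonneg fun j _ => norm_nonneg _
  have h7 : (∑ j ∈ Finset.range n, ‖f (j + 1) z - f j z‖) ^ 2 ≤ 2 * (g z).toReal :=
    h2.trans (mul_le_mul h3 h4 h5 (by norm_num))
  have h8 := norm_nonneg (f n z)
  have h9 := norm_nonneg (f 0 z)
  nlinarith [sq_nonneg (‖f 0 z‖ - ∑ j ∈ Finset.range n, ‖f (j + 1) z - f j z‖)]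

end Limit

open Limit in
theorem limit (h : S_SEQ) : S_LIMIT := by
  intro s hs hs1
  obtain ⟨Q, k, ρ, z, hG, hρ, hm, ht, hC, hz⟩ := h s hs hs1
  haveI := finite_dA
  set f : ℕ → ℂ → ℂ := fun j z => exp (Q j z) with hf
  have hfd : ∀ j, Differentiable ℂ (f j) := fun j => (hG j).diff.cexp
  obtain ⟨F, hF, hFt⟩ := pw ρ hρ hm ht f (fun j z hz => (hC j).q z hz)
  obtain ⟨K, hK, hKt⟩ := pw ρ hρ hm ht k (fun j z hz => (hC j).k z hz)
  have hFd : DifferentiableOn ℂ F (ball 0 1) :=
    lu ρ hρ hm ht f F hF (fun j => (hfd j).differentiableOn)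
  have hKd : DifferentiableOn ℂ K (ball 0 1) :=
    lu ρ hρ hm ht k K hK (fun j => (hG j).proj.diff)
  have hle1 : ∀ j, (1 - ρ j) * (1 / 4) ^ j ≤ (1 / 4) ^ j := by
    intro j
    have h2 : 1 - ρ j ≤ 1 := by linarith [(hρ j).1]
    have h3 : (0 : ℝ) ≤ (1 / 4) ^ j := by positivity
    nlinarith
  obtain ⟨G, hGi, hGb⟩ := dom f (fun j => (hfd j).continuous)
    (fun j => ((hC j).l2).trans (hle1 j))
  -- the kernels are bounded by one
  have hk1 : ∀ j, ∀ z ∈ ball (0 : ℂ) 1, ‖k j z‖ ≤ 1 := by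
    intro j z hz
    have hd : DiffContOnCl ℂ (k j) (ball 0 1) :=
      DiffContOnCl.mk_ball (hG j).proj.diff (hG j).proj.cont
    refine Complex.norm_le_of_forall_mem_frontier_norm_le isBounded_ball hd ?_
      (subset_closure hz)
    intro w hw
    rw [frontier_ball (0 : ℂ) one_ne_zero, mem_sphere_zero_iff_norm] at hw
    exact ((hG j).lt w hw).le
  have hK1 : ∀ z ∈ ball (0 : ℂ) 1, ‖K z‖ ≤ 1 := fun z hz =>
    le_of_tendsto (hKt z hz).norm (Eventually.of_forall fun j => hk1 j z hz)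
  -- square bound for the limit
  have hFG : ∀ᵐ z ∂dA, ‖F z‖ ^ 2 ≤ G z := by
    filter_upwards [ae_ball, hGb] with z hz hb
    exact le_of_tendsto ((hFt z hz).norm.pow 2) (Eventually.of_forall hb)
  have hmeasF : AEStronglyMeasurable F dA := hFd.continuousOn.aestronglyMeasurable measurableSet_ball
  refine ⟨F, K, hFd, ?_, ?_, hKd, hK1, ?_⟩
  · -- integrability
    have hmeas : AEStronglyMeasurable (fun z => ‖F z‖ ^ (2 * s)) dA := by
      have hc : Continuous (fun x : ℝ => x ^ (2 * s)) :=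
        Real.continuous_rpow_const (by linarith)
      exact hc.comp_aestronglyMeasurable hmeasF.norm
    refine ((integrable_const (1 : ℝ)).add hGi).mono' hmeas ?_
    filter_upwards [hFG] with z hz
    rw [Real.norm_of_nonneg (by positivity)]
    refine (rpow_le _ _ (norm_nonneg _) (by linarith) (by linarith)).trans ?_
    simp only [Pi.add_apply]
    linarith
  · -- not Bloch
    rintro ⟨-, C, hC'⟩
    obtain ⟨j, hj⟩ := exists_nat_gt (C + 1)
    obtain ⟨hzj, hzρ, hzd⟩ := hz j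
    have hb := hC' (z j) hzj
    have hzj' := hzj
    rw [mem_ball_zero_iff] at hzj'
    set R : ℝ := 1 - ρ (j + 1) with hR
    have hRpos : 0 < R := by linarith [(hρ (j + 1)).2]
    have hsub : closedBall (z j) R ⊆ closedBall 0 (ρ (j + 1)) := by
      intro w hw
      rw [mem_closedBall_zero_iff]
      rw [mem_closedBall, dist_eq_norm] at hw
      have := norm_add_le (w - z j) (z j)
      rw [sub_add_cancel] at this
      linarith
    have hsubb : closedBall (z j) R ⊆ ball 0 1 := fun w hw => by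
      have := hsub hw
      rw [mem_closedBall_zero_iff] at this
      rw [mem_ball_zero_iff]
      exact this.trans_lt (hρ (j + 1)).2
    have hdd : DifferentiableOn ℂ (fun w => f (j + 1) w - F w) (ball 0 1) :=
      (hfd (j + 1)).differentiableOn.sub hFd
    have hcl : DiffContOnCl ℂ (fun w => f (j + 1) w - F w) (ball (z j) R) :=
      DiffContOnCl.mk_ball (hdd.mono (ball_subset_closedBall.trans hsubb))
        (hdd.continuousOn.mono hsubb)
    have hcau := Complex.norm_deriv_le_of_forall_mem_sphere_norm_le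
      (C := 2 * (R * (1 / 4) ^ (j + 1))) hRpos hcl (by
        intro w hw
        refine hF (j + 1) w ?_
        have := hsub (sphere_subset_closedBall hw)
        rwa [mem_closedBall_zero_iff] at this)
    have hFat : DifferentiableAt ℂ F (z j) := hFd.differentiableAt (isOpen_ball.mem_nhds hzj)
    have hder : deriv (fun w => f (j + 1) w - F w) (z j) =
        deriv (f (j + 1)) (z j) - deriv F (z j) :=
      deriv_fun_sub ((hfd (j + 1)) (z j)) hFat
    rw [hder] at hcau
    have hcau1 : ‖deriv (f (j + 1)) (z j) - deriv F (z j)‖ ≤ 1 := by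
      refine hcau.trans ?_
      have e : 2 * (R * (1 / 4) ^ (j + 1)) / R = 2 * (1 / 4) ^ (j + 1) := by
        field_simp
      rw [e, pow_succ]
      have : ((1 : ℝ) / 4) ^ j ≤ 1 := pow_le_one₀ (by norm_num) (by norm_num)
      linarith
    have htri : ‖deriv (f (j + 1)) (z j)‖ ≤ ‖deriv F (z j)‖ + 1 := by
      have := norm_add_le (deriv (f (j + 1)) (z j) - deriv F (z j)) (deriv F (z j))
      rw [sub_add_cancel] at this
      linarith
    have hw0 : 0 ≤ 1 - ‖z j‖ ^ 2 := by nlinarith [norm_nonneg (z j)]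
    have hw1 : 1 - ‖z j‖ ^ 2 ≤ 1 := by nlinarith [sq_nonneg ‖z j‖]
    have hfin : (j : ℝ) ≤ (1 - ‖z j‖ ^ 2) * ‖deriv (f (j + 1)) (z j)‖ := hzd
    nlinarith [mul_le_mul_of_nonneg_left htri hw0]
  · -- moments
    intro m
    have hmm : ∀ j, ∫ z, z ^ m * conj (φ s (f j z)) ∂dA = ∫ z, z ^ m * conj (k j z) ∂dA := by
      intro j
      rw [← (hG j).proj.mom m]
      refine integral_congr_ae (Eventually.of_forall fun z => ?_)
      simp only [φ, hf]
      rw [U_eq]
    have hb1 : ∀ z ∈ ball (0 : ℂ) 1, ‖z ^ m‖ ≤ 1 := by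
      intro z hz
      rw [mem_ball_zero_iff] at hz
      rw [norm_pow]
      exact pow_le_one₀ (norm_nonneg _) hz.le
    have hL : Tendsto (fun j => ∫ z, z ^ m * conj (φ s (f j z)) ∂dA) atTop
        (𝓝 (∫ z, z ^ m * conj (φ s (F z)) ∂dA)) := by
      refine tendsto_integral_of_dominated_convergence (fun z => 1 + G z) ?_
        ((integrable_const (1 : ℝ)).add hGi) ?_ ?_
      · intro j
        have hc : Continuous (fun z => z ^ m * conj (φ s (f j z))) :=
          (continuous_id.pow m).mul (Complex.continuous_conj.comp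
            ((continuous_φ s hs).comp (hfd j).continuous))
        exact hc.aestronglyMeasurable
      · intro j
        filter_upwards [ae_ball, hGb] with z hz hb
        rw [norm_mul, RCLike.norm_conj]
        have h1 := norm_φ_le' s hs hs1 (f j z)
        have h2 := hb1 z hz
        have h3 := hb j
        have h4 := norm_nonneg (φ s (f j z))
        nlinarith
      · filter_upwards [ae_ball] with z hz
        exact tendsto_const_nhds.mul ((Complex.continuous_conj.tendsto _).comp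
          (((continuous_φ s hs).tendsto _).comp (hFt z hz)))
    have hRt : Tendsto (fun j => ∫ z, z ^ m * conj (k j z) ∂dA) atTop
        (𝓝 (∫ z, z ^ m * conj (K z) ∂dA)) := by
      refine tendsto_integral_of_dominated_convergence (fun _ => 1) ?_
        (integrable_const (1 : ℝ)) ?_ ?_
      · intro j
        have hc : ContinuousOn (fun z => z ^ m * conj (k j z)) (ball 0 1) :=
          (continuous_id.pow m).continuousOn.mul (Complex.continuous_conj.comp_continuousOn
            (hG j).proj.diff.continuousOn)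
        exact hc.aestronglyMeasurable measurableSet_ball
      · intro j
        filter_upwards [ae_ball] with z hz
        rw [norm_mul, RCLike.norm_conj]
        have h2 := hb1 z hz
        have h3 := hk1 j z hz
        have h4 := norm_nonneg (k j z)
        nlinarith [norm_nonneg (z ^ m)]
      · filter_upwards [ae_ball] with z hz
        exact tendsto_const_nhds.mul ((Complex.continuous_conj.tendsto _).comp (hKt z hz))
    have := tendsto_nhds_unique hL ((tendsto_congr hmm).2 hRt)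
    exact this

end Pool.Agent.H928.BX
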