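import Pool.Agent.H928.BX.Stm

set_option autoImplicit false

open MeasureTheory Set Filter Topology Complex Metric
open scoped ComplexConjugate

namespace Pool.Agent.H928.BX

namespace Open

lemma continuous_U (s : ℝ) : Continuous (U s) := by
  unfold U
  exact Complex.continuous_exp.comp ((continuous_const.mul continuous_id).sub
    (continuous_const.mul Complex.continuous_conj))

/-- from an eventual statement near `(κ, q)` to a `δ` -/
lemma exists_delta {P : ℂ → ℂ → Prop} {κ q : ℂ}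
    (h : ∀ᶠ x : ℂ × ℂ in 𝓝 (κ, q), P x.1 x.2) :
    ∃ δ > (0 : ℝ), ∀ κ' q' : ℂ, ‖κ' - κ‖ < δ → ‖q' - q‖ < δ → P κ' q' := by
  obtain ⟨δ, hδ, H⟩ := Metric.eventually_nhds_iff.1 h
  refine ⟨δ, hδ, fun κ' q' h1 h2 => ?_⟩
  have : dist ((κ', q') : ℂ × ℂ) (κ, q) < δ := by
    rw [Prod.dist_eq, max_lt_iff]
    refine ⟨?_, ?_⟩
    · simpa [dist_eq_norm] using h1
    · simpa [dist_eq_norm] using h2
  exact H this

end Open

open Open

theorem win_open (_hG : S_G) : S_OPEN := by
  intro s _ _ A M κ q hw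
  apply exists_delta (P := fun κ' q' => Win s A M κ' q')
  induction hw with
  | base κ q h1 h2 =>
    have c1 : Continuous (fun x : ℂ × ℂ => ‖x.1‖) := continuous_fst.norm
    have c2 : Continuous (fun x : ℂ × ℂ => ‖U s x.2‖) :=
      ((continuous_U s).comp continuous_snd).norm
    have e1 : ∀ᶠ x : ℂ × ℂ in 𝓝 (κ, q), ‖x.1‖ < 1 / 2 :=
      c1.continuousAt.eventually_lt continuousAt_const h1
    have e2 : ∀ᶠ x : ℂ × ℂ in 𝓝 (κ, q), M < ‖U s x.2‖ :=
      continuousAt_const.eventually_lt c2.continuousAt h2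
    filter_upwards [e1, e2] with x a b
    exact Win.base x.1 x.2 a b
  | step κ q ω h1 h2 h3 h4 _ ih =>
    have cU : Continuous (fun x : ℂ × ℂ => U s x.2) := (continuous_U s).comp continuous_snd
    have c1 : Continuous (fun x : ℂ × ℂ => ‖x.1‖) := continuous_fst.norm
    have c2 : Continuous (fun x : ℂ × ℂ => A * ‖U s x.2‖ * ‖ω‖) :=
      (continuous_const.mul cU.norm).mul continuous_const
    have e1 : ∀ᶠ x : ℂ × ℂ in 𝓝 (κ, q), ‖x.1‖ < 1 :=
      c1.continuousAt.eventually_lt continuousAt_const h1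
    have e2 : ∀ᶠ x : ℂ × ℂ in 𝓝 (κ, q), A * ‖U s x.2‖ * ‖ω‖ < 1 - ‖x.1‖ :=
      c2.continuousAt.eventually_lt (continuous_const.sub c1).continuousAt h4
    have cF : Continuous (fun x : ℂ × ℂ => ((x.1 + U s x.2 * G s ω, x.2 + ω) : ℂ × ℂ)) :=
      (continuous_fst.add (cU.mul continuous_const)).prodMk (continuous_snd.add continuous_const)
    have e3 : ∀ᶠ x : ℂ × ℂ in 𝓝 (κ, q), Win s A M (x.1 + U s x.2 * G s ω) (x.2 + ω) :=
      (cF.tendsto (κ, q)).eventually ih
    filter_upwards [e1, e2, e3] with x a b c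
    exact Win.step x.1 x.2 ω a h2 h3 b c

end Pool.Agent.H928.BX
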