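import Pool.Agent.H928.BX.Stm

/-! T8: outer functions with prescribed modulus (helper52). -/

set_option autoImplicit false

open MeasureTheory Set Filter Topology Complex Metric
open scoped ComplexConjugate

namespace Pool.Agent.H928.BX.Outer

theorem fourier_nonneg (n : ℕ) (x : AddCircle (2 * Real.pi)) :
    fourier (n : ℤ) x = ((AddCircle.toCircle x : Circle) : ℂ) ^ n := by
  rw [fourier_apply, natCast_zsmul, AddCircle.toCircle_nsmul, Circle.coe_pow]

theorem fourier_negn (n : ℕ) (x : AddCircle (2 * Real.pi)) :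
    fourier (-(n : ℤ)) x = conj (((AddCircle.toCircle x : Circle) : ℂ) ^ n) := by
  rw [fourier_neg, fourier_nonneg]

theorem re_span (g : C(AddCircle (2 * Real.pi), ℂ))
    (hg : g ∈ Submodule.span ℂ (range (fourier (T := 2 * Real.pi)))) :
    ∀ c : ℂ, ∃ H : ℂ → ℂ, Differentiable ℂ H ∧
      ∀ x : AddCircle (2 * Real.pi), (c * g x).re = (H ((AddCircle.toCircle x : Circle) : ℂ)).re := by
  induction hg using Submodule.span_induction with
  | mem g hg =>
    obtain ⟨n, rfl⟩ := hg
    intro c
    obtain ⟨k, rfl | rfl⟩ := n.eq_nat_or_neg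
    · refine ⟨fun z => c * z ^ k, by fun_prop, fun x => ?_⟩
      rw [fourier_nonneg]
    · refine ⟨fun z => conj c * z ^ k, by fun_prop, fun x => ?_⟩
      rw [fourier_negn]
      rw [← Complex.conj_re (c * _), map_mul, Complex.conj_conj]
  | zero =>
    intro c
    exact ⟨fun _ => 0, by fun_prop, fun x => by simp⟩
  | add g g' _ _ ih ih' =>
    intro c
    obtain ⟨H, hH, h⟩ := ih c
    obtain ⟨H', hH', h'⟩ := ih' c
    refine ⟨fun z => H z + H' z, hH.add hH', fun x => ?_⟩
    rw [ContinuousMap.add_apply, mul_add, Complex.add_re, Complex.add_re, h, h']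
  | smul a g _ ih =>
    intro c
    obtain ⟨H, hH, h⟩ := ih (c * a)
    refine ⟨H, hH, fun x => ?_⟩
    rw [← h x, ContinuousMap.smul_apply, smul_eq_mul, mul_assoc]

theorem toCircle_surj (z : Circle) : ∃ x : AddCircle (2 * Real.pi), AddCircle.toCircle x = z := by
  refine ⟨((Complex.arg (z : ℂ) : ℝ) : AddCircle (2 * Real.pi)), ?_⟩
  rw [AddCircle.toCircle_apply_mk, div_self (by positivity), one_mul, Circle.exp_arg]

end Outer

open Outer in
/-- T8 -/
theorem outer : S_OUTER := by
  intro r hr hpos η hη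
  have hfact : Fact (0 < 2 * Real.pi) := ⟨by positivity⟩
  have hmem : ∀ z : Circle, (z : ℂ) ∈ sphere (0 : ℂ) 1 := fun z => by
    rw [mem_sphere_zero_iff_norm]
    exact Circle.norm_coe z
  have hc1 : Continuous (fun z : Circle => r (z : ℂ)) :=
    hr.comp_continuous continuous_subtype_val hmem
  have hc2 : Continuous (fun z : Circle => Real.log (r (z : ℂ)) - η / 2) :=
    (hc1.log fun z => (hpos _ (hmem z)).ne').sub continuous_const
  let F : C(AddCircle (2 * Real.pi), ℂ) :=
    ⟨fun x => ((Real.log (r ((AddCircle.toCircle x : Circle) : ℂ)) - η / 2 : ℝ) : ℂ),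
      Complex.continuous_ofReal.comp (hc2.comp AddCircle.continuous_toCircle)⟩
  have hF : F ∈ closure ((Submodule.span ℂ (range (fourier (T := 2 * Real.pi))) :
      Submodule ℂ C(AddCircle (2 * Real.pi), ℂ)) : Set C(AddCircle (2 * Real.pi), ℂ)) := by
    rw [← Submodule.topologicalClosure_coe, span_fourier_closure_eq_top]
    exact Submodule.mem_top
  obtain ⟨g, hg, hgF⟩ := Metric.mem_closure_iff.1 hF (η / 2) (by positivity)
  obtain ⟨H, hH, h⟩ := re_span g hg 1
  refine ⟨H, hH, fun z hz => ?_⟩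
  have hrz := hpos z hz
  rw [mem_sphere_zero_iff_norm] at hz
  obtain ⟨x, hx⟩ := toCircle_surj ⟨z, mem_sphere_zero_iff_norm.2 hz⟩
  have hxz : ((AddCircle.toCircle x : Circle) : ℂ) = z := by rw [hx]
  have h1 := h x
  rw [one_mul, hxz] at h1
  have h2 : ‖F x - g x‖ < η / 2 := lt_of_le_of_lt ((F - g).norm_coe_le_norm x) (by
    rw [← dist_eq_norm]; exact hgF)
  have h3 : F x = ((Real.log (r z) - η / 2 : ℝ) : ℂ) := by
    show ((Real.log (r ((AddCircle.toCircle x : Circle) : ℂ)) - η / 2 : ℝ) : ℂ) = _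
    rw [hxz]
  have h4 : |Real.log (r z) - η / 2 - (H z).re| < η / 2 := by
    have h5 := (Complex.abs_re_le_norm (F x - g x)).trans_lt h2
    rwa [Complex.sub_re, h3, Complex.ofReal_re, h1] at h5
  rw [abs_lt] at h4
  rw [Complex.norm_exp]
  constructor
  · rw [← Real.exp_log hrz, ← Real.exp_add]
    apply Real.exp_le_exp.2
    linarith
  · rw [← Real.exp_log hrz]
    apply Real.exp_le_exp.2
    linarith

end Pool.Agent.H928.BX
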