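import Pool.Agent.H928.BX.Stm

/-!
# All phases occur near every boundary point
-/

set_option autoImplicit false

open MeasureTheory Set Filter Topology Complex Metric
open scoped ComplexConjugate

namespace Pool.Agent.H928.BX

theorem phase : S_PHASE := by
  intro B hB z0 hz0 ω hω ε hε
  by_cases h0 : B z0 = 0
  · refine Eventually.of_forall fun n => ⟨z0, hz0, ?_, ?_⟩
    · rw [sub_self, norm_zero]
      exact hε.le
    · rw [h0, norm_zero, norm_eq_zero] at hω
      rw [h0, hω, mul_zero, sub_zero, norm_zero]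
      exact hε.le
  have hu : ‖ω / B z0‖ = 1 := by
    rw [norm_div, hω, div_self (norm_ne_zero_iff.2 h0)]
  obtain ⟨δ, hδ, hBδ⟩ := Metric.continuousAt_iff.1 hB.continuousAt ε hε
  have hlim : Tendsto (fun n : ℕ => Real.pi / (n : ℝ)) atTop (𝓝 0) :=
    tendsto_const_div_atTop_nhds_zero_nat Real.pi
  have hev : ∀ᶠ n : ℕ in atTop, Real.pi / (n : ℝ) < min ε δ :=
    hlim.eventually_lt_const (lt_min hε hδ)
  filter_upwards [hev, eventually_ge_atTop 1] with n hn hn1
  have hn0 : (n : ℂ) ≠ 0 := by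
    exact_mod_cast Nat.one_le_iff_ne_zero.1 hn1
  have hnpos : (0 : ℝ) < n := by
    exact_mod_cast hn1
  have hz0n : z0 ≠ 0 := by
    intro h
    rw [h, norm_zero] at hz0
    exact zero_ne_one hz0
  have hv : ‖ω / B z0 / z0 ^ n‖ = 1 := by
    rw [norm_div, hu, norm_pow, hz0, one_pow, div_one]
  set v : ℂ := ω / B z0 / z0 ^ n with hvdef
  set t : ℝ := arg v with ht
  have hexp : exp ((t : ℂ) * I) = v := by
    have := norm_mul_exp_arg_mul_I v
    rw [hv, ofReal_one, one_mul] at this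
    exact this
  have hn1' : ‖exp (I * ((t / n : ℝ) : ℂ)) - 1‖ ≤ |t / n| := by
    have := Real.norm_exp_I_mul_ofReal_sub_one_le (x := t / n)
    rwa [Real.norm_eq_abs] at this
  have ht2 : |t / n| ≤ Real.pi / n := by
    rw [abs_div, abs_of_pos hnpos]
    exact div_le_div_of_nonneg_right (abs_arg_le_pi v) hnpos.le
  have hd : ‖z0 * exp (I * ((t / n : ℝ) : ℂ)) - z0‖ < min ε δ := by
    have e : z0 * exp (I * ((t / n : ℝ) : ℂ)) - z0 = z0 * (exp (I * ((t / n : ℝ) : ℂ)) - 1) := by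
      ring
    rw [e, norm_mul, hz0, one_mul]
    exact (hn1'.trans ht2).trans_lt hn
  have hpow : (z0 * exp (I * ((t / n : ℝ) : ℂ))) ^ n = ω / B z0 := by
    rw [mul_pow, ← exp_nat_mul]
    have e : (n : ℂ) * (I * ((t / n : ℝ) : ℂ)) = (t : ℂ) * I := by
      rw [ofReal_div, ofReal_natCast]
      field_simp
    rw [e, hexp, hvdef]
    field_simp
  refine ⟨z0 * exp (I * ((t / n : ℝ) : ℂ)), ?_, (hd.trans_le (min_le_left _ _)).le, ?_⟩
  · rw [norm_mul, hz0, one_mul, mul_comm I, norm_exp_ofReal_mul_I]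
  · rw [hpow]
    have e : ω / B z0 * B (z0 * exp (I * ((t / n : ℝ) : ℂ))) - ω =
        ω / B z0 * (B (z0 * exp (I * ((t / n : ℝ) : ℂ))) - B z0) := by
      field_simp
    rw [e, norm_mul, hu, one_mul, ← dist_eq_norm]
    refine (hBδ ?_).le
    rw [dist_eq_norm]
    exact hd.trans_le (min_le_right _ _)

end Pool.Agent.H928.BX
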