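import Pool.Agent.H928.BX.Stm

/-!
# T18a: the derivative as a Cauchy integral of the boundary function
-/

set_option autoImplicit false

open MeasureTheory Set Filter Topology Complex Metric
open scoped ComplexConjugate

namespace Pool.Agent.H928.BX

namespace Rep

/-- the kernel -/
noncomputable def K (z : ℂ) (θ : ℝ) : ℂ := exp (θ * I) / (exp (θ * I) - z) ^ 2

theorem den_ne {z : ℂ} (hz : ‖z‖ < 1) (θ : ℝ) : exp (θ * I) - z ≠ 0 := by
  intro h
  have h1 : ‖exp (θ * I)‖ = ‖z‖ := by rw [sub_eq_zero.1 h]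
  rw [norm_exp_ofReal_mul_I] at h1
  linarith

theorem K_cont {z : ℂ} (hz : ‖z‖ < 1) : Continuous (K z) := by
  unfold K
  refine Continuous.div (by fun_prop) (by fun_prop) fun θ => ?_
  exact pow_ne_zero 2 (den_ne hz θ)

theorem exp_per (θ : ℝ) : exp (((θ + 2 * Real.pi : ℝ) : ℂ) * I) = exp (θ * I) := by
  push_cast
  rw [add_mul, exp_add, exp_two_pi_mul_I, mul_one]

theorem K_per (z : ℂ) : Function.Periodic (K z) (2 * Real.pi) := by
  intro θ
  unfold K
  rw [exp_per]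

theorem K_bd {z : ℂ} (hz : ‖z‖ < 1) : ∃ M : ℝ, 0 < M ∧ ∀ θ, ‖K z θ‖ ≤ M := by
  have h0 : 0 < 1 - ‖z‖ := by linarith
  refine ⟨1 / (1 - ‖z‖) ^ 2, by positivity, fun θ => ?_⟩
  unfold K
  rw [norm_div, norm_pow, norm_exp_ofReal_mul_I]
  have h1 : 1 - ‖z‖ ≤ ‖exp (θ * I) - z‖ := by
    have := norm_sub_norm_le (exp (θ * I)) z
    rwa [norm_exp_ofReal_mul_I] at this
  exact one_div_le_one_div_of_le (by positivity) (pow_le_pow_left₀ h0.le h1 2)

/-- Cauchy's formula for the derivative on the circle of radius `r` -/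
theorem cauchy {F : ℂ → ℂ} (hF : DifferentiableOn ℂ F (ball 0 1)) {z : ℂ} (hz : ‖z‖ < 1) {r : ℝ}
    (hr0 : 0 < r) (hr1 : r < 1) : (r : ℂ) * deriv F (r * z) = ((2 * Real.pi)⁻¹ : ℝ) *
      ∫ θ in (0 : ℝ)..(2 * Real.pi), F (r * exp (θ * I)) * K z θ := by
  have hr : (r : ℂ) ≠ 0 := by exact_mod_cast hr0.ne'
  have hw : (r : ℂ) * z ∈ ball (0 : ℂ) r := by
    rw [mem_ball_zero_iff, norm_mul, norm_real, Real.norm_of_nonneg hr0.le]
    exact mul_lt_of_lt_one_right hr0 hz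
  have h := two_pi_I_inv_smul_circleIntegral_sub_sq_inv_smul_of_differentiable isOpen_ball
    (closedBall_subset_ball hr1) hF hw
  have e1 : ∀ θ : ℝ, deriv (circleMap 0 r) θ • (((circleMap 0 r θ - r * z) ^ 2)⁻¹ •
      F (circleMap 0 r θ)) = (I / r) * (F (r * exp (θ * I)) * K z θ) := by
    intro θ
    have e2 : circleMap 0 r θ = r * exp (θ * I) := by simp [circleMap]
    rw [deriv_circleMap, e2, smul_eq_mul, smul_eq_mul]
    unfold K
    have h1 := den_ne hz θ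
    have h2 : (r * exp (θ * I) - r * z : ℂ) = r * (exp (θ * I) - z) := by ring
    rw [h2]
    field_simp
  have e3 : (∮ ζ in C(0, r), ((ζ - r * z) ^ 2)⁻¹ • F ζ) =
      (I / r) * ∫ θ in (0 : ℝ)..(2 * Real.pi), F (r * exp (θ * I)) * K z θ := by
    rw [← intervalIntegral.integral_const_mul]
    exact intervalIntegral.integral_congr fun θ _ => e1 θ
  rw [e3, smul_eq_mul] at h
  rw [← h]
  push_cast
  have hpi : (Real.pi : ℂ) ≠ 0 := by exact_mod_cast Real.pi_ne_zero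
  field_simp

/-- the integral of the kernel vanishes -/
theorem K_int {z : ℂ} (hz : ‖z‖ < 1) : ∫ θ in (0 : ℝ)..(2 * Real.pi), K z θ = 0 := by
  have h := cauchy (F := fun _ => 1) (differentiableOn_const _) hz (r := 1 / 2) (by norm_num)
    (by norm_num)
  simp only [deriv_const, mul_zero, one_mul] at h
  have hpi : (((2 * Real.pi)⁻¹ : ℝ) : ℂ) ≠ 0 := by
    have : (2 * Real.pi)⁻¹ ≠ 0 := inv_ne_zero (by positivity)
    exact_mod_cast this
  exact (mul_eq_zero.1 h.symm).resolve_left hpi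

theorem b_int {b : ℝ → ℂ} (hm : Measurable b)
    (hb : IntervalIntegrable (fun θ => ‖b θ‖ ^ 2) volume 0 (2 * Real.pi)) :
    IntervalIntegrable b volume 0 (2 * Real.pi) := by
  have h1 : IntervalIntegrable (fun θ => 1 + ‖b θ‖ ^ 2) volume 0 (2 * Real.pi) :=
    intervalIntegrable_const.add hb
  refine h1.mono_fun hm.aestronglyMeasurable ?_
  refine Eventually.of_forall fun θ => ?_
  have h2 : (0 : ℝ) ≤ 1 + ‖b θ‖ ^ 2 := by positivity
  show ‖b θ‖ ≤ ‖1 + ‖b θ‖ ^ 2‖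
  rw [Real.norm_of_nonneg h2]
  nlinarith [sq_nonneg (‖b θ‖ - 1), norm_nonneg (b θ)]

theorem Fr_cont {F : ℂ → ℂ} (hF : DifferentiableOn ℂ F (ball 0 1)) {r : ℝ} (hr0 : 0 < r)
    (hr1 : r < 1) : Continuous fun θ : ℝ => F (r * exp (θ * I)) := by
  rw [continuous_iff_continuousAt]
  intro θ
  have h1 : (r * exp (θ * I) : ℂ) ∈ ball (0 : ℂ) 1 := by
    rw [mem_ball_zero_iff, norm_mul, norm_real, Real.norm_of_nonneg hr0.le,
      norm_exp_ofReal_mul_I, mul_one]
    exact hr1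
  have h2 : ContinuousAt F (r * exp (θ * I)) :=
    (hF.differentiableAt (isOpen_ball.mem_nhds h1)).continuousAt
  have h3 : ContinuousAt (fun θ : ℝ => (r * exp (θ * I) : ℂ)) θ := by fun_prop
  exact ContinuousAt.comp (f := fun θ : ℝ => (r * exp (θ * I) : ℂ)) (g := F) h2 h3

/-- the limit of the integrals -/
theorem lim {F : ℂ → ℂ} {b : ℝ → ℂ} (hF : DifferentiableOn ℂ F (ball 0 1))
    (hB : IsBoundaryFunction F b) {z : ℂ} (hz : ‖z‖ < 1) :
    Tendsto (fun r : ℝ => ∫ θ in (0 : ℝ)..(2 * Real.pi), F (r * exp (θ * I)) * K z θ) (𝓝[<] 1)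
      (𝓝 (∫ θ in (0 : ℝ)..(2 * Real.pi), b θ * K z θ)) := by
  obtain ⟨hm, -, hb2, ht⟩ := hB
  obtain ⟨M, hM0, hM⟩ := K_bd hz
  have hKc := K_cont hz
  have hb1 := b_int hm hb2
  have h2pi : (0 : ℝ) ≤ 2 * Real.pi := by positivity
  rw [Metric.tendsto_nhds]
  intro ε hε
  obtain ⟨η, hη0, hη⟩ : ∃ η : ℝ, 0 < η ∧ M * ((Real.pi + 1 / 2) * η) < ε := by
    refine ⟨ε / (2 * (M * (Real.pi + 1 / 2))), by positivity, ?_⟩
    have hpi := Real.pi_pos
    have e : M * ((Real.pi + 1 / 2) * (ε / (2 * (M * (Real.pi + 1 / 2))))) = ε / 2 := by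
      field_simp
    rw [e]
    linarith
  have h1 := (Metric.tendsto_nhds.1 ht) (η ^ 2) (by positivity)
  have h2 : ∀ᶠ r : ℝ in 𝓝[<] 1, 0 < r := by
    have : ∀ᶠ r : ℝ in 𝓝 1, 0 < r := lt_mem_nhds one_pos
    exact nhdsWithin_le_nhds this
  filter_upwards [h1, h2, self_mem_nhdsWithin] with r h1 hr0 hr1
  have hr1' : r < 1 := hr1
  have hFc := Fr_cont hF hr0 hr1'
  have hFi : IntervalIntegrable (fun θ : ℝ => F (r * exp (θ * I))) volume 0 (2 * Real.pi) :=
    hFc.intervalIntegrable _ _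
  have hdi : IntervalIntegrable (fun θ : ℝ => F (r * exp (θ * I)) - b θ) volume 0 (2 * Real.pi) :=
    hFi.sub hb1
  have hd2 : IntervalIntegrable (fun θ : ℝ => ‖F (r * exp (θ * I)) - b θ‖ ^ 2) volume 0
      (2 * Real.pi) := by
    have h3 : IntervalIntegrable (fun θ : ℝ => 2 * ‖F (r * exp (θ * I))‖ ^ 2 + 2 * ‖b θ‖ ^ 2)
        volume 0 (2 * Real.pi) :=
      ((continuous_const.mul (hFc.norm.pow 2)).intervalIntegrable _ _).add (hb2.const_mul 2)
    refine h3.mono_fun ?_ ?_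
    · exact ((hFc.measurable.sub hm).norm.pow_const 2).aestronglyMeasurable
    · refine Eventually.of_forall fun θ => ?_
      show ‖‖F (r * exp (θ * I)) - b θ‖ ^ 2‖ ≤ ‖2 * ‖F (r * exp (θ * I))‖ ^ 2 + 2 * ‖b θ‖ ^ 2‖
      rw [Real.norm_of_nonneg (by positivity), Real.norm_of_nonneg (by positivity)]
      have h4 := norm_sub_le (F (r * exp (θ * I))) (b θ)
      have h5 := norm_nonneg (F (r * exp (θ * I)) - b θ)
      nlinarith [sq_nonneg (‖F (r * exp (θ * I))‖ - ‖b θ‖)]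
  have hD : ∫ θ in (0 : ℝ)..(2 * Real.pi), ‖F (r * exp (θ * I)) - b θ‖ ^ 2 ≤ η ^ 2 := by
    rw [Real.dist_eq, sub_zero] at h1
    exact (le_abs_self _).trans h1.le
  have hL1 : ∫ θ in (0 : ℝ)..(2 * Real.pi), ‖F (r * exp (θ * I)) - b θ‖ ≤
      (Real.pi + 1 / 2) * η := by
    have h3 : ∫ θ in (0 : ℝ)..(2 * Real.pi), ‖F (r * exp (θ * I)) - b θ‖ ≤
        ∫ θ in (0 : ℝ)..(2 * Real.pi), (η / 2 + (2 * η)⁻¹ *
          ‖F (r * exp (θ * I)) - b θ‖ ^ 2) := by
      refine intervalIntegral.integral_mono_on h2pi hdi.norm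
        (intervalIntegrable_const.add (hd2.const_mul _)) fun θ _ => ?_
      have h4 : 0 ≤ (‖F (r * exp (θ * I)) - b θ‖ - η) ^ 2 * (2 * η)⁻¹ := by positivity
      have h5 : (‖F (r * exp (θ * I)) - b θ‖ - η) ^ 2 * (2 * η)⁻¹ =
          η / 2 + (2 * η)⁻¹ * ‖F (r * exp (θ * I)) - b θ‖ ^ 2 -
            ‖F (r * exp (θ * I)) - b θ‖ := by
        field_simp
        ring
      linarith
    rw [intervalIntegral.integral_add intervalIntegrable_const (hd2.const_mul _),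
      intervalIntegral.integral_const, intervalIntegral.integral_const_mul, sub_zero,
      smul_eq_mul] at h3
    have h6 : (2 * η)⁻¹ * ∫ θ in (0 : ℝ)..(2 * Real.pi), ‖F (r * exp (θ * I)) - b θ‖ ^ 2 ≤
        (2 * η)⁻¹ * η ^ 2 := mul_le_mul_of_nonneg_left hD (by positivity)
    have h7 : (2 * η)⁻¹ * η ^ 2 = η / 2 := by field_simp
    rw [h7] at h6
    linarith
  rw [dist_eq_norm, ← intervalIntegral.integral_sub (hFi.mul_continuousOn hKc.continuousOn)
    (hb1.mul_continuousOn hKc.continuousOn)]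
  have h8 : ‖∫ θ in (0 : ℝ)..(2 * Real.pi), (F (r * exp (θ * I)) * K z θ - b θ * K z θ)‖ ≤
      ∫ θ in (0 : ℝ)..(2 * Real.pi), M * ‖F (r * exp (θ * I)) - b θ‖ := by
    refine intervalIntegral.norm_integral_le_of_norm_le h2pi ?_ (hdi.norm.const_mul M)
    refine Eventually.of_forall fun θ _ => ?_
    rw [← sub_mul, norm_mul, mul_comm]
    exact mul_le_mul_of_nonneg_right (hM θ) (norm_nonneg _)
  rw [intervalIntegral.integral_const_mul] at h8
  exact (h8.trans (mul_le_mul_of_nonneg_left hL1 hM0.le)).trans_lt hη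

end Rep

open Pool.Agent.H928.BX.Rep in
theorem rep : S_REP := by
  intro F b hH hB z hz c α
  rw [mem_ball_zero_iff] at hz
  have hF := hH.1
  have hm := hB.1
  have hper := hB.2.1
  have hb1 := b_int hm hB.2.2.1
  have hKc := K_cont hz
  have h1 := (lim hF hB hz).const_mul (((2 * Real.pi)⁻¹ : ℝ) : ℂ)
  have h2 : Tendsto (fun r : ℝ => (r : ℂ) * deriv F (r * z)) (𝓝[<] 1) (𝓝 (deriv F z)) := by
    have h3 : ContinuousAt (deriv F) z := by
      have h4 : DifferentiableOn ℂ (deriv F) (ball 0 1) := hF.deriv isOpen_ball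
      exact (h4.differentiableAt (isOpen_ball.mem_nhds (mem_ball_zero_iff.2 hz))).continuousAt
    have h5 : Tendsto (fun r : ℝ => ((r : ℂ) * z)) (𝓝[<] 1) (𝓝 z) := by
      have h6 : Tendsto (fun r : ℝ => ((r : ℂ) * z)) (𝓝 1) (𝓝 (((1 : ℝ) : ℂ) * z)) :=
        Continuous.tendsto (by fun_prop) 1
      rw [ofReal_one, one_mul] at h6
      exact h6.mono_left nhdsWithin_le_nhds
    have h7 : Tendsto (fun r : ℝ => (r : ℂ)) (𝓝[<] 1) (𝓝 1) := by
      have h8 : Tendsto (fun r : ℝ => (r : ℂ)) (𝓝 1) (𝓝 ((1 : ℝ) : ℂ)) :=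
        Continuous.tendsto (by fun_prop) 1
      rw [ofReal_one] at h8
      exact h8.mono_left nhdsWithin_le_nhds
    have h9 := h7.mul (h3.tendsto.comp h5)
    rw [one_mul] at h9
    exact h9
  have h10 : ∀ᶠ r : ℝ in 𝓝[<] 1, (((2 * Real.pi)⁻¹ : ℝ) : ℂ) *
      ∫ θ in (0 : ℝ)..(2 * Real.pi), F (r * exp (θ * I)) * K z θ = (r : ℂ) * deriv F (r * z) := by
    have h11 : ∀ᶠ r : ℝ in 𝓝[<] 1, 0 < r := by
      have : ∀ᶠ r : ℝ in 𝓝 1, 0 < r := lt_mem_nhds one_pos
      exact nhdsWithin_le_nhds this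
    filter_upwards [h11, self_mem_nhdsWithin] with r hr0 hr1
    exact (cauchy hF hz hr0 hr1).symm
  have h12 := tendsto_nhds_unique (h1.congr' h10) h2
  rw [← h12]
  congr 1
  have hper2 : Function.Periodic (fun θ : ℝ => (b θ - c) * exp (θ * I) / (exp (θ * I) - z) ^ 2)
      (2 * Real.pi) := by
    intro θ
    simp only [exp_per, hper θ]
  have e1 := hper2.intervalIntegral_add_eq α 0
  rw [e1, zero_add]
  have e2 : ∫ θ in (0 : ℝ)..(2 * Real.pi), (b θ - c) * exp (θ * I) / (exp (θ * I) - z) ^ 2 =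
      ∫ θ in (0 : ℝ)..(2 * Real.pi), (b θ * K z θ - c * K z θ) := by
    refine intervalIntegral.integral_congr fun θ _ => ?_
    simp only [K]
    ring
  have i1 : IntervalIntegrable (fun θ => b θ * K z θ) volume 0 (2 * Real.pi) :=
    hb1.mul_continuousOn hKc.continuousOn
  have i2 : IntervalIntegrable (fun θ => c * K z θ) volume 0 (2 * Real.pi) :=
    Continuous.intervalIntegrable (by fun_prop) _ _
  rw [e2, intervalIntegral.integral_sub i1 i2, intervalIntegral.integral_const_mul, K_int hz,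
    mul_zero, sub_zero]

end Pool.Agent.H928.BX
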