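import Pool.Agent.H928.BX.Stm

/-!
From every stage a close further stage with large Bloch quotient.
-/

set_option autoImplicit false

open MeasureTheory Set Filter Topology Complex Metric
open scoped ComplexConjugate

namespace Pool.Agent.H928.BX

namespace Stage

theorem norm_U (s : ℝ) (q : ℂ) : ‖U s q‖ = Real.exp ((2 * s - 1) * q.re) := by
  unfold U
  rw [Complex.norm_exp]
  congr 1
  have h1 : ((s : ℂ) * q).re = s * q.re := Complex.re_ofReal_mul s q
  have h2 : ((1 - (s : ℂ)) * conj q).re = (1 - s) * q.re := by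
    have h3 : (1 - (s : ℂ)) = ((1 - s : ℝ) : ℂ) := by push_cast; ring
    rw [h3, Complex.re_ofReal_mul, Complex.conj_re]
  rw [Complex.sub_re, h1, h2]
  ring

theorem cont_U (s : ℝ) : Continuous (U s) := by
  unfold U
  exact Complex.continuous_exp.comp ((continuous_const.mul continuous_id).sub
    (continuous_const.mul Complex.continuous_conj))

theorem GB_of (hG : S_G) (s : ℝ) (h0 : 0 < s) (h1 : s < 1) : ∃ A, GB s A := by
  obtain ⟨-, C, hC⟩ := hG s h0 h1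
  refine ⟨2 * (1 + |C|), by positivity, fun ω hω => ?_⟩
  have h2 := hC ω hω
  have h3 : ‖G s ω‖ ≤ ‖G s ω - s * ω‖ + ‖(s : ℂ) * ω‖ := by
    have h4 := norm_add_le (G s ω - s * ω) (s * ω)
    rwa [sub_add_cancel] at h4
  rw [norm_mul, Complex.norm_real, Real.norm_of_nonneg h0.le] at h3
  have h5 : C * ‖ω‖ ^ 2 ≤ |C| * ‖ω‖ := by
    calc C * ‖ω‖ ^ 2 ≤ |C| * ‖ω‖ ^ 2 :=
          mul_le_mul_of_nonneg_right (le_abs_self C) (sq_nonneg _)
      _ ≤ |C| * ‖ω‖ := by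
          refine mul_le_mul_of_nonneg_left ?_ (abs_nonneg C)
          nlinarith [norm_nonneg ω]
  have h6 : s * ‖ω‖ ≤ 1 * ‖ω‖ := mul_le_mul_of_nonneg_right h1.le (norm_nonneg ω)
  have h7 : 2 * (1 + |C|) / 2 * ‖ω‖ = 1 * ‖ω‖ + |C| * ‖ω‖ := by ring
  rw [h7]
  linarith

theorem integrable_cont (f : ℂ → ℝ) (hf : Continuous f) : Integrable f dA := by
  have h1 : IntegrableOn f (closedBall 0 1) volume :=
    hf.continuousOn.integrableOn_compact (isCompact_closedBall 0 1)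
  exact h1.mono_set ball_subset_closedBall

/-- the mean square distances -/
theorem l2_add (f g h : ℂ → ℂ) (hf : Continuous f) (hg : Continuous g) (hh : Continuous h)
    (a b : ℝ) (h1 : ∫ z, ‖f z - g z‖ ^ 2 ∂dA ≤ a) (h2 : ∫ z, ‖g z - h z‖ ^ 2 ∂dA ≤ b) :
    ∫ z, ‖f z - h z‖ ^ 2 ∂dA ≤ 2 * a + 2 * b := by
  have i1 : Integrable (fun z => ‖f z - g z‖ ^ 2) dA :=
    integrable_cont _ ((hf.sub hg).norm.pow 2)
  have i2 : Integrable (fun z => ‖g z - h z‖ ^ 2) dA :=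
    integrable_cont _ ((hg.sub hh).norm.pow 2)
  have i3 : Integrable (fun z => ‖f z - h z‖ ^ 2) dA :=
    integrable_cont _ ((hf.sub hh).norm.pow 2)
  have h3 : ∫ z, ‖f z - h z‖ ^ 2 ∂dA ≤
      ∫ z, (2 * ‖f z - g z‖ ^ 2 + 2 * ‖g z - h z‖ ^ 2) ∂dA := by
    refine integral_mono i3 ((i1.const_mul 2).add (i2.const_mul 2)) fun z => ?_
    have h4 : ‖f z - h z‖ ≤ ‖f z - g z‖ + ‖g z - h z‖ := norm_sub_le_norm_sub_add_norm_sub _ _ _
    show ‖f z - h z‖ ^ 2 ≤ 2 * ‖f z - g z‖ ^ 2 + 2 * ‖g z - h z‖ ^ 2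
    nlinarith [norm_nonneg (f z - h z), norm_nonneg (f z - g z), norm_nonneg (g z - h z),
      sq_nonneg (‖f z - g z‖ - ‖g z - h z‖)]
  rw [integral_add (i1.const_mul 2) (i2.const_mul 2), integral_const_mul, integral_const_mul] at h3
  linarith

/-- the choice of the level -/
theorem level (s : ℝ) (h0 : 1 / 2 < s) (h1 : s < 1) (A : ℝ) (hA : 0 < A) (M : ℝ) :
    ∃ M' : ℝ, ∀ (x κ r b : ℝ), M' < Real.exp ((2 * s - 1) * x) → κ < 1 / 2 →
      r = min 1 ((1 - κ) / (A * Real.exp ((2 * s - 1) * x))) → r * Real.exp (-1) ≤ b → b ≤ r →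
      M ≤ (1 / 2) * Real.exp (-1) * Real.exp (-b) * b * Real.exp x := by
  set x0 : ℝ := 2 * Real.exp 3 * |M| + 4 * A * Real.exp 3 * |M| / (2 - 2 * s) with hx0
  have hs2 : 0 < 2 - 2 * s := by linarith
  have hs3 : 0 < 2 * s - 1 := by linarith
  refine ⟨Real.exp ((2 * s - 1) * x0), fun x κ r b hx hκ hr hb1 hb2 => ?_⟩
  have hxx : x0 < x := by
    have h2 := Real.exp_lt_exp.1 hx
    exact lt_of_mul_lt_mul_left h2 hs3.le
  have e3 := Real.exp_pos 3
  have hM := abs_nonneg M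
  have p1 : 0 ≤ 2 * Real.exp 3 * |M| := by positivity
  have p2 : 0 ≤ 4 * A * Real.exp 3 * |M| / (2 - 2 * s) := by positivity
  -- the size of `E`
  have hE1 : 2 * Real.exp 3 * |M| ≤ Real.exp x := by
    have h2 := Real.add_one_le_exp x
    linarith
  have hE2 : 4 * A * Real.exp 3 * |M| ≤ Real.exp ((2 - 2 * s) * x) := by
    have h2 := Real.add_one_le_exp ((2 - 2 * s) * x)
    have h3 : (2 - 2 * s) * (4 * A * Real.exp 3 * |M| / (2 - 2 * s)) = 4 * A * Real.exp 3 * |M| :=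
      mul_div_cancel₀ _ hs2.ne'
    have h4 : (2 - 2 * s) * (4 * A * Real.exp 3 * |M| / (2 - 2 * s)) ≤ (2 - 2 * s) * x :=
      mul_le_mul_of_nonneg_left (by linarith) hs2.le
    linarith
  have hEV : Real.exp x = Real.exp ((2 - 2 * s) * x) * Real.exp ((2 * s - 1) * x) := by
    rw [← Real.exp_add]
    congr 1
    ring
  have hV := Real.exp_pos ((2 * s - 1) * x)
  have hrE : 2 * Real.exp 3 * |M| ≤ r * Real.exp x := by
    rw [hr]
    rcases min_choice (1 : ℝ) ((1 - κ) / (A * Real.exp ((2 * s - 1) * x))) with h2 | h2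
    · rw [h2, one_mul]
      exact hE1
    · rw [h2, hEV]
      have h3 : (1 - κ) / (A * Real.exp ((2 * s - 1) * x)) *
          (Real.exp ((2 - 2 * s) * x) * Real.exp ((2 * s - 1) * x)) =
          (1 - κ) * Real.exp ((2 - 2 * s) * x) / A := by
        field_simp
      rw [h3, le_div_iff₀ hA]
      have h4 : (1 / 2) * Real.exp ((2 - 2 * s) * x) ≤ (1 - κ) * Real.exp ((2 - 2 * s) * x) :=
        mul_le_mul_of_nonneg_right (by linarith) (Real.exp_pos _).le
      linarith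
  have hr1 : r ≤ 1 := by
    rw [hr]
    exact min_le_left _ _
  have hb : Real.exp (-1) ≤ Real.exp (-b) := Real.exp_le_exp.2 (by linarith)
  have hr0 : 0 ≤ r := by
    by_contra h2
    push Not at h2
    have h3 : r * Real.exp x < 0 := mul_neg_of_neg_of_pos h2 (Real.exp_pos x)
    linarith
  have hb0 : 0 ≤ b := le_trans (mul_nonneg hr0 (Real.exp_pos _).le) hb1
  have h5 : Real.exp (-1) * Real.exp (-1) * Real.exp (-1) * Real.exp 3 = 1 := by
    rw [← Real.exp_add, ← Real.exp_add, ← Real.exp_add]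
    norm_num
  calc M ≤ |M| := le_abs_self M
    _ = (1 / 2) * (Real.exp (-1) * Real.exp (-1) * Real.exp (-1)) * (2 * Real.exp 3 * |M|) := by
        have h6 : (1 / 2) * (Real.exp (-1) * Real.exp (-1) * Real.exp (-1)) *
            (2 * Real.exp 3 * |M|) =
            (Real.exp (-1) * Real.exp (-1) * Real.exp (-1) * Real.exp 3) * |M| := by ring
        rw [h6, h5, one_mul]
    _ ≤ (1 / 2) * (Real.exp (-1) * Real.exp (-1) * Real.exp (-1)) * (r * Real.exp x) :=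
        mul_le_mul_of_nonneg_left hrE (by positivity)
    _ = (1 / 2) * Real.exp (-1) * Real.exp (-1) * (r * Real.exp (-1)) * Real.exp x := by ring
    _ ≤ (1 / 2) * Real.exp (-1) * Real.exp (-b) * b * Real.exp x := by
        refine mul_le_mul_of_nonneg_right ?_ (Real.exp_pos x).le
        refine mul_le_mul ?_ hb1 (mul_nonneg hr0 (Real.exp_pos _).le) (by positivity)
        exact mul_le_mul_of_nonneg_left hb (by positivity)

end Stage

theorem stage (hS : S_STEP) (hC : S_CLOSE) (hG : S_G) (hO : S_OUTER) (hW : S_WIN)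
    (hF : S_FOLLOW) (hD : S_DER) : S_MACRO := by
  intro s hs0 hs1 Q k hgood M ρ hρ ε hε
  have hs : 0 < s := by linarith
  obtain ⟨A, hA⟩ := Stage.GB_of hG s hs hs1
  have hA0 : 0 < A := hA.1
  obtain ⟨M', hM'⟩ := Stage.level s hs0 hs1 A hA0 M
  -- a stage with a large value at a point
  have hk1 : ‖k 1‖ < 1 := hgood.lt 1 norm_one
  obtain ⟨δ, hδ, hfol⟩ := hF s hs hs1 A hA M' (k 1) (Q 1) (hW s hs0 hs1 A hA M' (k 1) (Q 1) hk1)
  obtain ⟨Q1, k1, z1, hgood1, hz1, hkz, hV, hclose1⟩ := hfol Q k 1 hgood norm_one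
    (by rwa [sub_self, norm_zero]) (by rwa [sub_self, norm_zero]) ρ hρ (ε / 4) (by linarith)
  -- the prescribed modulus
  have hkc : ContinuousOn k1 (sphere 0 1) := hgood1.proj.cont.mono sphere_subset_closedBall
  have hUc : Continuous fun z => U s (Q1 z) := (Stage.cont_U s).comp hgood1.diff.continuous
  have hU0 : ∀ z, 0 < ‖U s (Q1 z)‖ := fun z => by
    rw [Stage.norm_U]
    exact Real.exp_pos _
  have hrc : ContinuousOn (fun z => min (1 : ℝ) ((1 - ‖k1 z‖) / (A * ‖U s (Q1 z)‖)))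
      (sphere 0 1) := by
    have h1 : ContinuousOn (fun z => (1 - ‖k1 z‖) / (A * ‖U s (Q1 z)‖)) (sphere 0 1) :=
      (continuousOn_const.sub hkc.norm).div (continuousOn_const.mul hUc.norm.continuousOn)
        fun z _ => (mul_pos hA0 (hU0 z)).ne'
    exact continuousOn_const.inf h1
  have hrpos : ∀ z ∈ sphere (0 : ℂ) 1,
      0 < (fun z => min (1 : ℝ) ((1 - ‖k1 z‖) / (A * ‖U s (Q1 z)‖))) z := by
    intro z hz
    refine lt_min one_pos (div_pos ?_ (mul_pos hA0 (hU0 z)))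
    have h1 := hgood1.lt z (mem_sphere_zero_iff_norm.1 hz)
    linarith
  obtain ⟨H, hH, hHr⟩ := hO _ hrc hrpos 1 one_pos
  have hB : Differentiable ℂ fun z => exp (H z) := hH.cexp
  have hB0 : ∀ z, exp (H z) ≠ 0 := fun z => Complex.exp_ne_zero _
  -- a uniform bound for `k1`
  obtain ⟨c, hc1, hc⟩ : ∃ c < (1 : ℝ), ∀ z, ‖z‖ = 1 → ‖k1 z‖ ≤ c := by
    obtain ⟨z2, hz2, hmax⟩ := (isCompact_sphere (0 : ℂ) 1).exists_isMaxOn
      ⟨1, by simp⟩ hkc.norm
    refine ⟨‖k1 z2‖, hgood1.lt z2 (mem_sphere_zero_iff_norm.1 hz2), fun z hz => ?_⟩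
    exact hmax (mem_sphere_zero_iff_norm.2 hz)
  have hε' : 0 < min (ε / 4) ((1 - c) / 4) := lt_min (by linarith) (by linarith)
  have e1 := hS s hs hs1 Q1 (fun z => exp (H z)) k1 hgood1.diff hB hgood1.proj ρ hρ
    (min (ε / 4) ((1 - c) / 4)) hε'
  have e2 := hC Q1 (fun z => exp (H z)) hgood1.diff hB ρ hρ (ε / 4) (by linarith)
  have e3 := hD Q1 (fun z => exp (H z)) hgood1.diff hB z1 hz1 (hB0 z1)
  obtain ⟨n, ⟨k2, hproj, hk2, hk2ρ⟩, ⟨hq2, hl2⟩, z, hz, hzM⟩ := (e1.and (e2.and e3)).exists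
  have hQ2 : Differentiable ℂ fun z => Q1 z + z ^ n * exp (H z) :=
    hgood1.diff.add ((differentiable_id.pow n).mul hB)
  refine ⟨fun z => Q1 z + z ^ n * exp (H z), k2, ⟨hQ2, hproj, ?_⟩, ⟨?_, ?_, ?_⟩, z, hz, ?_⟩
  · intro z hz
    have h1 := hk2 z hz
    have hzs : z ∈ sphere (0 : ℂ) 1 := mem_sphere_zero_iff_norm.2 hz
    have h2 := (hHr z hzs).2
    have h3 : ‖z ^ n * exp (H z)‖ = ‖exp (H z)‖ := by rw [norm_mul, norm_pow, hz, one_pow, one_mul]
    have h4 : ‖exp (H z)‖ ≤ 1 := h2.trans (min_le_left _ _)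
    have h5 : ‖exp (H z)‖ ≤ (1 - ‖k1 z‖) / (A * ‖U s (Q1 z)‖) := h2.trans (min_le_right _ _)
    have h6 : ‖U s (Q1 z) * G s (z ^ n * exp (H z))‖ ≤ (1 - ‖k1 z‖) / 2 := by
      rw [norm_mul]
      have h7 := hA.2 (z ^ n * exp (H z)) (by rw [h3]; exact h4)
      rw [h3] at h7
      rw [le_div_iff₀ (mul_pos hA0 (hU0 z))] at h5
      calc ‖U s (Q1 z)‖ * ‖G s (z ^ n * exp (H z))‖ ≤ ‖U s (Q1 z)‖ * (A / 2 * ‖exp (H z)‖) :=
            mul_le_mul_of_nonneg_left h7 (norm_nonneg _)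
        _ = ‖exp (H z)‖ * (A * ‖U s (Q1 z)‖) / 2 := by ring
        _ ≤ (1 - ‖k1 z‖) / 2 := by linarith
    have h8 : ‖k2 z‖ ≤ ‖k2 z - (k1 z + U s (Q1 z) * G s (z ^ n * exp (H z)))‖ +
        (‖k1 z‖ + ‖U s (Q1 z) * G s (z ^ n * exp (H z))‖) := by
      have h9 := norm_add_le (k2 z - (k1 z + U s (Q1 z) * G s (z ^ n * exp (H z))))
        (k1 z + U s (Q1 z) * G s (z ^ n * exp (H z)))
      rw [sub_add_cancel] at h9
      have h10 := norm_add_le (k1 z) (U s (Q1 z) * G s (z ^ n * exp (H z)))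
      linarith
    have h11 := hc z hz
    have h12 : min (ε / 4) ((1 - c) / 4) ≤ (1 - c) / 4 := min_le_right _ _
    linarith
  · intro z hz
    have h1 := hq2 z hz
    have h2 := hclose1.q z hz
    have h3 := norm_sub_le_norm_sub_add_norm_sub (exp (Q1 z + z ^ n * exp (H z))) (exp (Q1 z))
      (exp (Q z))
    show ‖exp (Q1 z + z ^ n * exp (H z)) - exp (Q z)‖ ≤ ε
    linarith
  · intro z hz
    have h1 := hk2ρ z hz
    have h2 := hclose1.k z hz
    have h3 := norm_sub_le_norm_sub_add_norm_sub (k2 z) (k1 z) (k z)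
    have h4 : min (ε / 4) ((1 - c) / 4) ≤ ε / 4 := min_le_left _ _
    linarith
  · have h1 := Stage.l2_add (fun z => exp (Q1 z + z ^ n * exp (H z))) (fun z => exp (Q1 z))
      (fun z => exp (Q z)) hQ2.cexp.continuous hgood1.diff.cexp.continuous
      hgood.diff.cexp.continuous (ε / 4) (ε / 4) hl2 hclose1.l2
    linarith
  · have hz1s : z1 ∈ sphere (0 : ℂ) 1 := mem_sphere_zero_iff_norm.2 hz1
    have h1 := hM' (Q1 z1).re ‖k1 z1‖ (min 1 ((1 - ‖k1 z1‖) / (A * ‖U s (Q1 z1)‖)))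
      ‖exp (H z1)‖ (by rwa [Stage.norm_U] at hV) hkz (by rw [Stage.norm_U]) (hHr z1 hz1s).1
      (hHr z1 hz1s).2
    have h2 : ‖exp (Q1 z1)‖ = Real.exp (Q1 z1).re := Complex.norm_exp _
    rw [h2] at hzM
    exact h1.trans hzM

end Pool.Agent.H928.BX
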