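import Pool.Agent.H928.BX.Stm

/-!
# T5: the kernel after one lacunary step (helper553)
-/

set_option autoImplicit false

open MeasureTheory Set Filter Topology Complex Metric
open scoped ComplexConjugate

namespace Pool.Agent.H928.BX

namespace Step

theorem w_nonneg (d e : ℕ) : 0 ≤ w d e := by
  unfold w
  split_ifs with h
  · have h1 : (e : ℝ) ≤ d := by exact_mod_cast h
    have h2 : (0 : ℝ) ≤ d := Nat.cast_nonneg d
    apply div_nonneg <;> linarith
  · exact le_rfl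

theorem w_le_one (d e : ℕ) : w d e ≤ 1 := by
  unfold w
  split_ifs with h
  · have h1 : (0 : ℝ) ≤ e := Nat.cast_nonneg e
    have h2 : (0 : ℝ) ≤ d := Nat.cast_nonneg d
    rw [div_le_one (by linarith)]
    linarith
  · exact zero_le_one

theorem wi_nonneg (a b : ℕ) : 0 ≤ wi a b := by
  unfold wi
  split_ifs with h
  · have h1 : (b : ℝ) ≤ a := by exact_mod_cast h.le
    have h2 : (0 : ℝ) ≤ a := Nat.cast_nonneg a
    apply div_nonneg <;> linarith
  · exact le_rfl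

theorem wi_le_one (a b : ℕ) : wi a b ≤ 1 := by
  unfold wi
  split_ifs with h
  · have h1 : (0 : ℝ) ≤ b := Nat.cast_nonneg b
    have h2 : (0 : ℝ) < a := by exact_mod_cast (Nat.zero_le b).trans_lt h
    rw [div_le_one h2]
    linarith
  · exact zero_le_one

theorem lim_aux (x y α β : ℝ) (hy : y ≠ 0) :
    Tendsto (fun n : ℕ => ((n : ℝ) * x + α) / ((n : ℝ) * y + β)) atTop (𝓝 (x / y)) := by
  have h1 : Tendsto (fun n : ℕ => (x + α / (n : ℝ)) / (y + β / (n : ℝ))) atTop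
      (𝓝 ((x + 0) / (y + 0))) := by
    apply Tendsto.div
    · exact tendsto_const_nhds.add (tendsto_const_div_atTop_nhds_zero_nat α)
    · exact tendsto_const_nhds.add (tendsto_const_div_atTop_nhds_zero_nat β)
    · rw [add_zero]
      exact hy
  rw [add_zero, add_zero] at h1
  refine h1.congr' ?_
  filter_upwards [eventually_gt_atTop 0] with n hn
  have hn' : (n : ℝ) ≠ 0 := by exact_mod_cast hn.ne'
  rw [← mul_div_mul_left (x + α / (n : ℝ)) (y + β / (n : ℝ)) hn']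
  congr 1 <;> field_simp

/-- the exponent of `z` -/
def dd (n : ℕ) (i : (ℕ × ℕ) × (ℕ × ℕ)) : ℕ := i.1.1 + n * i.1.2

/-- the exponent of `conj z` -/
def ee (n : ℕ) (i : (ℕ × ℕ) × (ℕ × ℕ)) : ℕ := i.2.1 + n * i.2.2

theorem ev_lt {N M a b : ℕ} (h : a < b) : ∀ᶠ n : ℕ in atTop, N + n * a < M + n * b := by
  filter_upwards [eventually_gt_atTop N] with n hn
  have h1 : n * (a + 1) ≤ n * b := Nat.mul_le_mul_left n h
  rw [mul_add, mul_one] at h1
  omega

theorem w_lim (i : (ℕ × ℕ) × (ℕ × ℕ)) (h : ¬ (i.1.2 = 0 ∧ i.2.2 = 0)) :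
    Tendsto (fun n => w (dd n i) (ee n i)) atTop (𝓝 (wi i.1.2 i.2.2)) := by
  obtain ⟨⟨N, a⟩, ⟨M, b⟩⟩ := i
  simp only at h
  show Tendsto (fun n => w (N + n * a) (M + n * b)) atTop (𝓝 (wi a b))
  rcases lt_trichotomy b a with hab | hab | hab
  · have ha : (a : ℝ) ≠ 0 := by
      have : a ≠ 0 := by omega
      exact_mod_cast this
    have h1 := lim_aux ((a : ℝ) - b) a ((N : ℝ) - M + 1) ((N : ℝ) + 1) ha
    have h2 : wi a b = ((a : ℝ) - b) / a := by
      unfold wi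
      rw [if_pos hab]
    rw [h2]
    refine h1.congr' ?_
    filter_upwards [ev_lt (N := M) (M := N) hab] with n hn
    unfold w
    rw [if_pos hn.le]
    push_cast
    congr 1 <;> ring
  · subst hab
    have hb : (b : ℝ) ≠ 0 := by
      have : b ≠ 0 := fun h0 => h ⟨h0, h0⟩
      exact_mod_cast this
    have h2 : wi b b = 0 / (b : ℝ) := by
      unfold wi
      rw [if_neg (lt_irrefl b), zero_div]
    rw [h2]
    by_cases hMN : M ≤ N
    · refine (lim_aux 0 b ((N : ℝ) - M + 1) ((N : ℝ) + 1) hb).congr fun n => ?_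
      unfold w
      rw [if_pos (by omega)]
      push_cast
      congr 1 <;> ring
    · rw [zero_div]
      refine tendsto_const_nhds.congr fun n => ?_
      unfold w
      rw [if_neg (by omega)]
  · have h2 : wi a b = 0 := by
      unfold wi
      rw [if_neg (by omega)]
    rw [h2]
    refine tendsto_const_nhds.congr' ?_
    filter_upwards [ev_lt (N := N) (M := M) hab] with n hn
    unfold w
    rw [if_neg (by omega)]

/-- the limit of the weights -/
noncomputable def wl (i : (ℕ × ℕ) × (ℕ × ℕ)) : ℝ :=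
  (if i.1.2 = 0 ∧ i.2.2 = 0 then w i.1.1 i.2.1 else 0) + wi i.1.2 i.2.2

theorem wl_lim (i : (ℕ × ℕ) × (ℕ × ℕ)) :
    Tendsto (fun n => w (dd n i) (ee n i)) atTop (𝓝 (wl i)) := by
  by_cases h : i.1.2 = 0 ∧ i.2.2 = 0
  · have h1 : wl i = w i.1.1 i.2.1 := by
      unfold wl
      rw [if_pos h, h.1, h.2]
      unfold wi
      rw [if_neg (lt_irrefl 0), add_zero]
    rw [h1]
    refine tendsto_const_nhds.congr fun n => ?_
    unfold dd ee
    rw [h.1, h.2, mul_zero, add_zero, add_zero]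
  · have h1 : wl i = wi i.1.2 i.2.2 := by
      unfold wl
      rw [if_neg h, zero_add]
    rw [h1]
    exact w_lim i h

theorem wl_nonneg (i : (ℕ × ℕ) × (ℕ × ℕ)) : 0 ≤ wl i := by
  unfold wl
  apply add_nonneg _ (wi_nonneg _ _)
  split_ifs
  · exact w_nonneg _ _
  · exact le_rfl

theorem wl_le_one (i : (ℕ × ℕ) × (ℕ × ℕ)) : wl i ≤ 1 :=
  le_of_tendsto (wl_lim i) (Eventually.of_forall fun _ => w_le_one _ _)

/-- the weights inside of the disc tend to zero -/
theorem in_lim (i : (ℕ × ℕ) × (ℕ × ℕ)) (h : ¬ (i.1.2 = 0 ∧ i.2.2 = 0)) {ρ : ℝ} (h0 : 0 ≤ ρ)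
    (h1 : ρ < 1) :
    Tendsto (fun n => w (dd n i) (ee n i) * ρ ^ (dd n i - ee n i)) atTop (𝓝 0) := by
  by_cases hab : i.2.2 < i.1.2
  · have h2 : Tendsto (fun n => ρ ^ (dd n i - ee n i)) atTop (𝓝 0) := by
      refine (tendsto_pow_atTop_nhds_zero_of_lt_one h0 h1).comp ?_
      refine tendsto_atTop_mono (f := fun n => n - i.2.1) (fun n => ?_)
        (tendsto_sub_atTop_nat i.2.1)
      have h3 : n * (i.2.2 + 1) ≤ n * i.1.2 := Nat.mul_le_mul_left n hab
      rw [mul_add, mul_one] at h3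
      unfold dd ee
      omega
    refine squeeze_zero (fun n => mul_nonneg (w_nonneg _ _) (pow_nonneg h0 _)) (fun n => ?_) h2
    exact mul_le_of_le_one_left (pow_nonneg h0 _) (w_le_one _ _)
  · have h2 := w_lim i h
    have h3 : wi i.1.2 i.2.2 = 0 := by
      unfold wi
      rw [if_neg hab]
    rw [h3] at h2
    refine squeeze_zero (fun n => mul_nonneg (w_nonneg _ _) (pow_nonneg h0 _)) (fun n => ?_) h2
    exact mul_le_of_le_one_right (w_nonneg _ _) (pow_le_one₀ h0 h1.le)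

theorem proj_congr {u u' k : ℂ → ℂ} (h : ∀ z, ‖z‖ < 1 → u z = u' z) (hk : IsProj u k) :
    IsProj u' k where
  cont := hk.cont
  diff := hk.diff
  mom m := by
    rw [← hk.mom m]
    unfold dA
    refine setIntegral_congr_fun measurableSet_ball fun z hz => ?_
    show z ^ m * conj (u' z) = z ^ m * conj (u z)
    rw [h z (by simpa using hz)]

/-- the data of the expansion -/
structure Ex (t : ℝ) (Q B : ℂ → ℂ) (A : ℕ × ℕ → ℂ) : Prop where
  sum : Summable (fun i => ‖A i‖)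
  h1 : ∀ z ζ : ℂ, ‖z‖ ≤ 1 → ‖ζ‖ ≤ 1 →
      HasSum (fun i : ℕ × ℕ => A i * (z ^ i.1 * ζ ^ i.2)) (exp (t * (Q z + ζ * B z)))
  h2 : ∀ (a : ℕ) (z : ℂ), ‖z‖ ≤ 1 →
      HasSum (fun N : ℕ => A (N, a) * z ^ N) (exp (t * Q z) * ((t * B z) ^ a / (a.factorial : ℂ)))

theorem U_eq (s : ℝ) (q : ℂ) : U s q = exp (s * q) * conj (exp (((-(1 - s) : ℝ) : ℂ) * q)) := by
  unfold U
  rw [← exp_conj, ← exp_add]
  congr 1
  rw [map_mul, conj_ofReal]
  push_cast
  ring

theorem hasSum_conj' {ι : Type} {f : ι → ℂ} {x : ℂ} (h : HasSum f x) :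
    HasSum (fun i => conj (f i)) (conj x) :=
  h.map (starRingEnd ℂ) continuous_conj

section main

variable {s : ℝ} {Q B : ℂ → ℂ} {A C : ℕ × ℕ → ℂ}

/-- the coefficients -/
noncomputable def cc (A C : ℕ × ℕ → ℂ) (i : (ℕ × ℕ) × (ℕ × ℕ)) : ℂ := A i.1 * conj (C i.2)

theorem norm_cc (i : (ℕ × ℕ) × (ℕ × ℕ)) : ‖cc A C i‖ = ‖A i.1‖ * ‖C i.2‖ := by
  unfold cc
  rw [norm_mul, RCLike.norm_conj]

variable (hA : Ex s Q B A) (hC : Ex (-(1 - s)) Q B C)
include hA hC

theorem sum_cc : Summable (fun i => ‖cc A C i‖) := by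
  simp only [norm_cc]
  exact hA.sum.mul_of_nonneg hC.sum (fun _ => norm_nonneg _) (fun _ => norm_nonneg _)

theorem sum_cc_mul {f : (ℕ × ℕ) × (ℕ × ℕ) → ℂ} (hf : ∀ i, ‖f i‖ ≤ 1) :
    Summable (fun i => cc A C i * f i) := by
  refine Summable.of_norm_bounded (sum_cc hA hC) fun i => ?_
  rw [norm_mul]
  exact mul_le_of_le_one_right (norm_nonneg _) (hf i)

/-- the function whose projection is taken -/
theorem full (n : ℕ) {z : ℂ} (hz : ‖z‖ ≤ 1) :
    ∑' i, cc A C i * (z ^ dd n i * conj z ^ ee n i) = U s (Q z + z ^ n * B z) := by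
  have hzn : ‖z ^ n‖ ≤ 1 := by
    rw [norm_pow]
    exact pow_le_one₀ (norm_nonneg _) hz
  have hcz : ‖conj z‖ ≤ 1 := by rwa [RCLike.norm_conj]
  have h1 := hA.h1 z (z ^ n) hz hzn
  have h2 := hasSum_conj' (hC.h1 z (z ^ n) hz hzn)
  have hterm : ∀ i : (ℕ × ℕ) × (ℕ × ℕ),
      A i.1 * (z ^ i.1.1 * (z ^ n) ^ i.1.2) * conj (C i.2 * (z ^ i.2.1 * (z ^ n) ^ i.2.2)) =
        cc A C i * (z ^ dd n i * conj z ^ ee n i) := by
    intro i
    unfold cc dd ee
    rw [pow_add, pow_add, pow_mul, pow_mul]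
    simp only [map_mul, map_pow]
    ring
  have h3 : Summable (fun i : (ℕ × ℕ) × (ℕ × ℕ) =>
      A i.1 * (z ^ i.1.1 * (z ^ n) ^ i.1.2) * conj (C i.2 * (z ^ i.2.1 * (z ^ n) ^ i.2.2))) := by
    simp only [hterm]
    refine sum_cc_mul hA hC fun i => ?_
    rw [norm_mul, norm_pow, norm_pow]
    exact mul_le_one₀ (pow_le_one₀ (norm_nonneg _) hz) (pow_nonneg (norm_nonneg _) _)
      (pow_le_one₀ (norm_nonneg _) hcz)
  have h4 := h1.mul h2 h3
  simp only [hterm] at h4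
  rw [h4.tsum_eq, U_eq]

theorem base_term (h1 : S_FAM) (h2 : S_UNIQ) {k : ℂ → ℂ} (hk : IsProj (fun z => U s (Q z)) k)
    {z : ℂ} (hz : ‖z‖ ≤ 1) :
    HasSum (fun j : ℕ × ℕ => cc A C ((j.1, 0), (j.2, 0)) * ((w j.1 j.2 : ℂ) * z ^ (j.1 - j.2)))
      (k z) := by
  have hinj : Function.Injective (fun j : ℕ × ℕ => (((j.1, 0), (j.2, 0)) : (ℕ × ℕ) × (ℕ × ℕ))) := by
    intro i j hij
    simp only [Prod.mk.injEq, and_true] at hij
    exact Prod.ext hij.1 hij.2
  have hs : Summable (fun j : ℕ × ℕ => ‖cc A C ((j.1, 0), (j.2, 0))‖) :=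
    (sum_cc hA hC).comp_injective hinj
  have hp := h1 (ℕ × ℕ) inferInstance (fun j => cc A C ((j.1, 0), (j.2, 0))) (fun j => j.1)
    (fun j => j.2) hs
  have hu : ∀ z : ℂ, ‖z‖ < 1 → ∑' j : ℕ × ℕ, cc A C ((j.1, 0), (j.2, 0)) *
      (z ^ j.1 * conj z ^ j.2) = U s (Q z) := by
    intro z hz
    have hcz : ‖conj z‖ ≤ 1 := by rw [RCLike.norm_conj]; exact hz.le
    have e1 := hA.h2 0 z hz.le
    have e2 := hasSum_conj' (hC.h2 0 z hz.le)
    have hterm : ∀ j : ℕ × ℕ, A (j.1, 0) * z ^ j.1 * conj (C (j.2, 0) * z ^ j.2) =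
        cc A C ((j.1, 0), (j.2, 0)) * (z ^ j.1 * conj z ^ j.2) := by
      intro j
      unfold cc
      simp only [map_mul, map_pow]
      ring
    have e3 : Summable (fun j : ℕ × ℕ => A (j.1, 0) * z ^ j.1 * conj (C (j.2, 0) * z ^ j.2)) := by
      simp only [hterm]
      refine Summable.of_norm_bounded hs fun j => ?_
      rw [norm_mul, norm_mul, norm_pow, norm_pow]
      exact mul_le_of_le_one_right (norm_nonneg _)
        (mul_le_one₀ (pow_le_one₀ (norm_nonneg _) hz.le) (pow_nonneg (norm_nonneg _) _)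
          (pow_le_one₀ (norm_nonneg _) hcz))
    have e4 := e1.mul e2 e3
    simp only [hterm, pow_zero, Nat.factorial_zero, Nat.cast_one, div_one, mul_one] at e4
    rw [e4.tsum_eq, U_eq]
  have hk2 := h2 _ _ _ hk (proj_congr hu hp) z hz
  have hsum : Summable (fun j : ℕ × ℕ => cc A C ((j.1, 0), (j.2, 0)) *
      ((w j.1 j.2 : ℂ) * z ^ (j.1 - j.2))) := by
    refine Summable.of_norm_bounded hs fun j => ?_
    rw [norm_mul, norm_mul, norm_pow, Complex.norm_real, Real.norm_of_nonneg (w_nonneg _ _)]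
    exact mul_le_of_le_one_right (norm_nonneg _)
      (mul_le_one₀ (w_le_one _ _) (pow_nonneg (norm_nonneg _) _)
        (pow_le_one₀ (norm_nonneg _) hz))
  rw [hk2]
  exact hsum.hasSum

/-- the same as a sum over all the indices -/
theorem base_all (h1 : S_FAM) (h2 : S_UNIQ) {k : ℂ → ℂ} (hk : IsProj (fun z => U s (Q z)) k)
    (n : ℕ) {z : ℂ} (hz : ‖z‖ ≤ 1) :
    HasSum (fun i => cc A C i * (if i.1.2 = 0 ∧ i.2.2 = 0 then
      (w (dd n i) (ee n i) : ℂ) * z ^ (dd n i - ee n i) else 0)) (k z) := by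
  have hinj : Function.Injective (fun j : ℕ × ℕ => (((j.1, 0), (j.2, 0)) : (ℕ × ℕ) × (ℕ × ℕ))) := by
    intro i j hij
    simp only [Prod.mk.injEq, and_true] at hij
    exact Prod.ext hij.1 hij.2
  rw [← hinj.hasSum_iff]
  · refine (base_term hA hC h1 h2 hk hz).congr_fun fun j => ?_
    simp [Function.comp, dd, ee]
  · intro i hi
    rw [if_neg, mul_zero]
    rintro ⟨h3, h4⟩
    apply hi
    exact ⟨(i.1.1, i.2.1), Prod.ext (Prod.ext rfl h3.symm) (Prod.ext rfl h4.symm)⟩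

/-- the increment -/
theorem incr (n : ℕ) {z : ℂ} (hz : ‖z‖ = 1) :
    HasSum (fun i => cc A C i * ((wi i.1.2 i.2.2 : ℂ) * (z ^ dd n i * conj z ^ ee n i)))
      (U s (Q z) * G s (z ^ n * B z)) := by
  have hcz : ‖conj z‖ = 1 := by rwa [RCLike.norm_conj]
  have hb : ∀ i : (ℕ × ℕ) × (ℕ × ℕ),
      ‖(wi i.1.2 i.2.2 : ℂ) * (z ^ dd n i * conj z ^ ee n i)‖ ≤ 1 := by
    intro i
    rw [norm_mul, norm_mul, norm_pow, norm_pow, hz, hcz, one_pow, one_pow, mul_one, mul_one,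
      Complex.norm_real, Real.norm_of_nonneg (wi_nonneg _ _)]
    exact wi_le_one _ _
  have hs := sum_cc_mul hA hC hb
  let ψ : (ℕ × ℕ) × (ℕ × ℕ) ≃ (ℕ × ℕ) × (ℕ × ℕ) :=
    { toFun := fun i => ((i.2.1, i.1.1), (i.2.2, i.1.2))
      invFun := fun i => ((i.1.2, i.2.2), (i.1.1, i.2.1))
      left_inv := fun _ => rfl
      right_inv := fun _ => rfl }
  have hs2 := (ψ.hasSum_iff (a := ∑' i, cc A C i * ((wi i.1.2 i.2.2 : ℂ) *
    (z ^ dd n i * conj z ^ ee n i)))).2 hs.hasSum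
  have h3 : ∀ ab : ℕ × ℕ, HasSum (fun NM : ℕ × ℕ => ((fun i : (ℕ × ℕ) × (ℕ × ℕ) =>
      cc A C i * ((wi i.1.2 i.2.2 : ℂ) * (z ^ dd n i * conj z ^ ee n i))) ∘ ψ) (ab, NM))
      ((wi ab.1 ab.2 : ℂ) * ((exp (s * Q z) * ((s * B z) ^ ab.1 / (ab.1.factorial : ℂ)) *
          (z ^ n) ^ ab.1) *
        conj (exp (((-(1 - s) : ℝ) : ℂ) * Q z) *
          ((((-(1 - s) : ℝ) : ℂ) * B z) ^ ab.2 / (ab.2.factorial : ℂ)) * (z ^ n) ^ ab.2))) := by
    intro ab
    have e1 := (hA.h2 ab.1 z hz.le).mul_right ((z ^ n) ^ ab.1)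
    have e2 := hasSum_conj' ((hC.h2 ab.2 z hz.le).mul_right ((z ^ n) ^ ab.2))
    have hinj : Function.Injective
        (fun NM : ℕ × ℕ => (((NM.1, ab.1), (NM.2, ab.2)) : (ℕ × ℕ) × (ℕ × ℕ))) := by
      intro i j hij
      simp only [Prod.mk.injEq, and_true] at hij
      exact Prod.ext hij.1 hij.2
    have hs3 : Summable (fun NM : ℕ × ℕ => ‖cc A C ((NM.1, ab.1), (NM.2, ab.2))‖) :=
      (sum_cc hA hC).comp_injective hinj
    have e3 : Summable (fun NM : ℕ × ℕ => A (NM.1, ab.1) * z ^ NM.1 * (z ^ n) ^ ab.1 *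
        conj (C (NM.2, ab.2) * z ^ NM.2 * (z ^ n) ^ ab.2)) := by
      refine Summable.of_norm_bounded hs3 fun NM => ?_
      rw [norm_cc]
      simp only [norm_mul, norm_pow, RCLike.norm_conj, hz, one_pow, mul_one]
      exact le_rfl
    have e4 := (e1.mul e2 e3).mul_left (wi ab.1 ab.2 : ℂ)
    refine e4.congr_fun fun NM => ?_
    show cc A C ((NM.1, ab.1), (NM.2, ab.2)) * ((wi ab.1 ab.2 : ℂ) *
      (z ^ (NM.1 + n * ab.1) * conj z ^ (NM.2 + n * ab.2))) = _
    unfold cc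
    rw [pow_add, pow_add, pow_mul, pow_mul]
    simp only [map_mul, map_pow]
    ring
  have h4 := hs2.prod_fiberwise h3
  have h5 : U s (Q z) * G s (z ^ n * B z) = ∑' i, cc A C i * ((wi i.1.2 i.2.2 : ℂ) *
      (z ^ dd n i * conj z ^ ee n i)) := by
    rw [← h4.tsum_eq]
    unfold G
    rw [← tsum_mul_left]
    refine tsum_congr fun ab => ?_
    rw [U_eq]
    simp only [map_mul, map_pow, map_div₀, mul_pow]
    push_cast
    ring
  rw [h5]
  exact hs.hasSum

omit hA hC in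
theorem on_circle {z : ℂ} (hz : ‖z‖ = 1) (d e : ℕ) :
    (w d e : ℂ) * z ^ (d - e) = (w d e : ℂ) * (z ^ d * conj z ^ e) := by
  by_cases h : e ≤ d
  · have h1 : z * conj z = 1 := by
      rw [Complex.mul_conj, Complex.normSq_eq_norm_sq, hz]
      norm_num
    have h2 : z ^ d = z ^ (d - e) * z ^ e := by rw [← pow_add, Nat.sub_add_cancel h]
    rw [h2, mul_assoc (z ^ (d - e)), ← mul_pow, h1, one_pow, mul_one]
  · have h1 : w d e = 0 := by
      unfold w
      rw [if_neg h]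
    rw [h1, ofReal_zero, zero_mul, zero_mul]

/-- the kernels -/
noncomputable def kk (A C : ℕ × ℕ → ℂ) (n : ℕ) (z : ℂ) : ℂ :=
  ∑' i, cc A C i * ((w (dd n i) (ee n i) : ℂ) * z ^ (dd n i - ee n i))

theorem kk_hasSum (n : ℕ) {z : ℂ} (hz : ‖z‖ ≤ 1) :
    HasSum (fun i => cc A C i * ((w (dd n i) (ee n i) : ℂ) * z ^ (dd n i - ee n i)))
      (kk A C n z) := by
  refine (sum_cc_mul hA hC fun i => ?_).hasSum
  rw [norm_mul, norm_pow, Complex.norm_real, Real.norm_of_nonneg (w_nonneg _ _)]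
  exact mul_le_one₀ (w_le_one _ _) (pow_nonneg (norm_nonneg _) _) (pow_le_one₀ (norm_nonneg _) hz)

theorem circle_bound (h1 : S_FAM) (h2 : S_UNIQ) {k : ℂ → ℂ} (hk : IsProj (fun z => U s (Q z)) k)
    (n : ℕ) {z : ℂ} (hz : ‖z‖ = 1) :
    ‖kk A C n z - (k z + U s (Q z) * G s (z ^ n * B z))‖ ≤
      ∑' i, ‖cc A C i‖ * |w (dd n i) (ee n i) - wl i| := by
  have hcz : ‖conj z‖ = 1 := by rwa [RCLike.norm_conj]
  have e1 := kk_hasSum hA hC n hz.le
  have e2 := (base_all hA hC h1 h2 hk n hz.le).add (incr hA hC n hz)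
  have e3 := e1.sub e2
  have hterm : ∀ i : (ℕ × ℕ) × (ℕ × ℕ),
      ‖cc A C i * ((w (dd n i) (ee n i) : ℂ) * z ^ (dd n i - ee n i)) -
        (cc A C i * (if i.1.2 = 0 ∧ i.2.2 = 0 then
          (w (dd n i) (ee n i) : ℂ) * z ^ (dd n i - ee n i) else 0) +
        cc A C i * ((wi i.1.2 i.2.2 : ℂ) * (z ^ dd n i * conj z ^ ee n i)))‖ =
        ‖cc A C i‖ * |w (dd n i) (ee n i) - wl i| := by
    intro i
    rw [on_circle hz]
    have h5 : cc A C i * ((w (dd n i) (ee n i) : ℂ) * (z ^ dd n i * conj z ^ ee n i)) -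
        (cc A C i * (if i.1.2 = 0 ∧ i.2.2 = 0 then
          (w (dd n i) (ee n i) : ℂ) * (z ^ dd n i * conj z ^ ee n i) else 0) +
        cc A C i * ((wi i.1.2 i.2.2 : ℂ) * (z ^ dd n i * conj z ^ ee n i))) =
        cc A C i * (((w (dd n i) (ee n i) - wl i : ℝ) : ℂ) * (z ^ dd n i * conj z ^ ee n i)) := by
      unfold wl
      by_cases h : i.1.2 = 0 ∧ i.2.2 = 0
      · have h6 : w i.1.1 i.2.1 = w (dd n i) (ee n i) := by
          unfold dd ee
          rw [h.1, h.2, mul_zero, add_zero, add_zero]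
        rw [if_pos h, if_pos h, h6]
        push_cast
        ring
      · rw [if_neg h, if_neg h]
        push_cast
        ring
    rw [h5, norm_mul, norm_mul, norm_mul, norm_pow, norm_pow, hz, hcz, one_pow, one_pow, mul_one,
      mul_one, Complex.norm_real, Real.norm_eq_abs]
  have hsb : Summable (fun i => ‖cc A C i‖ * |w (dd n i) (ee n i) - wl i|) := by
    refine Summable.of_nonneg_of_le (fun i => by positivity) (fun i => ?_) (sum_cc hA hC)
    refine mul_le_of_le_one_right (norm_nonneg _) ?_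
    rw [abs_le]
    constructor <;> linarith [w_nonneg (dd n i) (ee n i), w_le_one (dd n i) (ee n i),
      wl_nonneg i, wl_le_one i]
  rw [← e3.tsum_eq]
  refine (norm_tsum_le_tsum_norm ?_).trans (le_of_eq (tsum_congr hterm))
  simp only [hterm]
  exact hsb

theorem disc_bound (h1 : S_FAM) (h2 : S_UNIQ) {k : ℂ → ℂ} (hk : IsProj (fun z => U s (Q z)) k)
    (n : ℕ) {ρ : ℝ} (h0 : 0 ≤ ρ) (hρ : ρ < 1) {z : ℂ} (hz : ‖z‖ ≤ ρ) :
    ‖kk A C n z - k z‖ ≤
      ∑' i : (ℕ × ℕ) × (ℕ × ℕ), ‖cc A C i‖ * (if i.1.2 = 0 ∧ i.2.2 = 0 then 0 else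
        w (dd n i) (ee n i) * ρ ^ (dd n i - ee n i)) := by
  have hz1 : ‖z‖ ≤ 1 := hz.trans hρ.le
  have e3 := (kk_hasSum hA hC n hz1).sub (base_all hA hC h1 h2 hk n hz1)
  have hterm : ∀ i : (ℕ × ℕ) × (ℕ × ℕ),
      ‖cc A C i * ((w (dd n i) (ee n i) : ℂ) * z ^ (dd n i - ee n i)) -
        cc A C i * (if i.1.2 = 0 ∧ i.2.2 = 0 then
          (w (dd n i) (ee n i) : ℂ) * z ^ (dd n i - ee n i) else 0)‖ ≤
        ‖cc A C i‖ * (if i.1.2 = 0 ∧ i.2.2 = 0 then 0 else
        w (dd n i) (ee n i) * ρ ^ (dd n i - ee n i)) := by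
    intro i
    split_ifs with h
    · rw [sub_self, norm_zero, mul_zero]
    · rw [mul_zero, sub_zero, norm_mul, norm_mul, norm_pow, Complex.norm_real,
        Real.norm_of_nonneg (w_nonneg _ _)]
      have h5 : ‖z‖ ^ (dd n i - ee n i) ≤ ρ ^ (dd n i - ee n i) :=
        pow_le_pow_left₀ (norm_nonneg _) hz _
      exact mul_le_mul_of_nonneg_left (mul_le_mul_of_nonneg_left h5 (w_nonneg _ _))
        (norm_nonneg _)
  have hsb : Summable (fun i : (ℕ × ℕ) × (ℕ × ℕ) => ‖cc A C i‖ *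
      (if i.1.2 = 0 ∧ i.2.2 = 0 then 0 else w (dd n i) (ee n i) * ρ ^ (dd n i - ee n i))) := by
    refine Summable.of_nonneg_of_le (fun i => ?_) (fun i => ?_) (sum_cc hA hC)
    · apply mul_nonneg (norm_nonneg _)
      split_ifs
      · exact le_rfl
      · exact mul_nonneg (w_nonneg _ _) (pow_nonneg h0 _)
    · refine mul_le_of_le_one_right (norm_nonneg _) ?_
      split_ifs
      · exact zero_le_one
      · exact mul_le_one₀ (w_le_one _ _) (pow_nonneg h0 _) (pow_le_one₀ h0 hρ.le)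
  rw [← e3.tsum_eq]
  refine tsum_of_norm_bounded hsb.hasSum hterm

end main

end Step

open Step in
/-- **T5** -/
theorem step (h1 : S_FAM) (h2 : S_UNIQ) (h3 : S_EXP) : S_STEP := by
  intro s hs0 hs1 Q B k hQ hB hk ρ hρ ε hε
  obtain ⟨A, a1, a2, a3⟩ := h3 s Q B hQ hB
  obtain ⟨C, c1, c2, c3⟩ := h3 (-(1 - s)) Q B hQ hB
  have hA : Ex s Q B A := ⟨a1, a2, a3⟩
  have hC : Ex (-(1 - s)) Q B C := ⟨c1, c2, c3⟩
  have hsum := sum_cc hA hC
  -- the limits
  have l1 : Tendsto (fun n => ∑' i, ‖cc A C i‖ * |w (dd n i) (ee n i) - wl i|) atTop (𝓝 0) := by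
    have := tendsto_tsum_of_dominated_convergence (𝓕 := atTop)
      (f := fun (n : ℕ) i => ‖cc A C i‖ * |w (dd n i) (ee n i) - wl i|) (g := fun _ => (0 : ℝ))
      (bound := fun i => ‖cc A C i‖) hsum (fun i => by
        have h5 : Tendsto (fun n => |w (dd n i) (ee n i) - wl i|) atTop (𝓝 0) := by
          have h6 := ((wl_lim i).sub_const (wl i)).abs
          rwa [sub_self, abs_zero] at h6
        simpa using h5.const_mul ‖cc A C i‖)
      (Eventually.of_forall fun n i => by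
        rw [Real.norm_of_nonneg (by positivity)]
        refine mul_le_of_le_one_right (norm_nonneg _) ?_
        rw [abs_le]
        constructor <;> linarith [w_nonneg (dd n i) (ee n i), w_le_one (dd n i) (ee n i),
          wl_nonneg i, wl_le_one i])
    rwa [tsum_zero] at this
  have hρ0 : 0 ≤ max ρ 0 := le_max_right _ _
  have hρ1 : max ρ 0 < 1 := max_lt hρ one_pos
  have l2 : Tendsto (fun n => ∑' i : (ℕ × ℕ) × (ℕ × ℕ), ‖cc A C i‖ *
      (if i.1.2 = 0 ∧ i.2.2 = 0 then 0 else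
        w (dd n i) (ee n i) * (max ρ 0) ^ (dd n i - ee n i))) atTop (𝓝 0) := by
    have := tendsto_tsum_of_dominated_convergence (𝓕 := atTop)
      (f := fun (n : ℕ) (i : (ℕ × ℕ) × (ℕ × ℕ)) => ‖cc A C i‖ *
      (if i.1.2 = 0 ∧ i.2.2 = 0 then 0 else
        w (dd n i) (ee n i) * (max ρ 0) ^ (dd n i - ee n i))) (g := fun _ => (0 : ℝ))
      (bound := fun i => ‖cc A C i‖) hsum (fun i => by
        by_cases h : i.1.2 = 0 ∧ i.2.2 = 0
        · simp only [if_pos h, mul_zero]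
          exact tendsto_const_nhds
        · simp only [if_neg h]
          simpa using (in_lim i h hρ0 hρ1).const_mul ‖cc A C i‖)
      (Eventually.of_forall fun n i => by
        split_ifs
        · rw [mul_zero, norm_zero]
          exact norm_nonneg _
        · rw [Real.norm_of_nonneg (mul_nonneg (norm_nonneg _)
            (mul_nonneg (w_nonneg _ _) (pow_nonneg hρ0 _)))]
          exact mul_le_of_le_one_right (norm_nonneg _)
            (mul_le_one₀ (w_le_one _ _) (pow_nonneg hρ0 _) (pow_le_one₀ hρ0 hρ1.le)))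
    rwa [tsum_zero] at this
  filter_upwards [l1.eventually_le_const hε, l2.eventually_le_const hε] with n hn1 hn2
  refine ⟨kk A C n, ?_, ?_, ?_⟩
  · refine proj_congr (u := fun z => ∑' i, cc A C i * (z ^ dd n i * conj z ^ ee n i))
      (fun z hz => full hA hC n hz.le) ?_
    exact h1 _ inferInstance (cc A C) (dd n) (ee n) hsum
  · intro z hz
    exact (circle_bound hA hC h1 h2 hk n hz).trans hn1
  · intro z hz
    exact (disc_bound hA hC h1 h2 hk n hρ0 hρ1 (hz.trans (le_max_left _ _))).trans hn2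

end Pool.Agent.H928.BX
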