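import Pool.Agent.H928.BX.Stm

/-!
# A function continuous on the closed disc and analytic inside is determined by its area moments
-/

set_option autoImplicit false

open MeasureTheory Set Filter Topology Complex Metric
open scoped ComplexConjugate

namespace Pool.Agent.H928.BX

namespace Uniq

instance : IsFiniteMeasure dA := by
  unfold dA
  exact ⟨by
    rw [Measure.restrict_apply_univ]
    exact measure_ball_lt_top⟩

/-- uniform approximation by polynomials -/
lemma approx {d : ℂ → ℂ} (hc : ContinuousOn d (closedBall 0 1))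
    (hd : DifferentiableOn ℂ d (ball 0 1)) {ε : ℝ} (hε : 0 < ε) :
    ∃ (n : ℕ) (a : ℕ → ℂ), ∀ z ∈ ball (0 : ℂ) 1,
      ‖d z - ∑ i ∈ Finset.range n, a i * z ^ i‖ ≤ ε := by
  have huc := (isCompact_closedBall (0 : ℂ) 1).uniformContinuousOn_of_continuous hc
  rw [Metric.uniformContinuousOn_iff] at huc
  obtain ⟨δ, hδ, hδ2⟩ := huc (ε / 2) (by positivity)
  set ρ : ℝ := max (1 / 2) (1 - δ / 2) with hρ
  have hρ0 : 0 < ρ := lt_max_of_lt_left (by norm_num)
  have hρ1 : ρ < 1 := max_lt (by norm_num) (by linarith)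
  have hρ2 : 1 - ρ < δ := by
    have := le_max_right (1 / 2) (1 - δ / 2)
    rw [← hρ] at this
    linarith
  have hdc : DiffContOnCl ℂ d (ball 0 ((1 : NNReal) : ℝ)) := by
    refine ⟨by simpa using hd, ?_⟩
    rw [NNReal.coe_one, closure_ball (0 : ℂ) one_ne_zero]
    exact hc
  have hp := hdc.hasFPowerSeriesOnBall one_pos
  set p := cauchyPowerSeries d 0 ((1 : NNReal) : ℝ) with hpd
  have hu := hp.tendstoUniformlyOn (r' := ⟨ρ, hρ0.le⟩) (by
    exact_mod_cast (show (⟨ρ, hρ0.le⟩ : NNReal) < 1 from hρ1))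
  rw [Metric.tendstoUniformlyOn_iff] at hu
  obtain ⟨n, hn⟩ := (hu (ε / 2) (by positivity)).exists
  refine ⟨n, fun i => p.coeff i * (ρ : ℂ) ^ i, fun z hz => ?_⟩
  have hz1 : ‖z‖ < 1 := by simpa using hz
  have h1 : (ρ : ℂ) * z ∈ ball (0 : ℂ) ρ := by
    rw [mem_ball_zero_iff, norm_mul, Complex.norm_real, Real.norm_of_nonneg hρ0.le]
    nlinarith
  have h2 := hn _ h1
  have h3 : p.partialSum n ((ρ : ℂ) * z) =
      ∑ i ∈ Finset.range n, p.coeff i * (ρ : ℂ) ^ i * z ^ i := by
    unfold FormalMultilinearSeries.partialSum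
    refine Finset.sum_congr rfl fun i _ => ?_
    rw [FormalMultilinearSeries.apply_eq_pow_smul_coeff, smul_eq_mul, mul_pow]
    ring
  have h4 : dist (d z) (d ((ρ : ℂ) * z)) < ε / 2 := by
    refine hδ2 z (ball_subset_closedBall hz) _ ?_ ?_
    · exact ball_subset_closedBall (ball_subset_ball hρ1.le h1)
    · rw [dist_eq_norm]
      have h5 : z - (ρ : ℂ) * z = ((1 - ρ : ℝ) : ℂ) * z := by
        push_cast
        ring
      rw [h5, norm_mul, Complex.norm_real, Real.norm_of_nonneg (by linarith)]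
      nlinarith [norm_nonneg z]
  rw [zero_add, h3] at h2
  calc ‖d z - ∑ i ∈ Finset.range n, p.coeff i * (ρ : ℂ) ^ i * z ^ i‖
      = dist (d z) (∑ i ∈ Finset.range n, p.coeff i * (ρ : ℂ) ^ i * z ^ i) :=
        (dist_eq_norm _ _).symm
    _ ≤ dist (d z) (d ((ρ : ℂ) * z)) +
        dist (d ((ρ : ℂ) * z)) (∑ i ∈ Finset.range n, p.coeff i * (ρ : ℂ) ^ i * z ^ i) :=
        dist_triangle _ _ _
    _ ≤ ε := by linarith

lemma integ {f : ℂ → ℂ} (hf : ContinuousOn f (closedBall 0 1)) : Integrable f dA :=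
  (hf.integrableOn_compact (isCompact_closedBall _ _)).mono_set ball_subset_closedBall

lemma cont_conj {f : ℂ → ℂ} (hf : ContinuousOn f (closedBall 0 1)) :
    ContinuousOn (fun z => conj (f z)) (closedBall 0 1) :=
  continuous_conj.comp_continuousOn hf

lemma zero_of_moments {d : ℂ → ℂ} (hc : ContinuousOn d (closedBall 0 1))
    (hd : DifferentiableOn ℂ d (ball 0 1)) (hm : ∀ m : ℕ, ∫ z, z ^ m * conj (d z) ∂dA = 0) :
    ∀ z ∈ closedBall (0 : ℂ) 1, d z = 0 := by
  have hcc := cont_conj hc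
  have hI : Integrable (fun z => ‖d z‖) dA := (integ hc).norm
  set C : ℝ := ∫ z, ‖d z‖ ∂dA with hC
  have hC0 : 0 ≤ C := integral_nonneg fun z => norm_nonneg _
  have key : ∀ ε : ℝ, 0 < ε → ‖∫ z, d z * conj (d z) ∂dA‖ ≤ ε * C := by
    intro ε hε
    obtain ⟨n, a, ha⟩ := approx hc hd hε
    have hPc : Continuous (fun z : ℂ => ∑ i ∈ Finset.range n, a i * z ^ i) := by fun_prop
    have h1 : ∫ z, (∑ i ∈ Finset.range n, a i * z ^ i) * conj (d z) ∂dA = 0 := by
      have e1 : ∀ z, (∑ i ∈ Finset.range n, a i * z ^ i) * conj (d z) =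
          ∑ i ∈ Finset.range n, a i * (z ^ i * conj (d z)) := by
        intro z
        rw [Finset.sum_mul]
        refine Finset.sum_congr rfl fun i _ => ?_
        ring
      simp_rw [e1]
      rw [integral_finsetSum]
      · refine Finset.sum_eq_zero fun i _ => ?_
        rw [integral_const_mul, hm, mul_zero]
      · intro i _
        refine (integ (ContinuousOn.mul ?_ hcc)).const_mul _
        fun_prop
    have h2 : ∫ z, d z * conj (d z) ∂dA =
        ∫ z, (d z - ∑ i ∈ Finset.range n, a i * z ^ i) * conj (d z) ∂dA := by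
      have e2 : ∀ z, (d z - ∑ i ∈ Finset.range n, a i * z ^ i) * conj (d z) =
          d z * conj (d z) - (∑ i ∈ Finset.range n, a i * z ^ i) * conj (d z) := fun z => by ring
      have i1 : Integrable (fun z => d z * conj (d z)) dA := integ (hc.mul hcc)
      have i2 : Integrable (fun z => (∑ i ∈ Finset.range n, a i * z ^ i) * conj (d z)) dA :=
        integ (hPc.continuousOn.mul hcc)
      simp_rw [e2]
      rw [integral_sub i1 i2, h1, sub_zero]
    rw [h2]
    have h3 : ∀ᵐ z ∂dA, ‖(d z - ∑ i ∈ Finset.range n, a i * z ^ i) * conj (d z)‖ ≤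
        ε * ‖d z‖ := by
      unfold dA
      refine (ae_restrict_iff' measurableSet_ball).2 (Eventually.of_forall fun z hz => ?_)
      rw [norm_mul, RCLike.norm_conj]
      exact mul_le_mul_of_nonneg_right (ha z hz) (norm_nonneg _)
    refine (norm_integral_le_of_norm_le (hI.const_mul ε) h3).trans (le_of_eq ?_)
    rw [integral_const_mul]
  have h0 : ∫ z, d z * conj (d z) ∂dA = 0 := by
    rw [← norm_le_zero_iff]
    refine le_of_forall_pos_le_add fun η hη => ?_
    have h1 := key (η / (C + 1)) (by positivity)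
    rw [zero_add]
    refine h1.trans ?_
    rw [div_mul_eq_mul_div, div_le_iff₀ (by positivity)]
    nlinarith
  have h1 : ∫ z, ‖d z‖ ^ 2 ∂dA = 0 := by
    have e1 : ∀ z, d z * conj (d z) = ((‖d z‖ ^ 2 : ℝ) : ℂ) := by
      intro z
      rw [Complex.mul_conj, Complex.normSq_eq_norm_sq]
    simp_rw [e1] at h0
    have e2 : ∫ z, ((‖d z‖ ^ 2 : ℝ) : ℂ) ∂dA = ((∫ z, ‖d z‖ ^ 2 ∂dA : ℝ) : ℂ) := integral_ofReal
    rw [e2] at h0
    exact_mod_cast h0
  have h2 : Integrable (fun z => ‖d z‖ ^ 2) dA := by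
    have := integ (hc.mul hcc)
    refine this.norm.congr (Eventually.of_forall fun z => ?_)
    show ‖d z * conj (d z)‖ = ‖d z‖ ^ 2
    rw [norm_mul, RCLike.norm_conj, sq]
  rw [integral_eq_zero_iff_of_nonneg (fun z => by positivity) h2] at h1
  have h3 : d =ᵐ[dA] fun _ => (0 : ℂ) := by
    filter_upwards [h1] with z hz
    have hz' : ‖d z‖ ^ 2 = 0 := hz
    exact norm_eq_zero.1 (pow_eq_zero_iff two_ne_zero |>.1 hz')
  have h4 : EqOn d (fun _ => (0 : ℂ)) (ball 0 1) :=
    Measure.eqOn_open_of_ae_eq (μ := volume) h3 isOpen_ball (hc.mono ball_subset_closedBall)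
      continuousOn_const
  have h5 : EqOn d (fun _ => (0 : ℂ)) (closedBall 0 1) :=
    h4.of_subset_closure hc continuousOn_const ball_subset_closedBall (by
      rw [closure_ball (0 : ℂ) one_ne_zero])
  exact fun z hz => h5 hz

end Uniq

open Uniq in
/-- T3: uniqueness -/
theorem uniq : S_UNIQ := by
  intro u k k' h h' z hz
  have h1 := zero_of_moments (d := fun z => k z - k' z) (h.cont.sub h'.cont) (h.diff.sub h'.diff)
    (fun m => by
      have hp : ContinuousOn (fun z : ℂ => z ^ m) (closedBall 0 1) := by fun_prop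
      have e1 : ∀ z : ℂ, z ^ m * conj (k z - k' z) = z ^ m * conj (k z) - z ^ m * conj (k' z) := by
        intro z
        rw [map_sub]
        ring
      have i1 : Integrable (fun z => z ^ m * conj (k z)) dA := integ (hp.mul (cont_conj h.cont))
      have i2 : Integrable (fun z => z ^ m * conj (k' z)) dA := integ (hp.mul (cont_conj h'.cont))
      simp_rw [e1]
      rw [integral_sub i1 i2, ← h.mom, ← h'.mom, sub_self])
    z (by simpa using hz)
  exact sub_eq_zero.1 h1

end Pool.Agent.H928.BX
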