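import Pool.Agent.H928.BX.Stm

set_option autoImplicit false

open MeasureTheory Set Filter Topology Complex Metric
open scoped ComplexConjugate

namespace Pool.Agent.H928.BX

theorem win (h1 : S_OPEN) (h2 : S_FLOW) (h3 : S_EMPTY) : S_WIN := by
  intro s hs1 hs2 A hA M κ q hκ
  have hs0 : 0 < s := by linarith
  by_contra hW
  set L : Set (ℂ × ℂ) := {x | ‖x.1‖ < 1 ∧ ¬ Win s A M x.1 x.2} with hL
  have hmem : (κ, q) ∈ L := ⟨hκ, hW⟩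
  have a1 : ∀ x ∈ L, ‖x.1‖ < 1 := fun x hx => hx.1
  have a2 : ∀ x : ℂ × ℂ, ‖x.1‖ < 1 → x ∈ closure L → x ∈ L := by
    intro x hx hcl
    refine ⟨hx, fun hw => ?_⟩
    obtain ⟨δ, hδ, hδ'⟩ := h1 s hs0 hs2 A M x.1 x.2 hw
    obtain ⟨y, hy, hxy⟩ := Metric.mem_closure_iff.mp hcl δ hδ
    apply hy.2
    rw [Prod.dist_eq, max_lt_iff] at hxy
    apply hδ'
    · rw [← dist_eq_norm, dist_comm]; exact hxy.1
    · rw [← dist_eq_norm, dist_comm]; exact hxy.2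
  have a3 : ∀ x ∈ L, ∀ ω : ℂ, ω ≠ 0 → ‖ω‖ < 1 → A * ‖U s x.2‖ * ‖ω‖ < 1 - ‖x.1‖ →
    (x.1 + U s x.2 * G s ω, x.2 + ω) ∈ L := by
    intro x hx ω h0 hω hAω
    refine ⟨?_, fun hw => hx.2 (Win.step _ _ ω hx.1 h0 hω hAω hw)⟩
    have hG := hA.2 ω hω.le
    have h5 : ‖x.1 + U s x.2 * G s ω‖ ≤ ‖x.1‖ + ‖U s x.2‖ * (A / 2 * ‖ω‖) := by
      refine (norm_add_le _ _).trans ?_
      rw [norm_mul]
      gcongr
    have hx1 := hx.1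
    have h6 : ‖U s x.2‖ * (A / 2 * ‖ω‖) = (A * ‖U s x.2‖ * ‖ω‖) / 2 := by ring
    show ‖x.1 + U s x.2 * G s ω‖ < 1
    rw [h6] at h5
    linarith
  have a4 : ∀ x ∈ L, ‖x.1‖ < 1 / 2 → ‖U s x.2‖ ≤ M := by
    intro x hx hx2
    by_contra hc
    push Not at hc
    exact hx.2 (Win.base _ _ hx2 hc)
  obtain ⟨f1, f2⟩ := h2 s hs1 hs2 A hA L a1 a2 a3
  have := h3 s hs1 hs2 M L a1 a4 f1 f2
  rw [this] at hmem
  exact hmem

end Pool.Agent.H928.BX
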