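import Pool.Agent.H928.BX.Mom
import Pool.Agent.H928.BX.Fam
import Pool.Agent.H928.BX.Uniq
import Pool.Agent.H928.BX.Exp
import Pool.Agent.H928.BX.Step
import Pool.Agent.H928.BX.Close
import Pool.Agent.H928.BX.G
import Pool.Agent.H928.BX.Outer
import Pool.Agent.H928.BX.Phase
import Pool.Agent.H928.BX.Open
import Pool.Agent.H928.BX.Flow
import Pool.Agent.H928.BX.Empty
import Pool.Agent.H928.BX.Win
import Pool.Agent.H928.BX.Follow
import Pool.Agent.H928.BX.Der
import Pool.Agent.H928.BX.Stage
import Pool.Agent.H928.BX.Seq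
import Pool.Agent.H928.BX.Limit
import Pool.Agent.H928.BX.Dens
import Pool.Agent.H928.BX.Ext
import Pool.Agent.H928.BX.Rep
import Pool.Agent.H928.BX.Dyad
import Pool.Agent.H928.BX.BB
import Pool.Agent.H928.BX.Fin

/-!
# Assembly of the pieces (MP_7d928b_an, Q1)
-/

set_option autoImplicit false

open MeasureTheory Set Filter Topology Complex Metric
open scoped ComplexConjugate

namespace Pool.Agent.H928.BX

theorem a_step : S_STEP := step (fam mom) uniq expand

theorem a_win : S_WIN := win (win_open g_props) (flow g_props) empty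

theorem a_follow : S_FOLLOW := follow a_step close g_props outer phase

theorem a_macro : S_MACRO := stage a_step close g_props outer a_win a_follow der

theorem a_limit : S_LIMIT := limit (seq a_macro)

theorem main (p : ℝ) (h1 : 1 < p) (h2 : p < 2) :
    ∃ k F : ℂ → ℂ, InHInfinity k ∧ InBergman (p / (p - 1)) k ∧ (∃ z ∈ ball (0 : ℂ) 1, k z ≠ 0) ∧
      IsExtremal p k F ∧ ¬ InBloch F ∧ ¬ InBMOA F :=
  final a_limit (ext dens) (bb rep dyad) p h1 h2

end Pool.Agent.H928.BX
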