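import Pool.Agent.H928.BX.Stm

/-!
Task Mom (helper261): area integrals of monomials.
-/

set_option autoImplicit false

open MeasureTheory Set Filter Topology Complex Metric
open scoped ComplexConjugate

namespace Pool.Agent.H928.BX

namespace Mom

/-- radial part -/
noncomputable def fr (n : ℕ) (r : ℝ) : ℂ := (Ioo (0 : ℝ) 1).indicator (fun r => ((r ^ n : ℝ) : ℂ)) r

theorem int_fr (n : ℕ) : ∫ r in Ioi (0 : ℝ), fr n r = ((n : ℂ) + 1)⁻¹ := by
  unfold fr
  rw [setIntegral_indicator measurableSet_Ioo]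
  have h : Ioi (0 : ℝ) ∩ Ioo 0 1 = Ioo 0 1 := by
    ext x; simp only [mem_inter_iff, mem_Ioi, mem_Ioo]; tauto
  rw [h, ← integral_Ioc_eq_integral_Ioo, ← intervalIntegral.integral_of_le zero_le_one,
    intervalIntegral.integral_ofReal, integral_pow]
  simp

theorem int_ang (a b : ℕ) : ∫ θ in Ioo (-Real.pi) Real.pi, exp ((((a : ℂ) - b) * I) * (θ : ℂ)) =
    if a = b then (2 * Real.pi : ℂ) else 0 := by
  rw [← integral_Ioc_eq_integral_Ioo, ← intervalIntegral.integral_of_le (by linarith [Real.pi_pos])]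
  split_ifs with h
  · subst h
    simp
    ring
  · have hc : (((a : ℂ) - b) * I) ≠ 0 := by
      apply mul_ne_zero _ I_ne_zero
      rw [sub_ne_zero]
      exact_mod_cast h
    rw [integral_exp_mul_complex hc]
    have e1 : exp ((((a : ℂ) - b) * I) * ((Real.pi : ℝ) : ℂ)) =
        exp ((((a : ℂ) - b) * I) * ((-Real.pi : ℝ) : ℂ)) := by
      rw [exp_eq_exp_iff_exists_int]
      refine ⟨(a : ℤ) - b, ?_⟩
      push_cast
      ring
    rw [e1]
    simp

end Mom

open Mom in
theorem mom : S_MOM := by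
  intro a b
  unfold dA
  rw [← integral_indicator measurableSet_ball, ← Complex.integral_comp_polarCoord_symm,
    polarCoord_target]
  have h : ∀ x ∈ Ioi (0 : ℝ) ×ˢ Ioo (-Real.pi) Real.pi,
      x.1 • (ball (0 : ℂ) 1).indicator (fun z => z ^ a * conj z ^ b) (Complex.polarCoord.symm x) =
      fr (a + b + 1) x.1 * exp ((((a : ℂ) - b) * I) * (x.2 : ℂ)) := by
    rintro ⟨r, θ⟩ ⟨hr, hθ⟩
    simp only [mem_Ioi] at hr
    have hz : Complex.polarCoord.symm (r, θ) = (r : ℂ) * exp (θ * I) := by
      rw [Complex.polarCoord_symm_apply, exp_mul_I, ofReal_cos, ofReal_sin]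
    have hn : ‖Complex.polarCoord.symm (r, θ)‖ = r := by
      rw [hz, norm_mul, Complex.norm_exp_ofReal_mul_I, mul_one, Complex.norm_real,
        Real.norm_of_nonneg hr.le]
    unfold fr
    by_cases h1 : r < 1
    · rw [indicator_of_mem (by rw [mem_ball_zero_iff, hn]; exact h1),
        indicator_of_mem (by exact ⟨hr, h1⟩)]
      simp only
      rw [hz]
      have hc : conj ((r : ℂ) * exp (θ * I)) = (r : ℂ) * exp (-(θ * I)) := by
        rw [map_mul, Complex.conj_ofReal, ← Complex.exp_conj]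
        congr 2
        simp
      rw [hc, mul_pow, mul_pow, ← Complex.exp_nat_mul, ← Complex.exp_nat_mul]
      have he : exp ((((a : ℂ) - b) * I) * (θ : ℂ)) =
          exp ((a : ℂ) * (θ * I)) * exp ((b : ℂ) * (-(θ * I))) := by
        rw [← Complex.exp_add]; congr 1; ring
      rw [he, Complex.real_smul]
      push_cast
      ring
    · rw [indicator_of_notMem (by rw [mem_ball_zero_iff, hn]; exact h1), indicator_of_notMem (by
        simp only [mem_Ioo, not_and, not_lt]; intro _; exact not_lt.1 h1)]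
      simp
  rw [setIntegral_congr_fun (measurableSet_Ioi.prod measurableSet_Ioo) h,
    Measure.volume_eq_prod, setIntegral_prod_mul (fun r : ℝ => fr (a + b + 1) r)
      (fun θ : ℝ => exp ((((a : ℂ) - b) * I) * (θ : ℂ))), int_fr, int_ang]
  split_ifs with hab
  · subst hab
    push_cast
    have h1 : (a : ℂ) + 1 ≠ 0 := by exact_mod_cast Nat.succ_ne_zero a
    have h2 : (a : ℂ) + a + 1 + 1 = 2 * ((a : ℂ) + 1) := by ring
    rw [h2, mul_inv, div_eq_mul_inv]
    field_simp
  · simp

end Pool.Agent.H928.BX
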