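import Pool.Agent.H928.BX.Stm

set_option autoImplicit false

open MeasureTheory Set Filter Topology Complex Metric
open scoped ComplexConjugate

namespace Pool.Agent.H928.BX

namespace SeqAux

lemma norm_U (s : ℝ) (q : ℂ) : ‖U s q‖ = Real.exp ((2 * s - 1) * q.re) := by
  unfold U
  rw [Complex.norm_exp]
  congr 1
  simp
  ring

lemma isProj_const (c : ℂ) : IsProj (fun _ => c) (fun _ => c) :=
  ⟨continuousOn_const, differentiableOn_const _, fun _ => rfl⟩

lemma good_zero {s : ℝ} (hs : 1 / 2 < s) : Good s (fun _ => -1) (fun _ => U s (-1)) := by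
  refine ⟨differentiable_const _, isProj_const _, fun z _ => ?_⟩
  rw [norm_U, Real.exp_lt_one_iff]
  simp
  linarith

end SeqAux

open SeqAux

theorem seq (h : S_MACRO) : S_SEQ := by
  intro s hs1 hs2
  let X := {x : (ℂ → ℂ) × (ℂ → ℂ) × ℝ // Good s x.1 x.2.1 ∧ 0 < x.2.2 ∧ x.2.2 < 1}
  have hstep : ∀ (j : ℕ) (x : X), ∃ (Q' k' : ℂ → ℂ) (z : ℂ), Good s Q' k' ∧
      Close x.1.2.2 ((1 - x.1.2.2) * (1 / 4) ^ j) x.1.1 x.1.2.1 Q' k' ∧ z ∈ ball (0 : ℂ) 1 ∧
      (j : ℝ) ≤ (1 - ‖z‖ ^ 2) * ‖deriv (fun z => exp (Q' z)) z‖ := by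
    intro j x
    have hx := x.2
    obtain ⟨Q', k', h1, h2, z, h3, h4⟩ := h s hs1 hs2 x.1.1 x.1.2.1 hx.1 j x.1.2.2 hx.2.2
      ((1 - x.1.2.2) * (1 / 4) ^ j) (by
        have := hx.2.2
        have h5 : 0 < 1 - x.1.2.2 := by linarith
        positivity)
    exact ⟨Q', k', z, h1, h2, h3, h4⟩
  choose Q' k' z' g1 g2 g3 g4 using hstep
  let r : ℕ → X → ℝ := fun j x => max (max x.1.2.2 ((1 + ‖z' j x‖) / 2)) (1 - 1 / ((j : ℝ) + 2))
  have hr : ∀ j x, 0 < r j x ∧ r j x < 1 := by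
    intro j x
    have hx := x.2
    have hz : ‖z' j x‖ < 1 := by simpa using g3 j x
    have hj : (0 : ℝ) < 1 / ((j : ℝ) + 2) := by positivity
    refine ⟨lt_of_lt_of_le hx.2.1 ((le_max_left _ _).trans (le_max_left _ _)), ?_⟩
    refine max_lt (max_lt hx.2.2 (by linarith)) (by linarith)
  let nxt : ℕ → X → X := fun j x => ⟨(Q' j x, k' j x, r j x), g1 j x, (hr j x).1, (hr j x).2⟩
  let x0 : X := ⟨(fun _ => -1, fun _ => U s (-1), 1 / 2), good_zero hs1, by norm_num, by norm_num⟩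
  let x : ℕ → X := fun n => Nat.rec x0 (fun j y => nxt j y) n
  have hx : ∀ n, x (n + 1) = nxt n (x n) := fun n => rfl
  refine ⟨fun j => (x j).1.1, fun j => (x j).1.2.1, fun j => (x j).1.2.2, fun j => z' j (x j),
    fun j => (x j).2.1, fun j => (x j).2.2, ?_, ?_, ?_, ?_⟩
  · apply monotone_nat_of_le_succ
    intro n
    rw [hx n]
    exact (le_max_left _ _).trans (le_max_left _ _)
  · have hlow : ∀ n : ℕ, 1 - 1 / ((n : ℝ) + 1) ≤ (x n).1.2.2 := by
      intro n
      cases n with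
      | zero =>
        have : (x 0).1.2.2 = 1 / 2 := rfl
        rw [this]
        norm_num
      | succ n =>
        rw [hx n]
        have e : (1 : ℝ) - 1 / (((n + 1 : ℕ) : ℝ) + 1) = 1 - 1 / ((n : ℝ) + 2) := by
          push_cast
          ring_nf
        rw [e]
        exact le_max_right _ _
    have hl : Tendsto (fun n : ℕ => (1 : ℝ) - 1 / ((n : ℝ) + 1)) atTop (𝓝 1) := by
      have := (tendsto_one_div_add_atTop_nhds_zero_nat (𝕜 := ℝ)).const_sub 1
      simpa using this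
    exact tendsto_of_tendsto_of_tendsto_of_le_of_le hl tendsto_const_nhds hlow
      fun n => (x n).2.2.2.le
  · intro j
    show Close (x j).1.2.2 ((1 - (x j).1.2.2) * (1 / 4) ^ j) (x j).1.1 (x j).1.2.1
      (x (j + 1)).1.1 (x (j + 1)).1.2.1
    rw [hx j]
    exact g2 j (x j)
  · intro j
    refine ⟨g3 j (x j), ?_, ?_⟩
    · show (1 + ‖z' j (x j)‖) / 2 ≤ (x (j + 1)).1.2.2
      rw [hx j]
      exact (le_max_right _ _).trans (le_max_left _ _)
    · exact g4 j (x j)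

end Pool.Agent.H928.BX
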