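import Mathlib

/-!
# Statement file: bounded kernels with extremal functions outside BMOA (MP_7d928b_an, Q1)

`U s q = ‖e^q‖^(p-2) e^q` with `s = p/2`; for `F = exp Q` the kernel of `F` is the Bergman
projection of `U s (Q z)`.
-/

set_option autoImplicit false

open MeasureTheory Set Filter Topology Complex Metric
open scoped ComplexConjugate

namespace Pool.Agent.H928.BX

/-- Area measure on the unit disc. -/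
noncomputable def dA : Measure ℂ := volume.restrict (ball (0 : ℂ) 1)

/-- `f` belongs to the Bergman space `A^p`. -/
def InBergman (p : ℝ) (f : ℂ → ℂ) : Prop :=
  DifferentiableOn ℂ f (ball 0 1) ∧ Integrable (fun z => ‖f z‖ ^ p) dA

/-- The norm of `A^p`. -/
noncomputable def bergmanNorm (p : ℝ) (f : ℂ → ℂ) : ℝ := (∫ z, ‖f z‖ ^ p ∂dA) ^ (1 / p)

/-- The functional `f ↦ ∫ f conj k dA` with kernel `k`. -/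
noncomputable def functional (k f : ℂ → ℂ) : ℂ := ∫ z, f z * conj (k z) ∂dA

/-- `F` is the `A^p` extremal function for the kernel `k`: it has norm one in `A^p` and maximises
`Re ∫ f conj k dA` among all `f ∈ A^p` of norm one. -/
structure IsExtremal (p : ℝ) (k F : ℂ → ℂ) : Prop where
  mem : InBergman p F
  norm_eq : bergmanNorm p F = 1
  max : ∀ f : ℂ → ℂ, InBergman p f → bergmanNorm p f = 1 →
    (functional k f).re ≤ (functional k F).re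

/-- `f` is a bounded analytic function on the disc. -/
def InHInfinity (f : ℂ → ℂ) : Prop :=
  DifferentiableOn ℂ f (ball 0 1) ∧ ∃ M : ℝ, ∀ z ∈ ball (0 : ℂ) 1, ‖f z‖ ≤ M

/-- `f` belongs to the Hardy space `H²`: analytic, with bounded quadratic means on circles. -/
def InHardyTwo (f : ℂ → ℂ) : Prop :=
  DifferentiableOn ℂ f (ball 0 1) ∧ ∃ C : ℝ, ∀ r : ℝ, 0 < r → r < 1 →
    (2 * Real.pi)⁻¹ * ∫ θ in (0:ℝ)..(2 * Real.pi), ‖f (r * Complex.exp (θ * I))‖ ^ 2 ≤ C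

/-- `b` (a `2π`-periodic function of the angle) is the boundary function of `f`: it is square
integrable on the circle and the dilates `θ ↦ f(r e^{iθ})` converge to it in `L²` as `r → 1`. -/
def IsBoundaryFunction (f : ℂ → ℂ) (b : ℝ → ℂ) : Prop :=
  Measurable b ∧ Function.Periodic b (2 * Real.pi) ∧
    IntervalIntegrable (fun θ => ‖b θ‖ ^ 2) volume 0 (2 * Real.pi) ∧
    Tendsto (fun r : ℝ => ∫ θ in (0:ℝ)..(2 * Real.pi), ‖f (r * Complex.exp (θ * I)) - b θ‖ ^ 2)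
      (𝓝[<] 1) (𝓝 0)

/-- `b` has bounded mean oscillation on the unit circle (all arcs, parametrised by the angle). -/
def HasBMO (b : ℝ → ℂ) : Prop :=
  ∃ C : ℝ, ∀ α β : ℝ, α < β → β ≤ α + 2 * Real.pi →
    (β - α)⁻¹ * ∫ θ in α..β, ‖b θ - ((β - α)⁻¹ : ℝ) • ∫ t in α..β, b t‖ ≤ C

/-- `BMOA`: functions in `H²` whose boundary values have bounded mean oscillation. -/
def InBMOA (f : ℂ → ℂ) : Prop :=
  InHardyTwo f ∧ ∃ b : ℝ → ℂ, IsBoundaryFunction f b ∧ HasBMO b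

/-- The Bloch space. -/
def InBloch (f : ℂ → ℂ) : Prop :=
  DifferentiableOn ℂ f (ball 0 1) ∧
    ∃ C : ℝ, ∀ z ∈ ball (0 : ℂ) 1, (1 - ‖z‖ ^ 2) * ‖deriv f z‖ ≤ C

/-- `U s q = ‖e^q‖^(2s-2) e^q`. -/
noncomputable def U (s : ℝ) (q : ℂ) : ℂ := exp (s * q - (1 - s) * conj q)

/-- the weights of the Bergman projection: `P(z^d conj z^e) = w d e z^(d-e)` -/
noncomputable def w (d e : ℕ) : ℝ := if e ≤ d then ((d : ℝ) - e + 1) / ((d : ℝ) + 1) else 0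

/-- the limits of `w (N + n a) (M + n b)` as `n → ∞`, `(a, b) ≠ (0, 0)` -/
noncomputable def wi (a b : ℕ) : ℝ := if b < a then ((a : ℝ) - b) / a else 0

/-- the increment of the kernel for the step `ω` -/
noncomputable def G (s : ℝ) (ω : ℂ) : ℂ := ∑' i : ℕ × ℕ, (wi i.1 i.2 : ℂ) *
  (((s * ω) ^ i.1 / (i.1.factorial : ℂ)) * conj ((-(1 - s) * ω) ^ i.2 / (i.2.factorial : ℂ)))

/-- `k` is the Bergman projection of `u` (both tested against monomials), continuous up to the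
boundary -/
structure IsProj (u k : ℂ → ℂ) : Prop where
  cont : ContinuousOn k (closedBall 0 1)
  diff : DifferentiableOn ℂ k (ball 0 1)
  mom : ∀ m : ℕ, ∫ z, z ^ m * conj (u z) ∂dA = ∫ z, z ^ m * conj (k z) ∂dA

/-- the finite stage objects: `F = exp Q`, `k` the projection of `U s (Q z)`, `‖k‖ < 1` on the
circle -/
structure Good (s : ℝ) (Q k : ℂ → ℂ) : Prop where
  diff : Differentiable ℂ Q
  proj : IsProj (fun z => U s (Q z)) k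
  lt : ∀ z, ‖z‖ = 1 → ‖k z‖ < 1

/-- `(Q', k')` is close to `(Q, k)` -/
structure Close (ρ ε : ℝ) (Q k Q' k' : ℂ → ℂ) : Prop where
  q : ∀ z, ‖z‖ ≤ ρ → ‖exp (Q' z) - exp (Q z)‖ ≤ ε
  k : ∀ z, ‖z‖ ≤ ρ → ‖k' z - k z‖ ≤ ε
  l2 : ∫ z, ‖exp (Q' z) - exp (Q z)‖ ^ 2 ∂dA ≤ ε

/-- bound for `G` -/
def GB (s A : ℝ) : Prop := 0 < A ∧ ∀ ω : ℂ, ‖ω‖ ≤ 1 → ‖G s ω‖ ≤ A / 2 * ‖ω‖

/-- the states (boundary values of `(k, Q)`) from which large `‖U s q‖` can be reached -/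
inductive Win (s A M : ℝ) : ℂ → ℂ → Prop
  | base (κ q : ℂ) : ‖κ‖ < 1 / 2 → M < ‖U s q‖ → Win s A M κ q
  | step (κ q ω : ℂ) : ‖κ‖ < 1 → ω ≠ 0 → ‖ω‖ < 1 → A * ‖U s q‖ * ‖ω‖ < 1 - ‖κ‖ →
      Win s A M (κ + U s q * G s ω) (q + ω) → Win s A M κ q

/-! ## The pieces -/

/-- T1: moments of monomials -/
def S_MOM : Prop := ∀ a b : ℕ, ∫ z, z ^ a * conj z ^ b ∂dA =
  if a = b then (Real.pi : ℂ) / ((a : ℂ) + 1) else 0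

/-- T2: projection of an absolutely summable family of monomials -/
def S_FAM : Prop := ∀ (ι : Type) (_ : Countable ι) (c : ι → ℂ) (d e : ι → ℕ),
  Summable (fun i => ‖c i‖) →
  IsProj (fun z => ∑' i, c i * (z ^ d i * conj z ^ e i))
    (fun z => ∑' i, c i * ((w (d i) (e i) : ℂ) * z ^ (d i - e i)))

/-- T3: uniqueness -/
def S_UNIQ : Prop := ∀ u k k' : ℂ → ℂ, IsProj u k → IsProj u k' → ∀ z, ‖z‖ ≤ 1 → k z = k' z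

/-- T4: expansion -/
def S_EXP : Prop := ∀ (s : ℝ) (Q B : ℂ → ℂ), Differentiable ℂ Q → Differentiable ℂ B →
  ∃ A : ℕ × ℕ → ℂ, Summable (fun i => ‖A i‖) ∧
    (∀ z ζ : ℂ, ‖z‖ ≤ 1 → ‖ζ‖ ≤ 1 →
      HasSum (fun i : ℕ × ℕ => A i * (z ^ i.1 * ζ ^ i.2)) (exp (s * (Q z + ζ * B z)))) ∧
    (∀ (a : ℕ) (z : ℂ), ‖z‖ ≤ 1 →
      HasSum (fun N : ℕ => A (N, a) * z ^ N) (exp (s * Q z) * ((s * B z) ^ a / (a.factorial : ℂ))))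

/-- T5: the step -/
def S_STEP : Prop := ∀ s : ℝ, 0 < s → s < 1 → ∀ Q B k : ℂ → ℂ, Differentiable ℂ Q →
  Differentiable ℂ B → IsProj (fun z => U s (Q z)) k → ∀ ρ < (1 : ℝ), ∀ ε > (0 : ℝ),
  ∀ᶠ n : ℕ in atTop, ∃ k' : ℂ → ℂ, IsProj (fun z => U s (Q z + z ^ n * B z)) k' ∧
    (∀ z, ‖z‖ = 1 → ‖k' z - (k z + U s (Q z) * G s (z ^ n * B z))‖ ≤ ε) ∧
    (∀ z, ‖z‖ ≤ ρ → ‖k' z - k z‖ ≤ ε)

/-- T6: closeness of the step -/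
def S_CLOSE : Prop := ∀ Q B : ℂ → ℂ, Differentiable ℂ Q → Differentiable ℂ B →
  ∀ ρ < (1 : ℝ), ∀ ε > (0 : ℝ), ∀ᶠ n : ℕ in atTop,
    (∀ z, ‖z‖ ≤ ρ → ‖exp (Q z + z ^ n * B z) - exp (Q z)‖ ≤ ε) ∧
    ∫ z, ‖exp (Q z + z ^ n * B z) - exp (Q z)‖ ^ 2 ∂dA ≤ ε

/-- T7: properties of `G` -/
def S_G : Prop := ∀ s : ℝ, 0 < s → s < 1 → Continuous (G s) ∧
  (∃ C : ℝ, ∀ ω : ℂ, ‖ω‖ ≤ 1 → ‖G s ω - s * ω‖ ≤ C * ‖ω‖ ^ 2)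

/-- T8: outer functions with prescribed modulus -/
def S_OUTER : Prop := ∀ r : ℂ → ℝ, ContinuousOn r (sphere 0 1) →
  (∀ z ∈ sphere (0 : ℂ) 1, 0 < r z) → ∀ η > (0 : ℝ), ∃ H : ℂ → ℂ, Differentiable ℂ H ∧
    ∀ z ∈ sphere (0 : ℂ) 1, r z * Real.exp (-η) ≤ ‖exp (H z)‖ ∧ ‖exp (H z)‖ ≤ r z

/-- T9: all phases occur near every boundary point -/
def S_PHASE : Prop := ∀ B : ℂ → ℂ, Continuous B → ∀ z0 : ℂ, ‖z0‖ = 1 → ∀ ω : ℂ, ‖ω‖ = ‖B z0‖ →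
  ∀ ε > (0 : ℝ), ∀ᶠ n : ℕ in atTop, ∃ z1 : ℂ, ‖z1‖ = 1 ∧ ‖z1 - z0‖ ≤ ε ∧ ‖z1 ^ n * B z1 - ω‖ ≤ ε

/-- T10: the set of winning states is open -/
def S_OPEN : Prop := ∀ s : ℝ, 0 < s → s < 1 → ∀ A M : ℝ, ∀ κ q : ℂ, Win s A M κ q →
  ∃ δ > (0 : ℝ), ∀ κ' q' : ℂ, ‖κ' - κ‖ < δ → ‖q' - q‖ < δ → Win s A M κ' q'

/-- T11: a closed set of states which is invariant under small steps is invariant under the flows.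
(`L` is the complement of the winning states.) -/
def S_FLOW : Prop := ∀ s : ℝ, 1 / 2 < s → s < 1 → ∀ A : ℝ, GB s A → ∀ L : Set (ℂ × ℂ),
  (∀ x ∈ L, ‖x.1‖ < 1) →
  (∀ x : ℂ × ℂ, ‖x.1‖ < 1 → x ∈ closure L → x ∈ L) →
  (∀ x ∈ L, ∀ ω : ℂ, ω ≠ 0 → ‖ω‖ < 1 → A * ‖U s x.2‖ * ‖ω‖ < 1 - ‖x.1‖ →
    (x.1 + U s x.2 * G s ω, x.2 + ω) ∈ L) →
  (∀ x ∈ L, ∀ y : ℝ, (∀ t ∈ Icc (0 : ℝ) 1,
      ‖x.1 + U s x.2 * ((s / (2 * s - 1) : ℝ) * (exp (((2 * s - 1) * y * t : ℝ)) - 1))‖ < 1) →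
    (x.1 + U s x.2 * ((s / (2 * s - 1) : ℝ) * (exp (((2 * s - 1) * y : ℝ)) - 1)), x.2 + y) ∈ L) ∧
  (∀ x ∈ L, ∀ β : ℝ, (∀ t ∈ Icc (0 : ℝ) 1,
      ‖x.1 + U s x.2 * (s * (exp ((β * t : ℝ) * I) - 1))‖ < 1) →
    (x.1 + U s x.2 * (s * (exp ((β : ℝ) * I) - 1)), x.2 + β * I) ∈ L)

/-- T12: every such set is empty if `‖U s q‖` is bounded on its part `‖κ‖ < 1/2` -/
def S_EMPTY : Prop := ∀ s : ℝ, 1 / 2 < s → s < 1 → ∀ M : ℝ, ∀ L : Set (ℂ × ℂ),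
  (∀ x ∈ L, ‖x.1‖ < 1) →
  (∀ x ∈ L, ‖x.1‖ < 1 / 2 → ‖U s x.2‖ ≤ M) →
  (∀ x ∈ L, ∀ y : ℝ, (∀ t ∈ Icc (0 : ℝ) 1,
      ‖x.1 + U s x.2 * ((s / (2 * s - 1) : ℝ) * (exp (((2 * s - 1) * y * t : ℝ)) - 1))‖ < 1) →
    (x.1 + U s x.2 * ((s / (2 * s - 1) : ℝ) * (exp (((2 * s - 1) * y : ℝ)) - 1)), x.2 + y) ∈ L) →
  (∀ x ∈ L, ∀ β : ℝ, (∀ t ∈ Icc (0 : ℝ) 1,
      ‖x.1 + U s x.2 * (s * (exp ((β * t : ℝ) * I) - 1))‖ < 1) →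
    (x.1 + U s x.2 * (s * (exp ((β : ℝ) * I) - 1)), x.2 + β * I) ∈ L) → L = ∅

/-- every state is winning -/
def S_WIN : Prop := ∀ s : ℝ, 1 / 2 < s → s < 1 → ∀ A : ℝ, GB s A → ∀ M : ℝ, ∀ κ q : ℂ,
  ‖κ‖ < 1 → Win s A M κ q

/-- T13: following a winning path -/
def S_FOLLOW : Prop := ∀ s : ℝ, 0 < s → s < 1 → ∀ A : ℝ, GB s A → ∀ M : ℝ, ∀ κ q : ℂ,
  Win s A M κ q → ∃ δ > (0 : ℝ), ∀ (Q k : ℂ → ℂ) (z0 : ℂ), Good s Q k → ‖z0‖ = 1 →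
    ‖k z0 - κ‖ < δ → ‖Q z0 - q‖ < δ → ∀ ρ < (1 : ℝ), ∀ ε > (0 : ℝ),
    ∃ (Q' k' : ℂ → ℂ) (z1 : ℂ), Good s Q' k' ∧ ‖z1‖ = 1 ∧ ‖k' z1‖ < 1 / 2 ∧
      M < ‖U s (Q' z1)‖ ∧ Close ρ ε Q k Q' k'

/-- T14: the derivative of `exp (Q + z^n B)` near a boundary point -/
def S_DER : Prop := ∀ Q B : ℂ → ℂ, Differentiable ℂ Q → Differentiable ℂ B → ∀ z0 : ℂ, ‖z0‖ = 1 →
  B z0 ≠ 0 → ∀ᶠ n : ℕ in atTop, ∃ z ∈ ball (0 : ℂ) 1,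
    (1 / 2) * Real.exp (-1) * Real.exp (-‖B z0‖) * ‖B z0‖ * ‖exp (Q z0)‖ ≤
      (1 - ‖z‖ ^ 2) * ‖deriv (fun z => exp (Q z + z ^ n * B z)) z‖

/-- T15: from every stage, a close further stage has a large Bloch quotient -/
def S_MACRO : Prop := ∀ s : ℝ, 1 / 2 < s → s < 1 → ∀ Q k : ℂ → ℂ, Good s Q k → ∀ M : ℝ,
  ∀ ρ < (1 : ℝ), ∀ ε > (0 : ℝ), ∃ Q' k' : ℂ → ℂ, Good s Q' k' ∧ Close ρ ε Q k Q' k' ∧
    ∃ z ∈ ball (0 : ℂ) 1, M ≤ (1 - ‖z‖ ^ 2) * ‖deriv (fun z => exp (Q' z)) z‖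

/-- T16a: the sequence of stages -/
def S_SEQ : Prop := ∀ s : ℝ, 1 / 2 < s → s < 1 → ∃ (Q k : ℕ → ℂ → ℂ) (ρ : ℕ → ℝ) (z : ℕ → ℂ),
  (∀ j, Good s (Q j) (k j)) ∧ (∀ j, 0 < ρ j ∧ ρ j < 1) ∧ Monotone ρ ∧ Tendsto ρ atTop (𝓝 1) ∧
  (∀ j, Close (ρ j) ((1 - ρ j) * (1 / 4) ^ j) (Q j) (k j) (Q (j + 1)) (k (j + 1))) ∧
  (∀ j, z j ∈ ball (0 : ℂ) 1 ∧ (1 + ‖z j‖) / 2 ≤ ρ (j + 1) ∧
    (j : ℝ) ≤ (1 - ‖z j‖ ^ 2) * ‖deriv (fun z => exp (Q (j + 1) z)) (z j)‖)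

/-- T16b: the limit -/
def S_LIMIT : Prop := ∀ s : ℝ, 1 / 2 < s → s < 1 → ∃ F k : ℂ → ℂ,
  DifferentiableOn ℂ F (ball 0 1) ∧ Integrable (fun z => ‖F z‖ ^ (2 * s)) dA ∧ ¬ InBloch F ∧
  DifferentiableOn ℂ k (ball 0 1) ∧ (∀ z ∈ ball (0 : ℂ) 1, ‖k z‖ ≤ 1) ∧
  ∀ m : ℕ, ∫ z, z ^ m * conj (((‖F z‖ ^ (2 * s - 2) : ℝ) : ℂ) * F z) ∂dA =
    ∫ z, z ^ m * conj (k z) ∂dA

/-- T17a: density of the polynomials, dual form -/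
def S_DENS : Prop := ∀ p : ℝ, 1 < p → ∀ f v : ℂ → ℂ, InBergman p f →
  AEStronglyMeasurable v dA → Integrable (fun z => ‖v z‖ ^ (p / (p - 1))) dA →
  (∀ m : ℕ, ∫ z, z ^ m * conj (v z) ∂dA = 0) → ∫ z, f z * conj (v z) ∂dA = 0

/-- T17b: the extremal problem -/
def S_EXT : Prop := ∀ p : ℝ, 1 < p → ∀ F k : ℂ → ℂ,
  DifferentiableOn ℂ F (ball 0 1) → Integrable (fun z => ‖F z‖ ^ p) dA →
  (∃ z ∈ ball (0 : ℂ) 1, F z ≠ 0) → DifferentiableOn ℂ k (ball 0 1) →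
  (∃ M : ℝ, ∀ z ∈ ball (0 : ℂ) 1, ‖k z‖ ≤ M) →
  (∀ m : ℕ, ∫ z, z ^ m * conj (((‖F z‖ ^ (p - 2) : ℝ) : ℂ) * F z) ∂dA =
    ∫ z, z ^ m * conj (k z) ∂dA) →
  (∃ z ∈ ball (0 : ℂ) 1, k z ≠ 0) ∧ ∃ c : ℝ, 0 < c ∧ IsExtremal p k (fun z => (c : ℂ) * F z)

/-- T18a: the derivative as a Cauchy integral of the boundary function -/
def S_REP : Prop := ∀ (F : ℂ → ℂ) (b : ℝ → ℂ), InHardyTwo F → IsBoundaryFunction F b →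
  ∀ z ∈ ball (0 : ℂ) 1, ∀ (c : ℂ) (α : ℝ), deriv F z = ((2 * Real.pi)⁻¹ : ℝ) *
    ∫ θ in α..(α + 2 * Real.pi), (b θ - c) * exp (θ * I) / (exp (θ * I) - z) ^ 2

/-- T18b: the dyadic estimate for functions of bounded mean oscillation -/
def S_DYAD : Prop := ∀ b : ℝ → ℂ, Measurable b → Function.Periodic b (2 * Real.pi) →
  IntervalIntegrable (fun θ => ‖b θ‖ ^ 2) volume 0 (2 * Real.pi) → HasBMO b →
  ∃ C : ℝ, ∀ θ₀ δ : ℝ, 0 < δ → δ ≤ 1 → ∃ c : ℂ,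
    ∫ θ in (θ₀ - Real.pi)..(θ₀ + Real.pi), ‖b θ - c‖ / ((θ - θ₀) ^ 2 + δ ^ 2) ≤ C / δ

/-- T18c: `BMOA` is contained in the Bloch space -/
def S_BB : Prop := ∀ F : ℂ → ℂ, InBMOA F → InBloch F

end Pool.Agent.H928.BX
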